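import Pool.Agent.Helper52.EK.Defs

/-!
Calculus for the area functional in log-polar coordinates: derivatives of `‖N‖ ^ (-κ)` along the
coordinate lines, integration by parts on the rectangle.
-/

set_option autoImplicit false

open Complex MeasureTheory Metric Set Filter Topology
open scoped Real ComplexConjugate

namespace Pool.Agent.Helper14.CK

open Pool.Agent.Helper39.Area Pool.Agent.Helper52.EK

/-- derivative of `log ‖u‖` along a path -/
theorem hasDerivAt_log_norm {u : ℝ → ℂ} {u' : ℂ} {t : ℝ} (hu : HasDerivAt u u' t)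
    (h0 : u t ≠ 0) : HasDerivAt (fun t => Real.log ‖u t‖) (u' / u t).re t := by
  have hre : HasDerivAt (fun t => (u t).re) u'.re t := by
    exact Complex.reCLM.hasFDerivAt.comp_hasDerivAt t hu
  have him : HasDerivAt (fun t => (u t).im) u'.im t := by
    exact Complex.imCLM.hasFDerivAt.comp_hasDerivAt t hu
  have hsq : HasDerivAt (fun t => Complex.normSq (u t))
      (2 * ((u t).re * u'.re + (u t).im * u'.im)) t := by
    have h1 := (hre.mul hre).add (him.mul him)
    have h2 : (fun t => Complex.normSq (u t))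
        = fun t => (u t).re * (u t).re + (u t).im * (u t).im := by
      funext s
      rw [Complex.normSq_apply]
    rw [h2]
    convert! h1 using 1
    ring
  have hne : Complex.normSq (u t) ≠ 0 := by
    rw [Ne, Complex.normSq_eq_zero]
    exact h0
  have hlog := (hsq.log hne).div_const 2
  have h3 : (fun t => Real.log ‖u t‖) = fun t => Real.log (Complex.normSq (u t)) / 2 := by
    funext s
    rw [Complex.normSq_eq_norm_sq, Real.log_pow]
    push_cast
    ring
  rw [h3]
  convert! hlog using 1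
  rw [Complex.div_re]
  field_simp

/-- derivative of `‖u‖ ^ (-κ)` along a path -/
theorem hasDerivAt_norm_rpow {u : ℝ → ℂ} {u' : ℂ} {t : ℝ} (κ : ℝ) (hu : HasDerivAt u u' t)
    (h0 : u t ≠ 0) : HasDerivAt (fun t => ‖u t‖ ^ (-κ))
      (-κ * ‖u t‖ ^ (-κ) * (u' / u t).re) t := by
  have h1 := ((hasDerivAt_log_norm hu h0).mul_const (-κ)).exp
  have h2 : (fun t => ‖u t‖ ^ (-κ)) =ᶠ[𝓝 t] fun t => Real.exp (Real.log ‖u t‖ * -κ) := by
    have h3 : ∀ᶠ s in 𝓝 t, u s ≠ 0 := hu.continuousAt.eventually_ne h0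
    filter_upwards [h3] with s hs
    exact Real.rpow_def_of_pos (norm_pos_iff.mpr hs) _
  have h4 := h1.congr_of_eventuallyEq h2
  convert! h4 using 1
  rw [← Real.rpow_def_of_pos (norm_pos_iff.mpr h0)]
  ring

theorem norm_ep (t θ : ℝ) : ‖ep t θ‖ = Real.exp t := by
  rw [ep, Complex.norm_exp]
  simp

theorem ep_ne_zero (t θ : ℝ) : ep t θ ≠ 0 := Complex.exp_ne_zero _

theorem hasDerivAt_ep_x (x θ : ℝ) : HasDerivAt (fun x : ℝ => ep (-x) θ) (-ep (-x) θ) x := by
  unfold ep
  have h1 : HasDerivAt (fun x : ℝ => ((-x : ℝ) : ℂ) + (θ : ℂ) * I) (-1) x := by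
    have h2 : HasDerivAt (fun x : ℝ => ((-x : ℝ) : ℂ)) (-1) x := by
      have := ((hasDerivAt_id x).neg).ofReal_comp
      simpa using this
    exact h2.add_const _
  have h3 := h1.cexp
  convert! h3 using 1
  ring

theorem hasDerivAt_ep_θ (t θ : ℝ) : HasDerivAt (fun θ : ℝ => ep t θ) (I * ep t θ) θ := by
  unfold ep
  have h1 : HasDerivAt (fun θ : ℝ => ((t : ℝ) : ℂ) + (θ : ℂ) * I) I θ := by
    have h2 : HasDerivAt (fun θ : ℝ => (θ : ℂ)) 1 θ := by
      have := (hasDerivAt_id θ).ofReal_comp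
      simpa using this
    have h3 := (h2.mul_const I).const_add ((t : ℝ) : ℂ)
    simpa using h3
  have h3 := h1.cexp
  convert! h3 using 1
  ring

/-- chain rule along `x` -/
theorem hasDerivAt_comp_x {g : ℂ → ℂ} {g' : ℂ} {x θ : ℝ} (hg : HasDerivAt g g' (ep (-x) θ)) :
    HasDerivAt (fun x : ℝ => g (ep (-x) θ)) (-(ep (-x) θ * g')) x := by
  have h1 := HasDerivAt.scomp x hg (hasDerivAt_ep_x x θ)
  convert! h1 using 1
  rw [smul_eq_mul]
  ring

/-- chain rule along `θ` -/
theorem hasDerivAt_comp_θ {g : ℂ → ℂ} {g' : ℂ} {t θ : ℝ} (hg : HasDerivAt g g' (ep t θ)) :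
    HasDerivAt (fun θ : ℝ => g (ep t θ)) (I * (ep t θ * g')) θ := by
  have h1 := HasDerivAt.scomp θ hg (hasDerivAt_ep_θ t θ)
  convert! h1 using 1
  rw [smul_eq_mul]
  ring

theorem hasDerivAt_re {u : ℝ → ℂ} {u' : ℂ} {t : ℝ} (hu : HasDerivAt u u' t) :
    HasDerivAt (fun t => (u t).re) u'.re t := by
  exact Complex.reCLM.hasFDerivAt.comp_hasDerivAt t hu

theorem hasDerivAt_im {u : ℝ → ℂ} {u' : ℂ} {t : ℝ} (hu : HasDerivAt u u' t) :
    HasDerivAt (fun t => (u t).im) u'.im t := by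
  exact Complex.imCLM.hasFDerivAt.comp_hasDerivAt t hu

/-- the rectangle of the log-polar coordinates -/
def Rect (a b : ℝ) : Set (ℝ × ℝ) := Icc a b ×ˢ Icc (-π) π

theorem isCompact_rect (a b : ℝ) : IsCompact (Rect a b) := isCompact_Icc.prod isCompact_Icc

theorem measurableSet_rect (a b : ℝ) : MeasurableSet (Rect a b) :=
  measurableSet_Icc.prod measurableSet_Icc

theorem integrableOn_rect {a b : ℝ} {f : ℝ × ℝ → ℝ} (hf : ContinuousOn f (Rect a b)) :
    IntegrableOn f (Rect a b) := hf.integrableOn_compact (isCompact_rect a b)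

theorem integrableOn_rectC {a b : ℝ} {f : ℝ × ℝ → ℂ} (hf : ContinuousOn f (Rect a b)) :
    IntegrableOn f (Rect a b) := hf.integrableOn_compact (isCompact_rect a b)

/-- iterated integral, inner variable `θ` -/
theorem rect_eq {a b : ℝ} (hab : a ≤ b) {f : ℝ × ℝ → ℝ} (hf : ContinuousOn f (Rect a b)) :
    ∫ p in Rect a b, f p = ∫ x in a..b, ∫ θ in (-π)..π, f (x, θ) := by
  have hπ : -π ≤ π := by linarith [Real.pi_pos]
  have h1 := integrableOn_rect hf
  rw [Measure.volume_eq_prod] at h1 ⊢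
  rw [Rect, setIntegral_prod _ h1, intervalIntegral.integral_of_le hab, integral_Icc_eq_integral_Ioc]
  refine setIntegral_congr_fun measurableSet_Ioc fun x _ => ?_
  show ∫ y in Icc (-π) π, f (x, y) = ∫ θ in (-π)..π, f (x, θ)
  rw [intervalIntegral.integral_of_le hπ, integral_Icc_eq_integral_Ioc]

/-- iterated integral, inner variable `x` -/
theorem rect_eq' {a b : ℝ} (hab : a ≤ b) {f : ℝ × ℝ → ℝ} (hf : ContinuousOn f (Rect a b)) :
    ∫ p in Rect a b, f p = ∫ θ in (-π)..π, ∫ x in a..b, f (x, θ) := by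
  have hπ : -π ≤ π := by linarith [Real.pi_pos]
  have h1 := integrableOn_rect hf
  have h2 : IntegrableOn (fun p : ℝ × ℝ => f p.swap) (Icc (-π) π ×ˢ Icc a b) := by
    apply ContinuousOn.integrableOn_compact (isCompact_Icc.prod isCompact_Icc)
    apply hf.comp continuous_swap.continuousOn
    intro p hp
    exact ⟨hp.2, hp.1⟩
  rw [Measure.volume_eq_prod] at h1 h2 ⊢
  rw [Rect, ← setIntegral_prod_swap, setIntegral_prod _ h2,
    intervalIntegral.integral_of_le hπ, integral_Icc_eq_integral_Ioc]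
  refine setIntegral_congr_fun measurableSet_Ioc fun x _ => ?_
  simp only [Prod.swap_prod_mk]
  rw [intervalIntegral.integral_of_le hab, integral_Icc_eq_integral_Ioc]

/-- integration by parts in `x`: no boundary terms -/
theorem ibp_x {a b : ℝ} (hab : a ≤ b) {G Gx : ℝ × ℝ → ℝ} (hc : ContinuousOn Gx (Rect a b))
    (hd : ∀ x ∈ Icc a b, ∀ θ ∈ Icc (-π) π, HasDerivAt (fun x => G (x, θ)) (Gx (x, θ)) x)
    (ha : ∀ θ, G (a, θ) = 0) (hb : ∀ θ, G (b, θ) = 0) : ∫ p in Rect a b, Gx p = 0 := by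
  have hπ : -π ≤ π := by linarith [Real.pi_pos]
  rw [rect_eq' hab hc, intervalIntegral.integral_of_le hπ]
  rw [setIntegral_congr_fun (g := fun _ => (0 : ℝ)) measurableSet_Ioc, integral_zero]
  intro θ hθ
  have hθ' : θ ∈ Icc (-π) π := Ioc_subset_Icc_self hθ
  simp only
  rw [intervalIntegral.integral_eq_sub_of_hasDerivAt (f := fun x => G (x, θ))
    (f' := fun x => Gx (x, θ)), ha, hb, sub_zero]
  · intro x hx
    rw [uIcc_of_le hab] at hx
    exact hd x hx θ hθ'
  · apply ContinuousOn.intervalIntegrable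
    rw [uIcc_of_le hab]
    exact hc.comp (by fun_prop) (fun x hx => ⟨hx, hθ'⟩)

/-- integration by parts in `θ`: periodicity -/
theorem ibp_θ {a b : ℝ} (hab : a ≤ b) {G Gθ : ℝ × ℝ → ℝ} (hc : ContinuousOn Gθ (Rect a b))
    (hd : ∀ x ∈ Icc a b, ∀ θ ∈ Icc (-π) π, HasDerivAt (fun θ => G (x, θ)) (Gθ (x, θ)) θ)
    (hp : ∀ x, G (x, -π) = G (x, π)) : ∫ p in Rect a b, Gθ p = 0 := by
  have hπ : -π ≤ π := by linarith [Real.pi_pos]
  rw [rect_eq hab hc, intervalIntegral.integral_of_le hab]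
  rw [setIntegral_congr_fun (g := fun _ => (0 : ℝ)) measurableSet_Ioc, integral_zero]
  intro x hx
  have hx' : x ∈ Icc a b := Ioc_subset_Icc_self hx
  simp only
  rw [intervalIntegral.integral_eq_sub_of_hasDerivAt (f := fun θ => G (x, θ))
    (f' := fun θ => Gθ (x, θ)), hp, sub_self]
  · intro θ hθ
    rw [uIcc_of_le hπ] at hθ
    exact hd x hx' θ hθ
  · apply ContinuousOn.intervalIntegrable
    rw [uIcc_of_le hπ]
    exact hc.comp (by fun_prop) (fun θ hθ => ⟨hx', hθ⟩)

end Pool.Agent.Helper14.CK
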