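import Pool.Agent.Helper73.EK.Pois

/-!
Plane integrals used for the kernels: radial weights against `‖ζ - z‖ ^ (-2)`, and `‖ζ - z‖ ^ (-1)`.
-/

set_option autoImplicit false

open Complex MeasureTheory Metric Set Filter Topology
open scoped Real ComplexConjugate

namespace Pool.Agent.Helper14.CK

open Pool.Agent.Helper39.Area Pool.Agent.Helper52.EK

/-- polar coordinates on a ball -/
theorem polar_ball {ρ : ℝ} {f : ℂ → ℝ} (hf : ContinuousOn f (closedBall 0 ρ)) :
    ∫ z in ball (0:ℂ) ρ, f z =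
      ∫ s in Ioo 0 ρ, ∫ θ in Ioo (-π) π, s * f ((s:ℂ) * Complex.exp (θ * I)) := by
  rw [← integral_indicator measurableSet_ball, ← Complex.integral_comp_polarCoord_symm]
  have h2 : ∫ p in polarCoord.target, p.1 • (ball (0:ℂ) ρ).indicator f
      (Complex.polarCoord.symm p) = ∫ p in Ioo 0 ρ ×ˢ Ioo (-π) π,
        p.1 * f ((p.1:ℂ) * Complex.exp (p.2 * I)) := by
    have h3 : ∀ p ∈ polarCoord.target, p.1 • (ball (0:ℂ) ρ).indicator f
        (Complex.polarCoord.symm p) = (Ioo 0 ρ ×ˢ Ioo (-π) π).indicator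
          (fun p => p.1 * f ((p.1:ℂ) * Complex.exp (p.2 * I))) p := by
      rintro ⟨r, θ⟩ ⟨hr, hθ⟩
      simp only [mem_Ioi] at hr hθ
      have h4 : Complex.polarCoord.symm (r, θ) = (r:ℂ) * Complex.exp (θ * I) := by
        rw [Complex.polarCoord_symm_apply, Complex.exp_mul_I, Complex.ofReal_cos,
          Complex.ofReal_sin]
      have h5 : ‖Complex.polarCoord.symm (r, θ)‖ = r := by
        rw [h4, norm_mul, Complex.norm_exp_ofReal_mul_I, mul_one, Complex.norm_real,
          Real.norm_of_nonneg hr.le]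
      by_cases hrρ : r < ρ
      · rw [indicator_of_mem (by rw [mem_ball, dist_zero_right, h5]; exact hrρ),
          indicator_of_mem (show (r, θ) ∈ Ioo 0 ρ ×ˢ Ioo (-π) π from ⟨⟨hr, hrρ⟩, hθ⟩), h4,
          smul_eq_mul]
      · rw [indicator_of_notMem (by rw [mem_ball, dist_zero_right, h5]; exact hrρ),
          indicator_of_notMem (fun h : (r, θ) ∈ Ioo 0 ρ ×ˢ Ioo (-π) π => hrρ h.1.2), smul_zero]
    rw [setIntegral_congr_fun polarCoord.open_target.measurableSet h3,
      setIntegral_indicator (measurableSet_Ioo.prod measurableSet_Ioo)]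
    congr 2
    apply inter_eq_right.2
    rintro ⟨r, θ⟩ ⟨hr, hθ⟩
    exact ⟨hr.1, hθ⟩
  rw [h2, Measure.volume_eq_prod, setIntegral_prod]
  have h6 : ContinuousOn (fun p : ℝ × ℝ => p.1 * f ((p.1:ℂ) * Complex.exp (p.2 * I)))
      (Icc 0 ρ ×ˢ Icc (-π) π) := by
    apply continuous_fst.continuousOn.mul
    apply hf.comp (by fun_prop)
    rintro ⟨r, θ⟩ ⟨hr, hθ⟩
    simp only [mem_closedBall, dist_zero_right, norm_mul, Complex.norm_exp_ofReal_mul_I, mul_one,
      Complex.norm_real]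
    rw [Real.norm_of_nonneg hr.1]
    exact hr.2
  have h7 := h6.integrableOn_compact (μ := (volume : Measure (ℝ × ℝ)))
    (isCompact_Icc.prod isCompact_Icc)
  rw [Measure.volume_eq_prod] at h7
  exact h7.mono_set (prod_mono Ioo_subset_Icc_self Ioo_subset_Icc_self)

/-- radial weight against the square kernel -/
theorem int_kernel {ρ : ℝ} (hρ1 : ρ < 1) {g : ℝ → ℝ} (hg : ContinuousOn g (Icc 0 ρ)) (α : ℝ) :
    ∫ z in ball (0:ℂ) ρ, g ‖z‖ / ‖Complex.exp (α * I) - z‖ ^ 2 =
      ∫ s in Ioo 0 ρ, 2 * π * (s * (g s / (1 - s ^ 2))) := by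
  have hne : ∀ z ∈ closedBall (0:ℂ) ρ, ‖Complex.exp (α * I) - z‖ ^ 2 ≠ 0 := by
    intro z hz
    rw [mem_closedBall, dist_zero_right] at hz
    apply pow_ne_zero
    rw [norm_ne_zero_iff, sub_ne_zero]
    rintro rfl
    rw [Complex.norm_exp_ofReal_mul_I] at hz
    linarith
  rw [polar_ball (f := fun z => g ‖z‖ / ‖Complex.exp (α * I) - z‖ ^ 2)]
  · refine setIntegral_congr_fun measurableSet_Ioo fun s hs => ?_
    have hs1 : s < 1 := hs.2.trans hρ1
    have h1 : 0 < 1 - s ^ 2 := by nlinarith [hs.1]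
    have hn : ∀ θ : ℝ, ‖(s:ℂ) * Complex.exp (θ * I)‖ = s := by
      intro θ
      rw [norm_mul, Complex.norm_exp_ofReal_mul_I, mul_one, Complex.norm_real,
        Real.norm_of_nonneg hs.1.le]
    have hep : ∀ θ : ℝ, (s:ℂ) * Complex.exp (θ * I) = ep (Real.log s) θ := by
      intro θ
      rw [ep, Complex.exp_add, ← Complex.ofReal_exp, Real.exp_log hs.1]
    have h2 : ∀ θ : ℝ, s * (g ‖(s:ℂ) * Complex.exp (θ * I)‖ /
        ‖Complex.exp (α * I) - (s:ℂ) * Complex.exp (θ * I)‖ ^ 2)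
        = (s * (g s / (1 - s ^ 2))) * Pk (Complex.exp (α * I)) (ep (Real.log s) θ) := by
      intro θ
      rw [Pk, ← hep θ, hn θ]
      field_simp
    show ∫ θ in Ioo (-π) π, s * (g ‖(s:ℂ) * Complex.exp (θ * I)‖ /
        ‖Complex.exp (α * I) - (s:ℂ) * Complex.exp (θ * I)‖ ^ 2)
        = 2 * π * (s * (g s / (1 - s ^ 2)))
    simp only [h2]
    rw [integral_const_mul, ← integral_Ioc_eq_integral_Ioo,
      ← intervalIntegral.integral_of_le (by linarith [Real.pi_pos]),
      Pool.Agent.Helper73.EK.integral_Pk' (Real.log_neg hs.1 hs1)]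
    ring
  · apply ContinuousOn.div
    · apply hg.comp continuous_norm.continuousOn
      intro z hz
      rw [mem_closedBall, dist_zero_right] at hz
      exact ⟨norm_nonneg _, hz⟩
    · fun_prop
    · exact hne

/-- `∬ 1 / ‖ζ - z‖²` -/
theorem int_sq {b : ℝ} (hb : 0 < b) (hb1 : b ≤ 1 / 2) (α : ℝ) :
    ∫ z in ball (0:ℂ) (Real.exp (-b)), 1 / ‖Complex.exp (α * I) - z‖ ^ 2
      ≤ π * Real.log (1 / b) := by
  have hρ1 : Real.exp (-b) < 1 := by
    rw [Real.exp_lt_one_iff]
    linarith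
  have hρ0 : 0 < Real.exp (-b) := Real.exp_pos _
  have h1 := int_kernel hρ1 (g := fun _ => 1) continuousOn_const α
  rw [h1]
  have h2 : ∫ s in Ioo 0 (Real.exp (-b)), 2 * π * (s * (1 / (1 - s ^ 2)))
      = ∫ s in (0:ℝ)..Real.exp (-b), 2 * π * (s * (1 / (1 - s ^ 2))) := by
    rw [intervalIntegral.integral_of_le hρ0.le, integral_Ioc_eq_integral_Ioo]
  rw [h2]
  have hpos : ∀ s ∈ uIcc 0 (Real.exp (-b)), 0 < 1 - s ^ 2 := by
    intro s hs
    rw [uIcc_of_le hρ0.le] at hs
    nlinarith [hs.1, hs.2]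
  have h3 : ∀ s ∈ uIcc 0 (Real.exp (-b)),
      HasDerivAt (fun s : ℝ => -π * Real.log (1 - s ^ 2)) (2 * π * (s * (1 / (1 - s ^ 2)))) s := by
    intro s hs
    have h4 := hpos s hs
    have h5 : HasDerivAt (fun s : ℝ => 1 - s ^ 2) (-(2 * s)) s := by
      have := ((hasDerivAt_id s).pow 2).const_sub 1
      convert! this using 1
      simp
    have h6 := (h5.log h4.ne').const_mul (-π)
    convert! h6 using 1
    field_simp
  have hc : ContinuousOn (fun s : ℝ => 2 * π * (s * (1 / (1 - s ^ 2))))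
      (uIcc 0 (Real.exp (-b))) := by
    apply continuousOn_const.mul
    apply continuousOn_id.mul
    apply continuousOn_const.div (by fun_prop)
    intro s hs
    exact (hpos s hs).ne'
  rw [intervalIntegral.integral_eq_sub_of_hasDerivAt h3 hc.intervalIntegrable]
  have h7 : b ≤ 1 - Real.exp (-b) ^ 2 := by
    have h8 : Real.exp (-b) ^ 2 = Real.exp (-(2 * b)) := by
      rw [← Real.exp_nat_mul]
      congr 1
      push_cast
      ring
    rw [h8]
    have h9 : Real.exp (-(2 * b)) * (1 + 2 * b) ≤ 1 := by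
      have h10 : 1 + 2 * b ≤ Real.exp (2 * b) := by
        have := Real.add_one_le_exp (2 * b)
        linarith
      calc Real.exp (-(2 * b)) * (1 + 2 * b) ≤ Real.exp (-(2 * b)) * Real.exp (2 * b) := by gcongr
        _ = 1 := by rw [← Real.exp_add]; simp
    have h11 : 0 < Real.exp (-(2 * b)) := Real.exp_pos _
    nlinarith
  have h8 : Real.log (1 / b) = - Real.log b := by
    rw [one_div, Real.log_inv]
  have h9 : Real.log b ≤ Real.log (1 - Real.exp (-b) ^ 2) := Real.log_le_log hb h7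
  rw [h8]
  simp only [ne_eq, OfNat.ofNat_ne_zero, not_false_eq_true, zero_pow, sub_zero, Real.log_one,
    mul_zero]
  nlinarith [Real.pi_pos]

/-- `∬ 1 / ((1 - ‖z‖) ‖ζ - z‖²)` -/
theorem int_cube {b : ℝ} (hb : 0 < b) (hb1 : b ≤ 1 / 2) (α : ℝ) :
    ∫ z in ball (0:ℂ) (Real.exp (-b)), (1 / (1 - ‖z‖)) / ‖Complex.exp (α * I) - z‖ ^ 2
      ≤ 4 * π / b := by
  have hρ1 : Real.exp (-b) < 1 := by
    rw [Real.exp_lt_one_iff]
    linarith
  have hρ0 : 0 < Real.exp (-b) := Real.exp_pos _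
  have hpos' : ∀ s ∈ Icc 0 (Real.exp (-b)), 0 < 1 - s := by
    intro s hs
    linarith [hs.2]
  have hc1 : ContinuousOn (fun s : ℝ => 1 / (1 - s)) (Icc 0 (Real.exp (-b))) := by
    apply continuousOn_const.div (by fun_prop)
    intro s hs
    exact (hpos' s hs).ne'
  have h1 := int_kernel hρ1 (g := fun s => 1 / (1 - s)) hc1 α
  rw [h1]
  have h2 : ∫ s in Ioo 0 (Real.exp (-b)), 2 * π * (s * (1 / (1 - s) / (1 - s ^ 2)))
      = ∫ s in (0:ℝ)..Real.exp (-b), 2 * π * (s * (1 / (1 - s) / (1 - s ^ 2))) := by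
    rw [intervalIntegral.integral_of_le hρ0.le, integral_Ioc_eq_integral_Ioo]
  rw [h2]
  have hpos : ∀ s ∈ Icc 0 (Real.exp (-b)), 0 < 1 - s ^ 2 := by
    intro s hs
    nlinarith [hs.1, hs.2]
  have hc2 : ContinuousOn (fun s : ℝ => 2 * π * (s * (1 / (1 - s) / (1 - s ^ 2))))
      (uIcc 0 (Real.exp (-b))) := by
    rw [uIcc_of_le hρ0.le]
    apply continuousOn_const.mul
    apply continuousOn_id.mul
    apply hc1.div (by fun_prop)
    intro s hs
    exact (hpos s hs).ne'
  have hc3 : ContinuousOn (fun s : ℝ => 2 * π * (1 / (1 - s) ^ 2)) (uIcc 0 (Real.exp (-b))) := by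
    rw [uIcc_of_le hρ0.le]
    apply continuousOn_const.mul
    apply continuousOn_const.div (by fun_prop)
    intro s hs
    exact (pow_pos (hpos' s hs) 2).ne'
  have h3 : ∫ s in (0:ℝ)..Real.exp (-b), 2 * π * (s * (1 / (1 - s) / (1 - s ^ 2)))
      ≤ ∫ s in (0:ℝ)..Real.exp (-b), 2 * π * (1 / (1 - s) ^ 2) := by
    apply intervalIntegral.integral_mono_on hρ0.le hc2.intervalIntegrable hc3.intervalIntegrable
    intro s hs
    have h4 := hpos' s hs
    have h5 := hpos s hs
    have h6 : s * (1 / (1 - s) / (1 - s ^ 2)) ≤ 1 / (1 - s) ^ 2 := by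
      rw [div_div, mul_one_div, div_le_div_iff₀ (mul_pos h4 h5) (pow_pos h4 2)]
      have h7 : (1 - s) * (1 - s ^ 2) = (1 - s) ^ 2 * (1 + s) := by ring
      rw [h7]
      have h8 : 0 < (1 - s) ^ 2 := pow_pos h4 2
      nlinarith [hs.1]
    have := Real.pi_pos
    gcongr
  refine h3.trans ?_
  have h4 : ∀ s ∈ uIcc 0 (Real.exp (-b)),
      HasDerivAt (fun s : ℝ => 2 * π * (1 / (1 - s))) (2 * π * (1 / (1 - s) ^ 2)) s := by
    intro s hs
    rw [uIcc_of_le hρ0.le] at hs
    have h5 := hpos' s hs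
    have h6 : HasDerivAt (fun s : ℝ => 1 - s) (-1) s := (hasDerivAt_id s).const_sub 1
    have h7 := (h6.inv h5.ne').const_mul (2 * π)
    simp only [one_div]
    convert! h7 using 1
    field_simp
  rw [intervalIntegral.integral_eq_sub_of_hasDerivAt h4 hc3.intervalIntegrable]
  have h5 : b / 2 ≤ 1 - Real.exp (-b) := by
    have h9 : Real.exp (-b) * (1 + b) ≤ 1 := by
      have h10 : 1 + b ≤ Real.exp b := by
        have := Real.add_one_le_exp b
        linarith
      calc Real.exp (-b) * (1 + b) ≤ Real.exp (-b) * Real.exp b := by gcongr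
        _ = 1 := by rw [← Real.exp_add]; simp
    nlinarith
  have h6 : 1 / (1 - Real.exp (-b)) ≤ 2 / b := by
    rw [div_le_div_iff₀ (by linarith) hb]
    linarith
  have h7 : 2 * π * (1 / (1 - Real.exp (-b))) ≤ 2 * π * (2 / b) := by
    have := Real.pi_pos
    gcongr
  have h8 : 2 * π * (2 / b) = 4 * π / b := by ring
  have h9 : 0 ≤ 2 * π * (1 / (1 - (0:ℝ))) := by
    have := Real.pi_pos
    simp only [sub_zero, div_one, mul_one]
    positivity
  linarith

/-- `∬ 1 / ‖ζ - z‖` -/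
theorem int_one (ζ : ℂ) (hζ : ‖ζ‖ = 1) {ρ : ℝ} (hρ1 : ρ ≤ 1) :
    IntegrableOn (fun z : ℂ => 1 / ‖ζ - z‖) (ball 0 ρ) ∧
    ∫ z in ball (0:ℂ) ρ, 1 / ‖ζ - z‖ ≤ 4 * π := by
  -- radial function
  set f : ℝ → ℝ := fun y => (Iio (2:ℝ)).indicator (fun y => 1 / y) y with hf
  have hI : IntegrableOn (fun y : ℝ => y ^ (Module.finrank ℝ ℂ - 1) • f y) (Ioi 0) := by
    have h1 : ∀ y ∈ Ioi (0:ℝ), y ^ (Module.finrank ℝ ℂ - 1) • f y
        = (Ioo (0:ℝ) 2).indicator (fun _ => (1:ℝ)) y := by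
      intro y hy
      rw [mem_Ioi] at hy
      rw [Complex.finrank_real_complex, hf]
      simp only
      by_cases hy2 : y < 2
      · rw [indicator_of_mem (show y ∈ Iio (2:ℝ) from hy2),
          indicator_of_mem (show y ∈ Ioo (0:ℝ) 2 from ⟨hy, hy2⟩), smul_eq_mul]
        simp [hy.ne']
      · rw [indicator_of_notMem (show y ∉ Iio (2:ℝ) from hy2),
          indicator_of_notMem (show y ∉ Ioo (0:ℝ) 2 from fun h => hy2 h.2), smul_zero]
    rw [integrableOn_congr_fun h1 measurableSet_Ioi]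
    apply Integrable.integrableOn
    rw [integrable_indicator_iff measurableSet_Ioo]
    exact integrableOn_const (by simp)
  have hI2 : Integrable (fun z : ℂ => f ‖z‖) := (integrable_fun_norm_addHaar volume).mpr hI
  have hval : ∫ z : ℂ, f ‖z‖ = 4 * π := by
    rw [integral_fun_norm_addHaar volume f]
    have h1 : ∀ y ∈ Ioi (0:ℝ), y ^ (Module.finrank ℝ ℂ - 1) • f y
        = (Ioo (0:ℝ) 2).indicator (fun _ => (1:ℝ)) y := by
      intro y hy
      rw [mem_Ioi] at hy
      rw [Complex.finrank_real_complex, hf]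
      simp only
      by_cases hy2 : y < 2
      · rw [indicator_of_mem (show y ∈ Iio (2:ℝ) from hy2),
          indicator_of_mem (show y ∈ Ioo (0:ℝ) 2 from ⟨hy, hy2⟩), smul_eq_mul]
        simp [hy.ne']
      · rw [indicator_of_notMem (show y ∉ Iio (2:ℝ) from hy2),
          indicator_of_notMem (show y ∉ Ioo (0:ℝ) 2 from fun h => hy2 h.2), smul_zero]
    rw [setIntegral_congr_fun measurableSet_Ioi h1, setIntegral_indicator measurableSet_Ioo]
    have h2 : Ioi (0:ℝ) ∩ Ioo 0 2 = Ioo 0 2 := inter_eq_right.2 fun y hy => hy.1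
    rw [h2, Complex.finrank_real_complex]
    have h3 : (volume : Measure ℂ).real (ball (0:ℂ) 1) = π := by
      rw [Measure.real, Complex.volume_ball]
      simp
    rw [h3]
    simp only [integral_const, MeasurableSet.univ, measureReal_restrict_apply, univ_inter,
      Real.volume_real_Ioo, smul_eq_mul, nsmul_eq_mul]
    norm_num
    ring
  have hI3 : Integrable (fun z : ℂ => f ‖ζ - z‖) := hI2.comp_sub_left ζ
  have hval3 : ∫ z : ℂ, f ‖ζ - z‖ = 4 * π := by
    rw [← hval]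
    exact integral_sub_left_eq_self (fun z => f ‖z‖) volume ζ
  have hle : ∀ z ∈ ball (0:ℂ) ρ, f ‖ζ - z‖ = 1 / ‖ζ - z‖ := by
    intro z hz
    rw [mem_ball, dist_zero_right] at hz
    have h1 : ‖ζ - z‖ < 2 := by
      have := norm_sub_le ζ z
      linarith
    rw [hf]
    simp only
    rw [indicator_of_mem (show ‖ζ - z‖ ∈ Iio (2:ℝ) from h1)]
  have hnn : ∀ z : ℂ, 0 ≤ f ‖ζ - z‖ := by
    intro z
    rw [hf]
    simp only
    by_cases h : ‖ζ - z‖ < 2
    · rw [indicator_of_mem (show ‖ζ - z‖ ∈ Iio (2:ℝ) from h)]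
      positivity
    · rw [indicator_of_notMem (show ‖ζ - z‖ ∉ Iio (2:ℝ) from h)]
  refine ⟨(integrableOn_congr_fun hle measurableSet_ball).mp hI3.integrableOn, ?_⟩
  rw [← setIntegral_congr_fun measurableSet_ball hle, ← hval3]
  exact setIntegral_le_integral hI3 (Eventually.of_forall hnn)

end Pool.Agent.Helper14.CK
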