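import Pool.Agent.Helper14.CK.MPt
import Pool.Agent.Helper14.CK.MInt
import Pool.Agent.Helper14.CK.JBasic

/-!
The set of observers; continuity of the kernels in (observer, target); integrals over the observers.
-/

set_option autoImplicit false

open Complex MeasureTheory Metric Set Filter Topology
open scoped Real ComplexConjugate

namespace Pool.Agent.Helper14.CK

open Pool.Agent.Helper39.Area Pool.Agent.Helper52.EK Pool.Agent.Helper52.CK

/-- the observers -/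
def Ob (b : ℝ) : Set ℂ :=
  {z | Real.exp (-1) ≤ ‖z‖ ∧ ‖z‖ ≤ Real.exp (-2 * b) ∧ ‖z - 1‖ ≤ 1 / 2}

theorem isClosed_ob (b : ℝ) : IsClosed (Ob b) := by
  apply IsClosed.inter
  · exact isClosed_le continuous_const continuous_norm
  · apply IsClosed.inter
    · exact isClosed_le continuous_norm continuous_const
    · exact isClosed_le ((continuous_id.sub continuous_const).norm) continuous_const

theorem isCompact_ob (b : ℝ) : IsCompact (Ob b) := by
  apply Metric.isCompact_of_isClosed_isBounded (isClosed_ob b)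
  apply (isBounded_closedBall (x := (0:ℂ)) (r := Real.exp (-2 * b))).subset
  intro z hz
  rw [mem_closedBall, dist_zero_right]
  exact hz.2.1

theorem ob_pos {b : ℝ} {z : ℂ} (hz : z ∈ Ob b) : 0 < ‖z‖ := (Real.exp_pos _).trans_le hz.1

theorem ob_lt {b : ℝ} (hb : 0 < b) {z : ℂ} (hz : z ∈ Ob b) : ‖z‖ < 1 := by
  refine hz.2.1.trans_lt ?_
  rw [Real.exp_lt_one_iff]
  linarith

theorem ob_sub {b : ℝ} (hb : 0 < b) : Ob b ⊆ ball (0:ℂ) (Real.exp (-b)) := by
  intro z hz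
  rw [mem_ball, dist_zero_right]
  refine hz.2.1.trans_lt ?_
  rw [Real.exp_lt_exp]
  linarith

theorem ob_pr {b x θ : ℝ} {z : ℂ} (hz : z ∈ Ob b) (hx : 0 < x) (hxb : x ≤ b) (hb : b ≤ 1 / 4) :
    Pr x θ z := by
  refine ⟨hx, hxb.trans hb, hz.2.1.trans ?_⟩
  rw [Real.exp_le_exp]
  linarith

/-- integral of the error terms over the observers -/
theorem ob_int {b x : ℝ} (θ : ℝ) (hx : 0 < x) (hxb : x ≤ b) (hb1 : b ≤ 1 / 4)
    {A0 A1 A2 A3 : ℝ} (h0 : 0 ≤ A0) (h1 : 0 ≤ A1) (h2 : 0 ≤ A2) (h3 : 0 ≤ A3) :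
    IntegrableOn (fun z : ℂ => A0 + A1 * Er x θ z + A2 * (1 / ‖Complex.exp (θ * I) - z‖) +
      A3 * (1 / ‖Complex.exp (θ * I) - z‖ ^ 2)) (Ob b) ∧
    ∫ z in Ob b, (A0 + A1 * Er x θ z + A2 * (1 / ‖Complex.exp (θ * I) - z‖) +
      A3 * (1 / ‖Complex.exp (θ * I) - z‖ ^ 2)) ≤
      A0 * π + A1 * (4 * π) + A2 * (4 * π) + A3 * (π * Real.log (1 / b)) := by
  have hb : 0 < b := hx.trans_le hxb
  set B : Set ℂ := ball (0:ℂ) (Real.exp (-b)) with hB
  have hr1 : Real.exp (-b) < 1 := by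
    rw [Real.exp_lt_one_iff]
    linarith
  have hBc : ∀ z ∈ closedBall (0:ℂ) (Real.exp (-b)), ‖z‖ < 1 := by
    intro z hz
    rw [mem_closedBall, dist_zero_right] at hz
    linarith
  have hne : ∀ z ∈ closedBall (0:ℂ) (Real.exp (-b)), ‖Complex.exp (θ * I) - z‖ ≠ 0 := by
    intro z hz
    rw [norm_ne_zero_iff, sub_ne_zero]
    rintro rfl
    have := hBc _ hz
    rw [Complex.norm_exp_ofReal_mul_I] at this
    exact lt_irrefl _ this
  have hcE : ContinuousOn (fun z => Er x θ z) (closedBall (0:ℂ) (Real.exp (-b))) := by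
    unfold Er
    apply continuousOn_const.mul
    apply ContinuousOn.div
    · apply continuousOn_const.div (by fun_prop)
      intro z hz
      have := hBc z hz
      linarith
    · fun_prop
    · intro z hz
      exact pow_ne_zero 2 (hne z hz)
  have hc1 : ContinuousOn (fun z : ℂ => 1 / ‖Complex.exp (θ * I) - z‖)
      (closedBall (0:ℂ) (Real.exp (-b))) := by
    apply continuousOn_const.div (by fun_prop) hne
  have hc2 : ContinuousOn (fun z : ℂ => 1 / ‖Complex.exp (θ * I) - z‖ ^ 2)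
      (closedBall (0:ℂ) (Real.exp (-b))) := by
    apply continuousOn_const.div (by fun_prop)
    intro z hz
    exact pow_ne_zero 2 (hne z hz)
  have hcc : IsCompact (closedBall (0:ℂ) (Real.exp (-b))) := isCompact_closedBall _ _
  have hsub : B ⊆ closedBall (0:ℂ) (Real.exp (-b)) := ball_subset_closedBall
  have hi0 : IntegrableOn (fun _ : ℂ => A0) B :=
    (continuousOn_const.integrableOn_compact hcc).mono_set hsub
  have hiE : IntegrableOn (fun z => A1 * Er x θ z) B :=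
    ((continuousOn_const.mul hcE).integrableOn_compact hcc).mono_set hsub
  have hi1 : IntegrableOn (fun z : ℂ => A2 * (1 / ‖Complex.exp (θ * I) - z‖)) B :=
    ((continuousOn_const.mul hc1).integrableOn_compact hcc).mono_set hsub
  have hi2 : IntegrableOn (fun z : ℂ => A3 * (1 / ‖Complex.exp (θ * I) - z‖ ^ 2)) B :=
    ((continuousOn_const.mul hc2).integrableOn_compact hcc).mono_set hsub
  have hi : IntegrableOn (fun z : ℂ => A0 + A1 * Er x θ z +
      A2 * (1 / ‖Complex.exp (θ * I) - z‖) + A3 * (1 / ‖Complex.exp (θ * I) - z‖ ^ 2)) B :=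
    ((hi0.add hiE).add hi1).add hi2
  refine ⟨hi.mono_set (ob_sub hb), ?_⟩
  have hEnn : ∀ z ∈ B, 0 ≤ Er x θ z := by
    intro z hz
    have h4 := hBc z (hsub hz)
    have h5 : 0 ≤ 1 / (1 - ‖z‖) := div_nonneg one_pos.le (by linarith)
    unfold Er
    positivity
  have hmono : ∫ z in Ob b, (A0 + A1 * Er x θ z + A2 * (1 / ‖Complex.exp (θ * I) - z‖) +
      A3 * (1 / ‖Complex.exp (θ * I) - z‖ ^ 2)) ≤
      ∫ z in B, (A0 + A1 * Er x θ z + A2 * (1 / ‖Complex.exp (θ * I) - z‖) +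
      A3 * (1 / ‖Complex.exp (θ * I) - z‖ ^ 2)) := by
    apply setIntegral_mono_set hi
    · filter_upwards [ae_restrict_mem measurableSet_ball] with z hz
      have h4 := hEnn z hz
      simp only [Pi.zero_apply]
      positivity
    · exact (ob_sub hb).eventuallyLE
  refine hmono.trans ?_
  have e1 : ∫ z in B, (A0 + A1 * Er x θ z + A2 * (1 / ‖Complex.exp (θ * I) - z‖) +
      A3 * (1 / ‖Complex.exp (θ * I) - z‖ ^ 2)) =
      (((∫ _ in B, A0) + ∫ z in B, A1 * Er x θ z) +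
        ∫ z in B, A2 * (1 / ‖Complex.exp (θ * I) - z‖)) +
        ∫ z in B, A3 * (1 / ‖Complex.exp (θ * I) - z‖ ^ 2) := by
    have j1 := integral_add hi0 hiE
    have j2 := integral_add (hi0.add hiE) hi1
    have j3 := integral_add ((hi0.add hiE).add hi1) hi2
    simp only [Pi.add_apply] at j1 j2 j3
    rw [j3, j2, j1]
  rw [e1, integral_const_mul, integral_const_mul, integral_const_mul]
  have i0 : ∫ _ in B, A0 ≤ A0 * π := by
    rw [setIntegral_const, smul_eq_mul, mul_comm]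
    have h4 : (volume : Measure ℂ).real B ≤ π := by
      rw [Measure.real, hB, Complex.volume_ball]
      rw [ENNReal.toReal_mul, ENNReal.toReal_pow, ENNReal.toReal_ofReal (Real.exp_pos _).le]
      have h5 : ((NNReal.pi : NNReal) : ENNReal).toReal = π := rfl
      rw [h5]
      have h6 : Real.exp (-b) ^ 2 ≤ 1 := by
        have := Real.exp_pos (-b)
        nlinarith
      have := Real.pi_pos
      nlinarith
    exact mul_le_mul_of_nonneg_left h4 h0
  have iE : ∫ z in B, Er x θ z ≤ 4 * π := by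
    unfold Er
    rw [integral_const_mul]
    have h4 := int_cube hb (by linarith) θ
    have h5 : x * (4 * π / b) ≤ 4 * π := by
      rw [mul_div_assoc', div_le_iff₀ hb]
      have := Real.pi_pos
      nlinarith
    exact (mul_le_mul_of_nonneg_left h4 hx.le).trans h5
  have i1 : ∫ z in B, 1 / ‖Complex.exp (θ * I) - z‖ ≤ 4 * π :=
    (int_one (Complex.exp (θ * I)) (Complex.norm_exp_ofReal_mul_I θ) hr1.le).2
  have i2 : ∫ z in B, 1 / ‖Complex.exp (θ * I) - z‖ ^ 2 ≤ π * Real.log (1 / b) :=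
    int_sq hb (by linarith) θ
  have j1 := mul_le_mul_of_nonneg_left iE h1
  have j2 := mul_le_mul_of_nonneg_left i1 h2
  have j3 := mul_le_mul_of_nonneg_left i2 h3
  linarith

/-! ### continuity of the kernels -/

/-- pairs (observer, target) -/
def Sp (a b : ℝ) : Set (ℂ × (ℝ × ℝ)) := Ob b ×ˢ (Icc a b ×ˢ univ)

section

variable {a b : ℝ} {β : ℂ → ℂ}

theorem cont_ep : Continuous fun p : ℝ × ℝ => ep (-p.1) p.2 := by
  unfold ep
  fun_prop

theorem sp_z {s : ℂ × (ℝ × ℝ)} (ha : 0 < a) (hs : s ∈ Sp a b) :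
    0 < ‖ep (-s.2.1) s.2.2‖ ∧ ‖ep (-s.2.1) s.2.2‖ < 1 ∧ Real.exp (-b) ≤ ‖ep (-s.2.1) s.2.2‖ := by
  rw [norm_ep]
  refine ⟨Real.exp_pos _, ?_, ?_⟩
  · rw [Real.exp_lt_one_iff]
    have := hs.2.1.1
    linarith
  · rw [Real.exp_le_exp]
    have := hs.2.1.2
    linarith

theorem sp_ne {s : ℂ × (ℝ × ℝ)} (ha : 0 < a) (hb : 0 < b) (hs : s ∈ Sp a b) :
    ep (-s.2.1) s.2.2 - s.1 ≠ 0 := by
  intro h
  have h1 : ep (-s.2.1) s.2.2 = s.1 := sub_eq_zero.mp h
  have h2 := (sp_z ha hs).2.2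
  rw [h1] at h2
  have h3 := hs.1.2.1
  have h4 : Real.exp (-2 * b) < Real.exp (-b) := by
    rw [Real.exp_lt_exp]
    linarith
  linarith

theorem sp_ne2 {s : ℂ × (ℝ × ℝ)} (ha : 0 < a) (hb : 0 < b) (hs : s ∈ Sp a b) :
    1 - s.1 * conj (ep (-s.2.1) s.2.2) ≠ 0 := by
  intro h
  have h1 : s.1 * conj (ep (-s.2.1) s.2.2) = 1 := (sub_eq_zero.mp h).symm
  have h2 : ‖s.1 * conj (ep (-s.2.1) s.2.2)‖ = 1 := by rw [h1, norm_one]
  rw [norm_mul, RCLike.norm_conj] at h2
  have h3 := (sp_z ha hs).2.1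
  have h4 := ob_lt hb hs.1
  nlinarith [norm_nonneg s.1, norm_nonneg (ep (-s.2.1) s.2.2)]

theorem sp_ne3 {s : ℂ × (ℝ × ℝ)} (hb : 0 < b) (hs : s ∈ Sp a b) :
    Complex.exp (s.2.2 * I) ^ 2 - s.1 ^ 2 ≠ 0 := by
  intro h
  have h1 : Complex.exp (s.2.2 * I) ^ 2 = s.1 ^ 2 := sub_eq_zero.mp h
  have h2 := congrArg norm h1
  rw [norm_pow, norm_pow, Complex.norm_exp_ofReal_mul_I] at h2
  have h3 := ob_lt hb hs.1
  have h4 := norm_nonneg s.1
  nlinarith

theorem cont_z : Continuous fun s : ℂ × (ℝ × ℝ) => ep (-s.2.1) s.2.2 :=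
  cont_ep.comp continuous_snd

theorem cont_k1 (ha : 0 < a) (hb : 0 < b) :
    ContinuousOn (fun s : ℂ × (ℝ × ℝ) => k1 (ep (-s.2.1) s.2.2) s.1) (Sp a b) := by
  have hz := cont_z
  have hzc : Continuous fun s : ℂ × (ℝ × ℝ) => conj (ep (-s.2.1) s.2.2) :=
    Complex.continuous_conj.comp hz
  unfold k1
  apply ContinuousOn.add
  · apply ContinuousOn.div
    · fun_prop
    · fun_prop
    · intro s hs
      exact pow_ne_zero 2 (sp_ne ha hb hs)
  · apply ContinuousOn.div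
    · fun_prop
    · fun_prop
    · intro s hs
      exact pow_ne_zero 2 (sp_ne2 ha hb hs)

theorem cont_k3 (ha : 0 < a) (hb : 0 < b) :
    ContinuousOn (fun s : ℂ × (ℝ × ℝ) => k3 (ep (-s.2.1) s.2.2) s.1) (Sp a b) := by
  have hz := cont_z
  have hzc : Continuous fun s : ℂ × (ℝ × ℝ) => conj (ep (-s.2.1) s.2.2) :=
    Complex.continuous_conj.comp hz
  have hzn : Continuous fun s : ℂ × (ℝ × ℝ) => ((‖ep (-s.2.1) s.2.2‖ : ℝ) : ℂ) :=
    Complex.continuous_ofReal.comp hz.norm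
  unfold k3
  apply ContinuousOn.div
  · fun_prop
  · fun_prop
  · intro s hs
    exact mul_ne_zero (sp_ne ha hb hs) (sp_ne2 ha hb hs)

theorem cont_k5 (ha : 0 < a) (hb : 0 < b) :
    ContinuousOn (fun s : ℂ × (ℝ × ℝ) => k5 (ep (-s.2.1) s.2.2) s.1) (Sp a b) := by
  have hz := cont_z
  have hzc : Continuous fun s : ℂ × (ℝ × ℝ) => conj (ep (-s.2.1) s.2.2) :=
    Complex.continuous_conj.comp hz
  unfold k5
  apply continuousOn_const.mul
  apply ContinuousOn.add
  · apply ContinuousOn.div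
    · fun_prop
    · fun_prop
    · intro s hs
      exact sp_ne ha hb hs
  · apply ContinuousOn.div
    · fun_prop
    · fun_prop
    · intro s hs
      exact sp_ne2 ha hb hs

theorem cont_omp (hb : 0 < b) :
    ContinuousOn (fun s : ℂ × (ℝ × ℝ) => omp s.2.2 s.1) (Sp a b) := by
  unfold omp
  apply ContinuousOn.div
  · fun_prop
  · fun_prop
  · intro s hs
    exact sp_ne3 hb hs

/-- the punctured disc -/
def Pd : Set ℂ := {z | 0 < ‖z‖ ∧ ‖z‖ < 1}

theorem pd_ball {z : ℂ} (hz : z ∈ Pd) : z ∈ ball (0:ℂ) 1 := by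
  rw [mem_ball, dist_zero_right]
  exact hz.2

theorem pd_ne {z : ℂ} (hz : z ∈ Pd) : z ≠ 0 := norm_pos_iff.mp hz.1

theorem cont_phi (h : Ext β) : ContinuousOn (phi β) Pd := by
  unfold phi
  apply ContinuousOn.add
  · exact continuousOn_id.inv₀ fun z hz => pd_ne hz
  · exact h.diff.continuousOn.mono fun z hz => pd_ball hz

theorem cont_dphi (h : Ext β) : ContinuousOn (dphi β) Pd := by
  unfold dphi
  apply ContinuousOn.add
  · apply ContinuousOn.neg
    apply ContinuousOn.inv₀ (by fun_prop)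
    intro z hz
    exact pow_ne_zero 2 (pd_ne hz)
  · exact (h.diff.deriv isOpen_ball).continuousOn.mono fun z hz => pd_ball hz

theorem sp_pd1 (hb : 0 < b) {s : ℂ × (ℝ × ℝ)} (hs : s ∈ Sp a b) : s.1 ∈ Pd :=
  ⟨ob_pos hs.1, ob_lt hb hs.1⟩

theorem sp_pd2 (ha : 0 < a) {s : ℂ × (ℝ × ℝ)} (hs : s ∈ Sp a b) :
    ep (-s.2.1) s.2.2 ∈ Pd := ⟨(sp_z ha hs).1, (sp_z ha hs).2.1⟩

theorem cont_kA (h : Ext β) (ha : 0 < a) (hb : 0 < b) :
    ContinuousOn (fun s : ℂ × (ℝ × ℝ) => kA β (ep (-s.2.1) s.2.2) s.1) (Sp a b) := by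
  have h1 : ContinuousOn (fun s : ℂ × (ℝ × ℝ) => dphi β s.1) (Sp a b) :=
    (cont_dphi h).comp continuous_fst.continuousOn fun s hs => sp_pd1 hb hs
  have h2 : ContinuousOn (fun s : ℂ × (ℝ × ℝ) => phi β s.1) (Sp a b) :=
    (cont_phi h).comp continuous_fst.continuousOn fun s hs => sp_pd1 hb hs
  have h3 : ContinuousOn (fun s : ℂ × (ℝ × ℝ) => phi β (ep (-s.2.1) s.2.2)) (Sp a b) :=
    (cont_phi h).comp cont_z.continuousOn fun s hs => sp_pd2 ha hs
  unfold kA
  apply ContinuousOn.pow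
  apply h1.div (continuousOn_const.mul (h2.sub h3))
  intro s hs
  apply mul_ne_zero two_ne_zero
  show phi β s.1 - phi β (ep (-s.2.1) s.2.2) ≠ 0
  rw [sub_ne_zero]
  intro h4
  have h5 := h.inj s.1 (ep (-s.2.1) s.2.2) (pd_ball (sp_pd1 hb hs)) (pd_ball (sp_pd2 ha hs))
    (pd_ne (sp_pd1 hb hs)) (pd_ne (sp_pd2 ha hs)) h4
  exact sp_ne ha hb hs (sub_eq_zero.mpr h5.symm)

/-- continuity of the density -/
theorem cont_FF (h : Ext β) (κ : ℝ) :
    ContinuousOn (fun p : ℝ × ℝ => FF κ β p.1 p.2) {p | 0 < p.1} := by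
  have h1 : ContinuousOn (N β) (ball 0 1) := by
    have h2 : ContinuousOn (deriv β) (ball 0 1) := (h.diff.deriv isOpen_ball).continuousOn
    unfold N
    fun_prop
  have hm : ∀ p : ℝ × ℝ, 0 < p.1 → ep (-p.1) p.2 ∈ ball (0:ℂ) 1 := by
    intro p hp
    rw [mem_ball, dist_zero_right, norm_ep, Real.exp_lt_one_iff]
    linarith
  have h3 : ContinuousOn (fun p : ℝ × ℝ => N β (ep (-p.1) p.2)) {p | 0 < p.1} :=
    h1.comp cont_ep.continuousOn fun p hp => hm p hp
  unfold FF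
  intro p hp
  exact (h3 p hp).norm.rpow_const (Or.inl (norm_ne_zero_iff.2 (h.ne _ (hm p hp))))

theorem FF_nn (κ : ℝ) (β : ℂ → ℂ) (x θ : ℝ) : 0 ≤ FF κ β x θ :=
  Real.rpow_nonneg (norm_nonneg _) _

end

end Pool.Agent.Helper14.CK
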