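import Pool.Agent.Helper14.CK.MintC
import Pool.Agent.Helper52.CKC.AsmBC
set_option autoImplicit false
open Complex MeasureTheory Metric Set
open scoped Real ComplexConjugate ContDiff

/-! Project CKC: continuity of the term of the multiplier, in the form the assembly takes. -/

namespace Pool.Agent.Helper14.CK

/-- the term of the multiplier is continuous on the closed rectangles of the target -/
theorem mcont_c (κ dl : ℝ) (u : ℂ) : Pool.Agent.Helper52.CKC.MContC κ dl u := by
  intro a b ha hab _ β R hR W0 Mh Mb hW hM hMb
  exact MC_cont hW hM hMb hR ha hab.le

end Pool.Agent.Helper14.CK
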