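import Mathlib

/-!
Comparison of the kernels of the first variation in the rotated coordinate `w = z₀ / ζ`, the target
being `q ζ`.
-/

set_option autoImplicit false

open Complex MeasureTheory Metric Set Filter Topology
open scoped Real ComplexConjugate

namespace Pool.Agent.Helper14.CK

section kernels

variable {q : ℝ} {w : ℂ}

theorem ker_d1 (hw1 : ‖w‖ < 1) : 0 < ‖1 - w‖ := by
  rw [norm_pos_iff]
  intro h
  have h1 : w = 1 := by linear_combination -h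
  rw [h1, norm_one] at hw1
  exact lt_irrefl _ hw1

/-- `1 - q ≤ ‖1 - w‖` -/
theorem ker_q_le (hq : 1 / 2 ≤ q) (hq1 : q < 1) (hw : ‖w‖ ≤ q ^ 2) : 1 - q ≤ ‖1 - w‖ := by
  have h1 : 1 - ‖w‖ ≤ ‖1 - w‖ := by
    have := norm_sub_norm_le (1 : ℂ) w
    rwa [norm_one] at this
  nlinarith

theorem ker_qw (hq : 1 / 2 ≤ q) (hq1 : q < 1) (hw : ‖w‖ ≤ q ^ 2) :
    ‖1 - w‖ ≤ 3 * ‖(q : ℂ) - w‖ := by
  have h1 : q - ‖w‖ ≤ ‖(q : ℂ) - w‖ := by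
    have := norm_sub_norm_le (q : ℂ) w
    rwa [Complex.norm_real, Real.norm_of_nonneg (by linarith)] at this
  have h2 : ‖1 - w‖ ≤ ‖(1 : ℂ) - q‖ + ‖(q : ℂ) - w‖ := by
    have := norm_add_le ((1 : ℂ) - q) ((q : ℂ) - w)
    rwa [sub_add_sub_cancel] at this
  have h3 : ‖(1 : ℂ) - q‖ = 1 - q := by
    have : (1 : ℂ) - q = ((1 - q : ℝ) : ℂ) := by push_cast; ring
    rw [this, Complex.norm_real, Real.norm_of_nonneg (by linarith)]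
  have h4 : q * (1 - q) ≤ ‖(q : ℂ) - w‖ := by nlinarith
  have h5 : 1 - q ≤ 2 * (q * (1 - q)) := by nlinarith
  rw [h3] at h2
  linarith

theorem ker_1qw (hq : 1 / 2 ≤ q) (hq1 : q < 1) (hw : ‖w‖ ≤ q ^ 2) :
    ‖1 - w‖ ≤ 2 * ‖1 - (q : ℂ) * w‖ := by
  have hw1 : ‖w‖ ≤ 1 := by nlinarith
  have h1 : 1 - q * ‖w‖ ≤ ‖1 - (q : ℂ) * w‖ := by
    have := norm_sub_norm_le (1 : ℂ) ((q : ℂ) * w)
    rwa [norm_one, norm_mul, Complex.norm_real, Real.norm_of_nonneg (by linarith)] at this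
  have h2 : ‖1 - w‖ ≤ ‖1 - (q : ℂ) * w‖ + ‖((q : ℂ) - 1) * w‖ := by
    have := norm_add_le (1 - (q : ℂ) * w) (((q : ℂ) - 1) * w)
    have e : 1 - (q : ℂ) * w + ((q : ℂ) - 1) * w = 1 - w := by ring
    rwa [e] at this
  have h3 : ‖((q : ℂ) - 1) * w‖ ≤ 1 - q := by
    have : (q : ℂ) - 1 = ((q - 1 : ℝ) : ℂ) := by push_cast; ring
    rw [norm_mul, this, Complex.norm_real, Real.norm_of_nonpos (by linarith)]
    nlinarith [norm_nonneg w]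
  have h4 : 1 - q ≤ 1 - q * ‖w‖ := by nlinarith [norm_nonneg w]
  linarith

theorem ker_ne1 (hq : 1 / 2 ≤ q) (hq1 : q < 1) (hw : ‖w‖ ≤ q ^ 2) : (q : ℂ) - w ≠ 0 := by
  have hw1 : ‖w‖ < 1 := by nlinarith
  have h1 := ker_qw hq hq1 hw
  have h2 := ker_d1 hw1
  rw [← norm_pos_iff]
  linarith

theorem ker_ne2 (hq : 1 / 2 ≤ q) (hq1 : q < 1) (hw : ‖w‖ ≤ q ^ 2) :
    1 - (q : ℂ) * w ≠ 0 := by
  have hw1 : ‖w‖ < 1 := by nlinarith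
  have h1 := ker_1qw hq hq1 hw
  have h2 := ker_d1 hw1
  rw [← norm_pos_iff]
  linarith

/-- `k1` -/
theorem ker_k1 (hq : 1 / 2 ≤ q) (hq1 : q < 1) (hw : ‖w‖ ≤ q ^ 2) :
    ‖(q : ℂ) * w / ((q : ℂ) - w) ^ 2 - w / (1 - w) ^ 2‖ ≤ 27 * (1 - q) / ‖1 - w‖ ^ 3 := by
  have hw1 : ‖w‖ < 1 := by nlinarith
  have hd := ker_d1 hw1
  have hn1 := ker_ne1 hq hq1 hw
  have hn3 : 1 - w ≠ 0 := norm_pos_iff.mp hd
  have e : (q : ℂ) * w / ((q : ℂ) - w) ^ 2 - w / (1 - w) ^ 2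
      = w * (1 - q) * (q - w ^ 2) / (((q : ℂ) - w) ^ 2 * (1 - w) ^ 2) := by
    field_simp
    ring
  have h1 : ‖(q : ℂ) - w ^ 2‖ ≤ 3 * ‖1 - w‖ := by
    have h2 : (q : ℂ) - w ^ 2 = (1 - w) * (1 + w) + (((q - 1 : ℝ)) : ℂ) := by
      push_cast
      ring
    have h3 : ‖(1 - w) * (1 + w)‖ ≤ 2 * ‖1 - w‖ := by
      rw [norm_mul]
      have : ‖1 + w‖ ≤ 2 := by
        have := norm_add_le (1 : ℂ) w
        rw [norm_one] at this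
        linarith
      nlinarith [norm_nonneg (1 - w)]
    have h4 : ‖(((q - 1 : ℝ)) : ℂ)‖ ≤ ‖1 - w‖ := by
      rw [Complex.norm_real, Real.norm_of_nonpos (by linarith)]
      have := ker_q_le hq hq1 hw
      linarith
    rw [h2]
    exact (norm_add_le _ _).trans (by linarith)
  have hqn : ‖(1 : ℂ) - q‖ = 1 - q := by
    have : (1 : ℂ) - q = ((1 - q : ℝ) : ℂ) := by push_cast; ring
    rw [this, Complex.norm_real, Real.norm_of_nonneg (by linarith)]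
  rw [e, norm_div, norm_mul, norm_mul, norm_mul, norm_pow, norm_pow, hqn]
  have h5 : ‖1 - w‖ / 3 ≤ ‖(q : ℂ) - w‖ := by linarith [ker_qw hq hq1 hw]
  rw [div_le_div_iff₀ (by positivity) (by positivity)]
  have h6 : (‖1 - w‖ / 3) ^ 2 ≤ ‖(q : ℂ) - w‖ ^ 2 := by gcongr
  have h7 : ‖w‖ * (1 - q) * ‖(q : ℂ) - w ^ 2‖ ≤ 1 * (1 - q) * (3 * ‖1 - w‖) := by
    gcongr
  calc ‖w‖ * (1 - q) * ‖(q : ℂ) - w ^ 2‖ * ‖1 - w‖ ^ 3
      ≤ 1 * (1 - q) * (3 * ‖1 - w‖) * ‖1 - w‖ ^ 3 := by gcongr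
    _ = 27 * (1 - q) * ((‖1 - w‖ / 3) ^ 2 * ‖1 - w‖ ^ 2) := by ring
    _ ≤ 27 * (1 - q) * (‖(q : ℂ) - w‖ ^ 2 * ‖1 - w‖ ^ 2) := by
      have : 0 ≤ 1 - q := by linarith
      gcongr

/-- `k2` -/
theorem ker_k2 (hq : 1 / 2 ≤ q) (hq1 : q < 1) (hw : ‖w‖ ≤ q ^ 2) :
    ‖(q : ℂ) * w / (1 - (q : ℂ) * w) ^ 2 - w / (1 - w) ^ 2‖ ≤ 12 * (1 - q) / ‖1 - w‖ ^ 3 := by
  have hw1 : ‖w‖ < 1 := by nlinarith
  have hd := ker_d1 hw1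
  have hn1 := ker_ne2 hq hq1 hw
  have hn3 : 1 - w ≠ 0 := norm_pos_iff.mp hd
  have e : (q : ℂ) * w / (1 - (q : ℂ) * w) ^ 2 - w / (1 - w) ^ 2
      = -(w * (1 - q) * (1 - q * w ^ 2)) / ((1 - (q : ℂ) * w) ^ 2 * (1 - w) ^ 2) := by
    rw [div_sub_div _ _ (pow_ne_zero 2 hn1) (pow_ne_zero 2 hn3)]
    congr 1
    ring
  have h1 : ‖(1 : ℂ) - q * w ^ 2‖ ≤ 3 * ‖1 - w‖ := by
    have h2 : (1 : ℂ) - q * w ^ 2 = (1 - w) * (1 + w) + (((1 - q : ℝ)) : ℂ) * w ^ 2 := by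
      push_cast
      ring
    have h3 : ‖(1 - w) * (1 + w)‖ ≤ 2 * ‖1 - w‖ := by
      rw [norm_mul]
      have : ‖1 + w‖ ≤ 2 := by
        have := norm_add_le (1 : ℂ) w
        rw [norm_one] at this
        linarith
      nlinarith [norm_nonneg (1 - w)]
    have h4 : ‖(((1 - q : ℝ)) : ℂ) * w ^ 2‖ ≤ ‖1 - w‖ := by
      rw [norm_mul, Complex.norm_real, Real.norm_of_nonneg (by linarith), norm_pow]
      have h5 := ker_q_le hq hq1 hw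
      have h6 : ‖w‖ ^ 2 ≤ 1 := by nlinarith [norm_nonneg w]
      nlinarith
    rw [h2]
    exact (norm_add_le _ _).trans (by linarith)
  have hqn : ‖(1 : ℂ) - q‖ = 1 - q := by
    have : (1 : ℂ) - q = ((1 - q : ℝ) : ℂ) := by push_cast; ring
    rw [this, Complex.norm_real, Real.norm_of_nonneg (by linarith)]
  rw [e, norm_div, norm_neg, norm_mul, norm_mul, norm_mul, norm_pow, norm_pow, hqn]
  have h5 : ‖1 - w‖ / 2 ≤ ‖1 - (q : ℂ) * w‖ := by linarith [ker_1qw hq hq1 hw]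
  rw [div_le_div_iff₀ (by positivity) (by positivity)]
  have h6 : (‖1 - w‖ / 2) ^ 2 ≤ ‖1 - (q : ℂ) * w‖ ^ 2 := by gcongr
  have h7 : ‖w‖ * (1 - q) * ‖(1 : ℂ) - q * w ^ 2‖ ≤ 1 * (1 - q) * (3 * ‖1 - w‖) := by
    gcongr
  calc ‖w‖ * (1 - q) * ‖(1 : ℂ) - q * w ^ 2‖ * ‖1 - w‖ ^ 3
      ≤ 1 * (1 - q) * (3 * ‖1 - w‖) * ‖1 - w‖ ^ 3 := by gcongr
    _ = 12 * (1 - q) * ((‖1 - w‖ / 2) ^ 2 * ‖1 - w‖ ^ 2) := by ring
    _ ≤ 12 * (1 - q) * (‖1 - (q : ℂ) * w‖ ^ 2 * ‖1 - w‖ ^ 2) := by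
      have : 0 ≤ 1 - q := by linarith
      gcongr

/-- size of `k3 / (1 - q)` -/
theorem ker_k3_le (hq : 1 / 2 ≤ q) (hq1 : q < 1) (hw : ‖w‖ ≤ q ^ 2) :
    ‖w * (1 + q) / (((q : ℂ) - w) * (1 - (q : ℂ) * w))‖ ≤ 12 / ‖1 - w‖ ^ 2 := by
  have hw1 : ‖w‖ < 1 := by nlinarith
  have hd := ker_d1 hw1
  have hn1 := ker_ne1 hq hq1 hw
  have hn2 := ker_ne2 hq hq1 hw
  have h5 : ‖1 - w‖ / 3 ≤ ‖(q : ℂ) - w‖ := by linarith [ker_qw hq hq1 hw]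
  have h6 : ‖1 - w‖ / 2 ≤ ‖1 - (q : ℂ) * w‖ := by linarith [ker_1qw hq hq1 hw]
  have hqn : ‖(1 : ℂ) + q‖ = 1 + q := by
    have : (1 : ℂ) + q = ((1 + q : ℝ) : ℂ) := by push_cast; ring
    rw [this, Complex.norm_real, Real.norm_of_nonneg (by linarith)]
  rw [norm_div, norm_mul, norm_mul, hqn]
  have h7 : 0 < ‖(q : ℂ) - w‖ := norm_pos_iff.mpr hn1
  have h8 : 0 < ‖1 - (q : ℂ) * w‖ := norm_pos_iff.mpr hn2
  rw [div_le_div_iff₀ (by positivity) (by positivity)]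
  calc ‖w‖ * (1 + q) * ‖1 - w‖ ^ 2 ≤ 1 * 2 * ‖1 - w‖ ^ 2 := by
        gcongr
        linarith
    _ = 12 * ((‖1 - w‖ / 3) * (‖1 - w‖ / 2)) := by ring
    _ ≤ 12 * (‖(q : ℂ) - w‖ * ‖1 - (q : ℂ) * w‖) := by gcongr

/-- `k3 / (1 - q)` against `2 w / (1 - w)²` -/
theorem ker_k3 (hq : 1 / 2 ≤ q) (hq1 : q < 1) (hw : ‖w‖ ≤ q ^ 2) :
    ‖w * (1 + q) / (((q : ℂ) - w) * (1 - (q : ℂ) * w)) - 2 * (w / (1 - w) ^ 2)‖
      ≤ 24 * (1 - q) / ‖1 - w‖ ^ 3 := by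
  have hw1 : ‖w‖ < 1 := by nlinarith
  have hd := ker_d1 hw1
  have hn1 := ker_ne1 hq hq1 hw
  have hn2 := ker_ne2 hq hq1 hw
  have hn3 : 1 - w ≠ 0 := norm_pos_iff.mp hd
  have e : w * (1 + q) / (((q : ℂ) - w) * (1 - (q : ℂ) * w)) - 2 * (w / (1 - w) ^ 2)
      = w * (1 - q) * (1 - 2 * q * w + w ^ 2)
        / (((q : ℂ) - w) * (1 - (q : ℂ) * w) * (1 - w) ^ 2) := by
    rw [eq_div_iff (mul_ne_zero (mul_ne_zero hn1 hn2) (pow_ne_zero 2 hn3)), sub_mul]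
    have e1 : w * (1 + q) / (((q : ℂ) - w) * (1 - (q : ℂ) * w))
        * (((q : ℂ) - w) * (1 - (q : ℂ) * w) * (1 - w) ^ 2) = w * (1 + q) * (1 - w) ^ 2 := by
      rw [← mul_assoc, div_mul_cancel₀ _ (mul_ne_zero hn1 hn2)]
    have e2 : 2 * (w / (1 - w) ^ 2) * (((q : ℂ) - w) * (1 - (q : ℂ) * w) * (1 - w) ^ 2)
        = 2 * w * (((q : ℂ) - w) * (1 - (q : ℂ) * w)) := by
      have : w / (1 - w) ^ 2 * (1 - w) ^ 2 = w := div_mul_cancel₀ _ (pow_ne_zero 2 hn3)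
      linear_combination (2 * (((q : ℂ) - w) * (1 - (q : ℂ) * w))) * this
    rw [e1, e2]
    ring
  have h1 : ‖(1 : ℂ) - 2 * q * w + w ^ 2‖ ≤ 4 * ‖1 - w‖ := by
    have h2 : (1 : ℂ) - 2 * q * w + w ^ 2 = (1 - w) * (1 - w) + (((1 - q : ℝ)) : ℂ) * (2 * w) := by
      push_cast
      ring
    have h3 : ‖(1 - w) * (1 - w)‖ ≤ 2 * ‖1 - w‖ := by
      rw [norm_mul]
      have : ‖1 - w‖ ≤ 2 := by
        have := norm_sub_le (1 : ℂ) w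
        rw [norm_one] at this
        linarith
      nlinarith [norm_nonneg (1 - w)]
    have h4 : ‖(((1 - q : ℝ)) : ℂ) * (2 * w)‖ ≤ 2 * ‖1 - w‖ := by
      rw [norm_mul, norm_mul, Complex.norm_real, Real.norm_of_nonneg (by linarith),
        Complex.norm_ofNat]
      have h5 := ker_q_le hq hq1 hw
      nlinarith [norm_nonneg w]
    rw [h2]
    exact (norm_add_le _ _).trans (by linarith)
  have hqn : ‖(1 : ℂ) - q‖ = 1 - q := by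
    have : (1 : ℂ) - q = ((1 - q : ℝ) : ℂ) := by push_cast; ring
    rw [this, Complex.norm_real, Real.norm_of_nonneg (by linarith)]
  rw [e, norm_div, norm_mul, norm_mul, norm_mul, norm_mul, norm_pow, hqn]
  have h5 : ‖1 - w‖ / 3 ≤ ‖(q : ℂ) - w‖ := by linarith [ker_qw hq hq1 hw]
  have h6 : ‖1 - w‖ / 2 ≤ ‖1 - (q : ℂ) * w‖ := by linarith [ker_1qw hq hq1 hw]
  have h7 : 0 < ‖(q : ℂ) - w‖ := norm_pos_iff.mpr hn1
  have h8 : 0 < ‖1 - (q : ℂ) * w‖ := norm_pos_iff.mpr hn2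
  rw [div_le_div_iff₀ (by positivity) (by positivity)]
  have h9 : 0 ≤ 1 - q := by linarith
  calc ‖w‖ * (1 - q) * ‖(1 : ℂ) - 2 * q * w + w ^ 2‖ * ‖1 - w‖ ^ 3
      ≤ 1 * (1 - q) * (4 * ‖1 - w‖) * ‖1 - w‖ ^ 3 := by gcongr
    _ = 24 * (1 - q) * ((‖1 - w‖ / 3) * (‖1 - w‖ / 2) * ‖1 - w‖ ^ 2) := by ring
    _ ≤ 24 * (1 - q) * (‖(q : ℂ) - w‖ * ‖1 - (q : ℂ) * w‖ * ‖1 - w‖ ^ 2) := by gcongr

/-- `k5` -/
theorem ker_k5 (hq : 1 / 2 ≤ q) (hq1 : q < 1) (hw : ‖w‖ ≤ q ^ 2) :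
    ‖((q : ℂ) + w) / ((q : ℂ) - w) + (1 + (q : ℂ) * w) / (1 - (q : ℂ) * w)‖
      ≤ 24 / ‖1 - w‖ := by
  have hw1 : ‖w‖ < 1 := by nlinarith
  have hd := ker_d1 hw1
  have hn1 := ker_ne1 hq hq1 hw
  have hn2 := ker_ne2 hq hq1 hw
  have e : ((q : ℂ) + w) / ((q : ℂ) - w) + (1 + (q : ℂ) * w) / (1 - (q : ℂ) * w)
      = 2 * q * ((1 - w) * (1 + w)) / (((q : ℂ) - w) * (1 - (q : ℂ) * w)) := by
    rw [div_add_div _ _ hn1 hn2]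
    congr 1
    ring
  have h5 : ‖1 - w‖ / 3 ≤ ‖(q : ℂ) - w‖ := by linarith [ker_qw hq hq1 hw]
  have h6 : ‖1 - w‖ / 2 ≤ ‖1 - (q : ℂ) * w‖ := by linarith [ker_1qw hq hq1 hw]
  have h7 : 0 < ‖(q : ℂ) - w‖ := norm_pos_iff.mpr hn1
  have h8 : 0 < ‖1 - (q : ℂ) * w‖ := norm_pos_iff.mpr hn2
  have h9 : ‖1 + w‖ ≤ 2 := by
    have := norm_add_le (1 : ℂ) w
    rw [norm_one] at this
    linarith
  rw [e, norm_div, norm_mul, norm_mul, norm_mul, norm_mul, Complex.norm_real,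
    Real.norm_of_nonneg (by linarith), Complex.norm_ofNat]
  rw [div_le_div_iff₀ (by positivity) (by positivity)]
  calc 2 * q * (‖1 - w‖ * ‖1 + w‖) * ‖1 - w‖ ≤ 2 * 1 * (‖1 - w‖ * 2) * ‖1 - w‖ := by gcongr
    _ = 24 * ((‖1 - w‖ / 3) * (‖1 - w‖ / 2)) := by ring
    _ ≤ 24 * (‖(q : ℂ) - w‖ * ‖1 - (q : ℂ) * w‖) := by gcongr

/-- `4 w² / (1 - w²)²` against `w / (1 - w)²` -/
theorem ker_om (hw1 : ‖w‖ < 1) (hre : 0 ≤ w.re) :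
    ‖w / (1 - w) ^ 2 - 4 * w ^ 2 / (1 - w ^ 2) ^ 2‖ ≤ 1 := by
  have hd := ker_d1 hw1
  have hn3 : 1 - w ≠ 0 := norm_pos_iff.mp hd
  have h1 : 1 ≤ ‖1 + w‖ := by
    have h2 : (1 + w).re ≤ ‖1 + w‖ := Complex.re_le_norm _
    rw [Complex.add_re, Complex.one_re] at h2
    linarith
  have hn4 : 1 + w ≠ 0 := by
    rw [← norm_pos_iff]
    linarith
  have hf : 1 - w ^ 2 = (1 - w) * (1 + w) := by ring
  have e : w / (1 - w) ^ 2 - 4 * w ^ 2 / (1 - w ^ 2) ^ 2 = w / (1 + w) ^ 2 := by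
    rw [hf]
    field_simp
    ring
  rw [e, norm_div, norm_pow, div_le_one (by positivity)]
  nlinarith [norm_nonneg w]

end kernels

end Pool.Agent.Helper14.CK
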