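import Pool.Agent.Helper14.CK.MCont

/-!
MINT: the integral of the multiplier term over the targets, at a nearly critical function.
-/

set_option autoImplicit false

open Complex MeasureTheory Metric Set Filter Topology
open scoped Real ComplexConjugate

namespace Pool.Agent.Helper14.CK

open Pool.Agent.Helper39.Area Pool.Agent.Helper52.EK Pool.Agent.Helper52.CK

section

variable {κ dl a b : ℝ} {W0 : ℂ → ℝ} {Mh β : ℂ → ℂ}

/-- the integrand of `MM` -/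
noncomputable def gM (κ dl : ℝ) (W0 : ℂ → ℝ) (Mh β : ℂ → ℂ) (s : ℂ × (ℝ × ℝ)) : ℝ :=
  W0 s.1 * (Mh s.1 * (kA β (ep (-s.2.1) s.2.2) s.1 -
    ((1 + dl / (2 * κ) : ℝ) : ℂ) * omp s.2.2 s.1 ^ 2)).re

theorem cont_Mh (hb : 0 < b) (hM : ContinuousOn Mh {z | 0 < ‖z‖ ∧ ‖z‖ < 1}) :
    ContinuousOn Mh (Ob b) := hM.mono fun _ hz => ⟨ob_pos hz, ob_lt hb hz⟩

theorem cont_gM (h : Ext β) (ha : 0 < a) (hb : 0 < b) (hW : Cutf b W0)
    (hM : ContinuousOn Mh {z | 0 < ‖z‖ ∧ ‖z‖ < 1}) :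
    ContinuousOn (gM κ dl W0 Mh β) (Sp a b) := by
  have h1 : ContinuousOn (fun s : ℂ × (ℝ × ℝ) => Mh s.1) (Sp a b) :=
    (cont_Mh hb hM).comp continuous_fst.continuousOn fun s hs => hs.1
  have h2 : ContinuousOn (fun s : ℂ × (ℝ × ℝ) => W0 s.1) (Sp a b) :=
    (hW.cont.comp continuous_fst).continuousOn
  have h3 := cont_kA h ha hb
  have h4 := cont_omp (a := a) hb
  unfold gM
  apply h2.mul
  apply Complex.continuous_re.comp_continuousOn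
  exact h1.mul (h3.sub (continuousOn_const.mul (h4.pow 2)))

theorem MM_ob (hW : Cutf b W0) (x θ : ℝ) :
    MM κ dl W0 Mh β x θ = π⁻¹ * ∫ z0 in Ob b, gM κ dl W0 Mh β (z0, (x, θ)) := by
  rw [MM]
  congr 1
  symm
  apply setIntegral_eq_integral_of_forall_compl_eq_zero
  intro z hz
  have h0 : W0 z = 0 := by
    by_contra hne
    exact hz (hW.supp z hne)
  simp only [gM, h0, zero_mul]

/-- continuity of `MM` on rectangles -/
theorem MM_contOn (h : Ext β) (ha : 0 < a) (hb : 0 < b) (hW : Cutf b W0)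
    (hM : ContinuousOn Mh {z | 0 < ‖z‖ ∧ ‖z‖ < 1}) (c d : ℝ) :
    ContinuousOn (fun p : ℝ × ℝ => MM κ dl W0 Mh β p.1 p.2) (Icc a b ×ˢ Icc c d) := by
  have hc := cont_gM (κ := κ) (dl := dl) h ha hb hW hM
  have hcomp : IsCompact (Ob b ×ˢ (Icc a b ×ˢ Icc c d)) :=
    (isCompact_ob b).prod (isCompact_Icc.prod isCompact_Icc)
  have hsub : Ob b ×ˢ (Icc a b ×ˢ Icc c d) ⊆ Sp a b :=
    prod_mono subset_rfl (prod_mono subset_rfl (subset_univ _))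
  obtain ⟨C, hC⟩ := hcomp.exists_bound_of_continuousOn (hc.mono hsub)
  have h1 : (fun p : ℝ × ℝ => MM κ dl W0 Mh β p.1 p.2)
      = fun p : ℝ × ℝ => π⁻¹ * ∫ z0 in Ob b, gM κ dl W0 Mh β (z0, p) := by
    funext p
    exact MM_ob hW p.1 p.2
  rw [h1]
  apply continuousOn_const.mul
  refine continuousOn_of_dominated (bound := fun _ => C) ?_ ?_ ?_ ?_
  · intro p hp
    have h2 : ContinuousOn (fun z0 : ℂ => gM κ dl W0 Mh β (z0, p)) (Ob b) :=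
      hc.comp (by fun_prop) fun z hz => hsub ⟨hz, hp⟩
    exact h2.aestronglyMeasurable (isClosed_ob b).measurableSet
  · intro p hp
    filter_upwards [ae_restrict_mem (isClosed_ob b).measurableSet] with z hz
    exact hC (z, p) ⟨hz, hp⟩
  · exact continuousOn_const.integrableOn_compact (isCompact_ob b)
  · filter_upwards [ae_restrict_mem (isClosed_ob b).measurableSet] with z hz
    exact hc.comp (by fun_prop) fun p hp => hsub ⟨hz, hp⟩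

/-- the integrand of `EE` -/
noncomputable def Ei (κ : ℝ) (om om' u u' : ℝ → ℝ) (β : ℂ → ℂ) (s : ℂ × (ℝ × ℝ)) : ℂ :=
  ((FF κ β s.2.1 s.2.2 : ℝ) : ℂ) *
    (((κ * (om s.2.1 * u s.2.2) : ℝ) : ℂ) *
        (1 - 4 * s.1 ^ 2 * kA β (ep (-s.2.1) s.2.2) s.1) +
      (((κ + 2) * (om s.2.1 * u s.2.2) : ℝ) : ℂ) * k1 (ep (-s.2.1) s.2.2) s.1 +
      ((κ * (om s.2.1 * u s.2.2) + om' s.2.1 * u s.2.2 : ℝ) : ℂ) * k3 (ep (-s.2.1) s.2.2) s.1 +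
      ((om s.2.1 * u' s.2.2 : ℝ) : ℂ) * k5 (ep (-s.2.1) s.2.2) s.1)

/-- the kernel difference -/
noncomputable def D1 (κ dl : ℝ) (s : ℂ × (ℝ × ℝ)) : ℂ :=
  κ + (κ + 2) * k1 (ep (-s.2.1) s.2.2) s.1 + κ * k3 (ep (-s.2.1) s.2.2) s.1 +
    (κ - 2 + dl) * (k3 (ep (-s.2.1) s.2.2) s.1 / s.2.1) -
    (4 * κ + 2 * dl) * (s.1 ^ 2 * omp s.2.2 s.1 ^ 2)

/-- what remains -/
noncomputable def Qi (κ dl : ℝ) (om om' u u' : ℝ → ℝ) (β : ℂ → ℂ) (s : ℂ × (ℝ × ℝ)) : ℂ :=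
  ((FF κ β s.2.1 s.2.2 : ℝ) : ℂ) *
    (((om s.2.1 * u s.2.2 : ℝ) : ℂ) * D1 κ dl s -
      ((((κ - 2 + dl) * om s.2.1 - s.2.1 * om' s.2.1) * u s.2.2 : ℝ) : ℂ) *
        (k3 (ep (-s.2.1) s.2.2) s.1 / s.2.1) +
      ((om s.2.1 * u' s.2.2 : ℝ) : ℂ) * k5 (ep (-s.2.1) s.2.2) s.1)

theorem key_id (om om' u u' : ℝ → ℝ) (hκ : κ ≠ 0) {s : ℂ × (ℝ × ℝ)} (hx : s.2.1 ≠ 0) :
    4 * κ * s.1 ^ 2 * ((om s.2.1 * u s.2.2 * FF κ β s.2.1 s.2.2 : ℝ) : ℂ) *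
      (kA β (ep (-s.2.1) s.2.2) s.1 - ((1 + dl / (2 * κ) : ℝ) : ℂ) * omp s.2.2 s.1 ^ 2)
      = -Ei κ om om' u u' β s + Qi κ dl om om' u u' β s := by
  have hx' : (s.2.1 : ℂ) ≠ 0 := by exact_mod_cast hx
  have hκ' : (κ : ℂ) ≠ 0 := by exact_mod_cast hκ
  unfold Ei Qi D1
  set K3 := k3 (ep (-s.2.1) s.2.2) s.1 with hK3
  obtain ⟨T, hT⟩ : ∃ T : ℂ, K3 = s.2.1 * T := ⟨K3 / s.2.1, by field_simp⟩
  have hT2 : K3 / s.2.1 = T := by
    rw [hT]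
    field_simp
  rw [hT2, hT]
  push_cast
  field_simp
  ring

/-- the multiplier with the cut-off -/
noncomputable def Cm (κ : ℝ) (W0 : ℂ → ℝ) (Mh : ℂ → ℂ) (z0 : ℂ) : ℂ :=
  (W0 z0 : ℂ) * Mh z0 / (4 * π * κ * z0 ^ 2)

theorem Cm_cont (hκ : 0 < κ) (hb : 0 < b) (hW : Cutf b W0)
    (hM : ContinuousOn Mh {z | 0 < ‖z‖ ∧ ‖z‖ < 1}) : ContinuousOn (Cm κ W0 Mh) (Ob b) := by
  unfold Cm
  apply ContinuousOn.div
  · exact (Complex.continuous_ofReal.comp hW.cont).continuousOn.mul (cont_Mh hb hM)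
  · fun_prop
  · intro z hz
    have h1 : z ≠ 0 := norm_pos_iff.mp (ob_pos hz)
    have h2 : (κ : ℂ) ≠ 0 := by exact_mod_cast hκ.ne'
    have h3 : (π : ℂ) ≠ 0 := by exact_mod_cast Real.pi_ne_zero
    exact mul_ne_zero (mul_ne_zero (mul_ne_zero (by norm_num) h3) h2) (pow_ne_zero 2 h1)

theorem Cm_le {Mb : ℝ} (hκ : 0 < κ) (hW : Cutf b W0) (hMb : ∀ z, ‖Mh z‖ ≤ Mb) {z0 : ℂ}
    (hz : z0 ∈ Ob b) : ‖Cm κ W0 Mh z0‖ ≤ Mb / (4 * π * κ) * (1 / ‖z0‖ ^ 2) := by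
  have h0 : 0 ≤ Mb := (norm_nonneg _).trans (hMb 0)
  have h1 := ob_pos hz
  have h2 : ‖(4 : ℂ) * π * κ * z0 ^ 2‖ = 4 * π * κ * ‖z0‖ ^ 2 := by
    rw [norm_mul, norm_mul, norm_mul, norm_pow, Complex.norm_real, Complex.norm_real,
      Real.norm_of_nonneg Real.pi_pos.le, Real.norm_of_nonneg hκ.le, Complex.norm_ofNat]
  have hpi := Real.pi_pos
  rw [Cm, norm_div, norm_mul, h2, Complex.norm_real, Real.norm_of_nonneg (hW.nn z0)]
  calc W0 z0 * ‖Mh z0‖ / (4 * π * κ * ‖z0‖ ^ 2) ≤ 1 * Mb / (4 * π * κ * ‖z0‖ ^ 2) := by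
        gcongr
        · exact hW.le1 z0
        · exact hMb z0
    _ = Mb / (4 * π * κ) * (1 / ‖z0‖ ^ 2) := by
        field_simp

theorem ob_inv {z0 : ℂ} (hz : z0 ∈ Ob b) : 1 / ‖z0‖ ^ 2 ≤ 9 := by
  have h1 := hz.1
  have h2 : (1:ℝ) / 3 ≤ Real.exp (-1) := by
    rw [Real.exp_neg, one_div]
    apply inv_anti₀ (Real.exp_pos _)
    have := Real.exp_one_lt_d9
    linarith
  have h3 : 1 / 3 ≤ ‖z0‖ := h2.trans h1
  rw [div_le_iff₀ (by positivity)]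
  nlinarith

/-- identity under the integral -/
theorem re_id (hκ : 0 < κ) (om om' u u' : ℝ → ℝ) {s : ℂ × (ℝ × ℝ)} (hx : s.2.1 ≠ 0)
    (hz : s.1 ∈ Ob b) :
    om s.2.1 * u s.2.2 * FF κ β s.2.1 s.2.2 * (π⁻¹ * gM κ dl W0 Mh β s)
      = -(Cm κ W0 Mh s.1 * Ei κ om om' u u' β s).re
        + (Cm κ W0 Mh s.1 * Qi κ dl om om' u u' β s).re := by
  have h1 := key_id (β := β) (dl := dl) om om' u u' hκ.ne' hx
  have hz0 : s.1 ≠ 0 := norm_pos_iff.mp (ob_pos hz)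
  have h2 : (κ : ℂ) ≠ 0 := by exact_mod_cast hκ.ne'
  have h3 : (π : ℂ) ≠ 0 := by exact_mod_cast Real.pi_ne_zero
  have h4 : Cm κ W0 Mh s.1 * (-Ei κ om om' u u' β s + Qi κ dl om om' u u' β s)
      = ((om s.2.1 * u s.2.2 * FF κ β s.2.1 s.2.2 * π⁻¹ * W0 s.1 : ℝ) : ℂ) *
        (Mh s.1 * (kA β (ep (-s.2.1) s.2.2) s.1 -
          ((1 + dl / (2 * κ) : ℝ) : ℂ) * omp s.2.2 s.1 ^ 2)) := by
    rw [← h1, Cm]
    push_cast
    field_simp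
  have h5 := congrArg Complex.re h4
  rw [Complex.re_ofReal_mul, mul_add, mul_neg, Complex.add_re, Complex.neg_re] at h5
  rw [h5, gM]
  ring

/-- bound of the kernel difference -/
theorem D1_le (hκ : 0 < κ) (hdl : 0 ≤ dl) {x θ : ℝ} {z0 : ℂ} (h : Pr x θ z0)
    (hre : 0 ≤ (rw0 θ z0).re) : ‖D1 κ dl (z0, (x, θ))‖
      ≤ (5 * κ + 2 * dl) + (39 * (κ + 2) + 24 * κ + 48 * (κ + 2 + dl)) * Er x θ z0 := by
  have e : D1 κ dl (z0, (x, θ)) = ((κ : ℝ) : ℂ)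
      + ((κ + 2 : ℝ) : ℂ) * (k1 (ep (-x) θ) z0 - 2 * Kw θ z0)
      + ((κ : ℝ) : ℂ) * k3 (ep (-x) θ) z0
      + ((κ - 2 + dl : ℝ) : ℂ) * (k3 (ep (-x) θ) z0 / x - 2 * Kw θ z0)
      + ((4 * κ + 2 * dl : ℝ) : ℂ) * (Kw θ z0 - z0 ^ 2 * omp θ z0 ^ 2) := by
    unfold D1
    push_cast
    ring
  have h1 := h.k1_le
  have h2 := h.k3_le
  have h3 := h.k3_div
  have h4 := h.om hre
  have h5 := h.er_nn
  rw [e]
  refine (norm_add_le _ _).trans ?_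
  refine (add_le_add_left ((norm_add_le _ _).trans (add_le_add_left ((norm_add_le _ _).trans
    (add_le_add_left (norm_add_le _ _) _)) _)) _).trans ?_
  rw [norm_mul, norm_mul, norm_mul, norm_mul, Complex.norm_real, Complex.norm_real,
    Complex.norm_real, Complex.norm_real, Real.norm_of_nonneg hκ.le,
    Real.norm_of_nonneg (show 0 ≤ κ + 2 by linarith),
    Real.norm_of_nonneg (show 0 ≤ 4 * κ + 2 * dl by linarith), Real.norm_eq_abs]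
  have h6 : |κ - 2 + dl| ≤ κ + 2 + dl := by
    rw [abs_le]
    constructor <;> linarith
  have g1 : (κ + 2) * ‖k1 (ep (-x) θ) z0 - 2 * Kw θ z0‖ ≤ (κ + 2) * (39 * Er x θ z0) := by
    gcongr
  have g2 : κ * ‖k3 (ep (-x) θ) z0‖ ≤ κ * (24 * Er x θ z0) := by gcongr
  have g3 : |κ - 2 + dl| * ‖k3 (ep (-x) θ) z0 / x - 2 * Kw θ z0‖
      ≤ (κ + 2 + dl) * (48 * Er x θ z0) := by
    gcongr
  have g4 : (4 * κ + 2 * dl) * ‖Kw θ z0 - z0 ^ 2 * omp θ z0 ^ 2‖ ≤ (4 * κ + 2 * dl) * 1 := by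
    gcongr
  linarith

/-- bound of `k3 / x` -/
theorem k3x_le {x θ : ℝ} {z0 : ℂ} (h : Pr x θ z0) (hre : 0 ≤ (rw0 θ z0).re) :
    ‖k3 (ep (-x) θ) z0 / x‖ ≤ (2 + 48 * Er x θ z0) + 2 * ‖z0‖ ^ 2 * ‖omp θ z0‖ ^ 2 := by
  have e : k3 (ep (-x) θ) z0 / x = (k3 (ep (-x) θ) z0 / x - 2 * Kw θ z0)
      + 2 * (Kw θ z0 - z0 ^ 2 * omp θ z0 ^ 2) + 2 * (z0 ^ 2 * omp θ z0 ^ 2) := by ring
  have h3 := h.k3_div
  have h4 := h.om hre
  rw [e]
  refine (norm_add_le _ _).trans ?_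
  refine (add_le_add_left (norm_add_le _ _) _).trans ?_
  rw [norm_mul, norm_mul, norm_mul, norm_pow, norm_pow, Complex.norm_ofNat]
  linarith

/-- pointwise bound of the remaining term -/
theorem Q_le {Mb : ℝ} (hκ : 0 < κ) (hdl : 0 ≤ dl) (hW : Cutf b W0) (hMb : ∀ z, ‖Mh z‖ ≤ Mb)
    {om om' u u' : ℝ → ℝ} (hu : ∀ θ, 0 ≤ u θ) (hom : ∀ x, 0 ≤ om x)
    {x θ : ℝ} {z0 : ℂ} (hz : z0 ∈ Ob b) (h : Pr x θ z0)
    (hre : u θ ≠ 0 → 0 ≤ (rw0 θ z0).re) :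
    (Cm κ W0 Mh z0 * Qi κ dl om om' u u' β (z0, (x, θ))).re ≤
      FF κ β x θ * (Mb / (4 * π * κ)) *
        ((om x * u θ * (9 * (5 * κ + 2 * dl)) +
            |(κ - 2 + dl) * om x - x * om' x| * u θ * 20) +
          (om x * u θ * (9 * (39 * (κ + 2) + 24 * κ + 48 * (κ + 2 + dl))) +
            |(κ - 2 + dl) * om x - x * om' x| * u θ * 432) * Er x θ z0 +
          (|(κ - 2 + dl) * om x - x * om' x| * u θ * 4 + om x * |u' θ| * 108) *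
            (1 / ‖Complex.exp (θ * I) - z0‖) +
          (|(κ - 2 + dl) * om x - x * om' x| * u θ * 2) *
            (1 / ‖Complex.exp (θ * I) - z0‖ ^ 2)) := by
  have hMb0 : 0 ≤ Mb := (norm_nonneg _).trans (hMb 0)
  have hpi := Real.pi_pos
  have hF := FF_nn κ β x θ
  have hC := Cm_le hκ hW hMb hz
  have hinv := ob_inv hz
  have hz1 := ob_pos hz
  have hEr := h.er_nn
  set σ : ℝ := |(κ - 2 + dl) * om x - x * om' x| with hσ
  have hσ0 : 0 ≤ σ := abs_nonneg _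
  set A : ℝ := Mb / (4 * π * κ) with hA
  have hA0 : 0 ≤ A := by positivity
  set d1 : ℝ := 1 / ‖Complex.exp (θ * I) - z0‖ with hd1
  set d2 : ℝ := 1 / ‖Complex.exp (θ * I) - z0‖ ^ 2 with hd2
  have hd10 : 0 ≤ d1 := by positivity
  have hd20 : 0 ≤ d2 := by positivity
  have hQ : ‖Qi κ dl om om' u u' β (z0, (x, θ))‖ ≤ FF κ β x θ *
      (om x * (u θ * ‖D1 κ dl (z0, (x, θ))‖) + σ * (u θ * ‖k3 (ep (-x) θ) z0 / x‖) +
        om x * |u' θ| * ‖k5 (ep (-x) θ) z0‖) := by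
    unfold Qi
    rw [norm_mul, Complex.norm_real, Real.norm_of_nonneg hF]
    apply mul_le_mul_of_nonneg_left _ hF
    refine (norm_add_le _ _).trans ?_
    refine (add_le_add_left (norm_sub_le _ _) _).trans ?_
    rw [norm_mul, norm_mul, norm_mul, Complex.norm_real, Complex.norm_real, Complex.norm_real,
      Real.norm_eq_abs, Real.norm_eq_abs, Real.norm_eq_abs, abs_mul, abs_mul, abs_mul,
      abs_of_nonneg (hom x), abs_of_nonneg (hu θ), mul_assoc, mul_assoc]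
  have g1 : u θ * ‖D1 κ dl (z0, (x, θ))‖ ≤ u θ * ((5 * κ + 2 * dl) +
      (39 * (κ + 2) + 24 * κ + 48 * (κ + 2 + dl)) * Er x θ z0) := by
    by_cases h0 : u θ = 0
    · rw [h0, zero_mul, zero_mul]
    · exact mul_le_mul_of_nonneg_left (D1_le hκ hdl h (hre h0)) (hu θ)
  have g2 : u θ * ‖k3 (ep (-x) θ) z0 / x‖ ≤ u θ * ((2 + 48 * Er x θ z0) +
      2 * ‖z0‖ ^ 2 * (d2 + 2 * d1 + 1)) := by
    by_cases h0 : u θ = 0
    · rw [h0, zero_mul, zero_mul]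
    · apply mul_le_mul_of_nonneg_left _ (hu θ)
      refine (k3x_le h (hre h0)).trans ?_
      have h6 := h.omp_le (hre h0)
      have h7 : 2 * ‖z0‖ ^ 2 * ‖omp θ z0‖ ^ 2 ≤ 2 * ‖z0‖ ^ 2 * (d2 + 2 * d1 + 1) := by
        gcongr
      linarith
  have g3 : ‖k5 (ep (-x) θ) z0‖ ≤ 12 * d1 := h.k5_le
  have hu0 := hu θ
  have hom0 := hom x
  have hB : 0 ≤ om x * (u θ * ((5 * κ + 2 * dl) +
      (39 * (κ + 2) + 24 * κ + 48 * (κ + 2 + dl)) * Er x θ z0)) +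
      σ * (u θ * ((2 + 48 * Er x θ z0) + 2 * ‖z0‖ ^ 2 * (d2 + 2 * d1 + 1))) +
      om x * |u' θ| * (12 * d1) := by positivity
  calc (Cm κ W0 Mh z0 * Qi κ dl om om' u u' β (z0, (x, θ))).re
      ≤ ‖Cm κ W0 Mh z0 * Qi κ dl om om' u u' β (z0, (x, θ))‖ := Complex.re_le_norm _
    _ = ‖Cm κ W0 Mh z0‖ * ‖Qi κ dl om om' u u' β (z0, (x, θ))‖ := norm_mul _ _
    _ ≤ (A * (1 / ‖z0‖ ^ 2)) * (FF κ β x θ *
      (om x * (u θ * ((5 * κ + 2 * dl) +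
      (39 * (κ + 2) + 24 * κ + 48 * (κ + 2 + dl)) * Er x θ z0)) +
      σ * (u θ * ((2 + 48 * Er x θ z0) + 2 * ‖z0‖ ^ 2 * (d2 + 2 * d1 + 1))) +
      om x * |u' θ| * (12 * d1))) := by
        apply mul_le_mul hC _ (norm_nonneg _) (by positivity)
        refine hQ.trans ?_
        apply mul_le_mul_of_nonneg_left _ hF
        gcongr
    _ = FF κ β x θ * A * ((1 / ‖z0‖ ^ 2) * (om x * (u θ * ((5 * κ + 2 * dl) +
      (39 * (κ + 2) + 24 * κ + 48 * (κ + 2 + dl)) * Er x θ z0))) +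
      (1 / ‖z0‖ ^ 2) * (σ * (u θ * (2 + 48 * Er x θ z0))) +
      (‖z0‖ ^ 2 / ‖z0‖ ^ 2) * (σ * (u θ * (2 * (d2 + 2 * d1 + 1)))) +
      (1 / ‖z0‖ ^ 2) * (om x * |u' θ| * (12 * d1))) := by ring
    _ ≤ FF κ β x θ * A * (9 * (om x * (u θ * ((5 * κ + 2 * dl) +
      (39 * (κ + 2) + 24 * κ + 48 * (κ + 2 + dl)) * Er x θ z0))) +
      9 * (σ * (u θ * (2 + 48 * Er x θ z0))) +
      1 * (σ * (u θ * (2 * (d2 + 2 * d1 + 1)))) +
      9 * (om x * |u' θ| * (12 * d1))) := by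
        have h8 : ‖z0‖ ^ 2 / ‖z0‖ ^ 2 = 1 := div_self (by positivity)
        rw [h8]
        gcongr
    _ = _ := by ring

/-- the integral over the observers -/
theorem Qint_le {Mb : ℝ} (hκ : 0 < κ) (hdl : 0 ≤ dl) (hW : Cutf b W0) (hMb : ∀ z, ‖Mh z‖ ≤ Mb)
    {om om' u u' : ℝ → ℝ} (hu : ∀ θ, 0 ≤ u θ) (hom : ∀ x, 0 ≤ om x)
    {x θ : ℝ} (hx : 0 < x) (hxb : x ≤ b) (hb1 : b ≤ 1 / 4) (huθ : u θ ≠ 0 → |θ| ≤ 1 / 2)
    (hI : IntegrableOn (fun z0 => (Cm κ W0 Mh z0 * Qi κ dl om om' u u' β (z0, (x, θ))).re)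
      (Ob b)) :
    ∫ z0 in Ob b, (Cm κ W0 Mh z0 * Qi κ dl om om' u u' β (z0, (x, θ))).re ≤
      FF κ β x θ *
        (om x * u θ * (9 * Mb / (4 * κ) *
            ((5 * κ + 2 * dl) + 4 * (39 * (κ + 2) + 24 * κ + 48 * (κ + 2 + dl)))) +
          |(κ - 2 + dl) * om x - x * om' x| * u θ * (Mb / (2 * κ) * (-Real.log b + 882)) +
          om x * |u' θ| * (Mb / κ * 108)) := by
  have hMb0 : 0 ≤ Mb := (norm_nonneg _).trans (hMb 0)
  have hpi := Real.pi_pos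
  have hF := FF_nn κ β x θ
  have hu0 := hu θ
  have hom0 := hom x
  set σ : ℝ := |(κ - 2 + dl) * om x - x * om' x| with hσ
  have hσ0 : 0 ≤ σ := abs_nonneg _
  set A : ℝ := Mb / (4 * π * κ) with hA
  have hA0 : 0 ≤ A := by positivity
  obtain ⟨hi, hle⟩ := ob_int (x := x) θ hx hxb hb1
    (A0 := om x * u θ * (9 * (5 * κ + 2 * dl)) + σ * u θ * 20)
    (A1 := om x * u θ * (9 * (39 * (κ + 2) + 24 * κ + 48 * (κ + 2 + dl))) + σ * u θ * 432)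
    (A2 := σ * u θ * 4 + om x * |u' θ| * 108) (A3 := σ * u θ * 2)
    (by positivity) (by positivity) (by positivity) (by positivity)
  have h1 : ∫ z0 in Ob b, (Cm κ W0 Mh z0 * Qi κ dl om om' u u' β (z0, (x, θ))).re ≤
      ∫ z0 in Ob b, FF κ β x θ * A *
        ((om x * u θ * (9 * (5 * κ + 2 * dl)) + σ * u θ * 20) +
          (om x * u θ * (9 * (39 * (κ + 2) + 24 * κ + 48 * (κ + 2 + dl))) + σ * u θ * 432) *
            Er x θ z0 +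
          (σ * u θ * 4 + om x * |u' θ| * 108) * (1 / ‖Complex.exp (θ * I) - z0‖) +
          (σ * u θ * 2) * (1 / ‖Complex.exp (θ * I) - z0‖ ^ 2)) := by
    apply setIntegral_mono_on hI (hi.const_mul _) (isClosed_ob b).measurableSet
    intro z0 hz
    exact Q_le hκ hdl hW hMb hu hom hz (ob_pr hz hx hxb hb1)
      (fun h0 => rw0_re (huθ h0) hz.2.2)
  refine h1.trans ?_
  rw [integral_const_mul]
  refine (mul_le_mul_of_nonneg_left hle (by positivity)).trans (le_of_eq ?_)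
  rw [one_div, Real.log_inv, hA]
  field_simp
  ring

end

end Pool.Agent.Helper14.CK
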