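import Pool.Agent.Helper52.CK.Defs
import Pool.Agent.Helper14.CK.MKer

/-!
Pointwise bounds of the kernels of the first variation in the original coordinates.
-/

set_option autoImplicit false

open Complex MeasureTheory Metric Set Filter Topology
open scoped Real ComplexConjugate

namespace Pool.Agent.Helper14.CK

open Pool.Agent.Helper39.Area Pool.Agent.Helper52.EK Pool.Agent.Helper52.CK

section

variable {ζ w : ℂ} {q : ℝ}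

theorem conj_unit (hζ : ‖ζ‖ = 1) : conj ζ * ζ = 1 := by
  rw [mul_comm, Complex.mul_conj, Complex.normSq_eq_norm_sq, hζ]
  norm_num

theorem unit_ne (hζ : ‖ζ‖ = 1) : ζ ≠ 0 := by
  intro h
  rw [h, norm_zero] at hζ
  exact zero_ne_one hζ

theorem one_sub_conj (hζ : ‖ζ‖ = 1) :
    1 - (w * ζ) * conj ((q : ℂ) * ζ) = 1 - (q : ℂ) * w := by
  rw [map_mul, Complex.conj_ofReal]
  linear_combination (-(w * q)) * conj_unit hζ

theorem k1_rot (hζ : ‖ζ‖ = 1) : k1 ((q : ℂ) * ζ) (w * ζ)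
    = (q : ℂ) * w / ((q : ℂ) - w) ^ 2 + (q : ℂ) * w / (1 - (q : ℂ) * w) ^ 2 := by
  have h0 := unit_ne hζ
  rw [k1, one_sub_conj hζ]
  congr 1
  · have e1 : (q : ℂ) * ζ * (w * ζ) = ((q : ℂ) * w) * ζ ^ 2 := by ring
    have e2 : ((q : ℂ) * ζ - w * ζ) ^ 2 = ((q : ℂ) - w) ^ 2 * ζ ^ 2 := by ring
    rw [e1, e2, mul_div_mul_right _ _ (pow_ne_zero 2 h0)]
  · congr 1
    rw [map_mul, Complex.conj_ofReal]
    linear_combination (q * w) * conj_unit hζ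

theorem k3_rot (hζ : ‖ζ‖ = 1) (hq : 0 ≤ q) : k3 ((q : ℂ) * ζ) (w * ζ)
    = (1 - q) * (w * (1 + q) / (((q : ℂ) - w) * (1 - (q : ℂ) * w))) := by
  have h0 := unit_ne hζ
  have hn : ‖(q : ℂ) * ζ‖ = q := by
    rw [norm_mul, hζ, mul_one, Complex.norm_real, Real.norm_of_nonneg hq]
  rw [k3, one_sub_conj hζ, hn]
  have e1 : w * ζ * (1 - (q : ℂ) ^ 2) = ((1 - q) * (w * (1 + q))) * ζ := by ring
  have e2 : ((q : ℂ) * ζ - w * ζ) * (1 - (q : ℂ) * w)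
      = (((q : ℂ) - w) * (1 - (q : ℂ) * w)) * ζ := by ring
  rw [e1, e2, mul_div_mul_right _ _ h0, mul_div_assoc]

theorem k5_rot (hζ : ‖ζ‖ = 1) : k5 ((q : ℂ) * ζ) (w * ζ)
    = I / 2 * (((q : ℂ) + w) / ((q : ℂ) - w) + (1 + (q : ℂ) * w) / (1 - (q : ℂ) * w)) := by
  have h0 := unit_ne hζ
  rw [k5, one_sub_conj hζ]
  have e1 : (q : ℂ) * ζ + w * ζ = ((q : ℂ) + w) * ζ := by ring
  have e2 : (q : ℂ) * ζ - w * ζ = ((q : ℂ) - w) * ζ := by ring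
  have e3 : 1 + (w * ζ) * conj ((q : ℂ) * ζ) = 1 + (q : ℂ) * w := by
    rw [map_mul, Complex.conj_ofReal]
    linear_combination (w * q) * conj_unit hζ
  rw [e1, e2, e3, mul_div_mul_right _ _ h0]

theorem omp_rot (hζ : ‖ζ‖ = 1) : (w * ζ) ^ 2 * (2 * ζ / (ζ ^ 2 - (w * ζ) ^ 2)) ^ 2
    = 4 * w ^ 2 / (1 - w ^ 2) ^ 2 := by
  have h0 := unit_ne hζ
  have e1 : ζ ^ 2 - (w * ζ) ^ 2 = ζ * (ζ * (1 - w ^ 2)) := by ring
  have e2 : 2 * ζ / (ζ ^ 2 - (w * ζ) ^ 2) = 2 / (ζ * (1 - w ^ 2)) := by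
    rw [e1, mul_comm 2 ζ, mul_div_mul_left _ _ h0]
  rw [e2, div_pow, mul_pow, mul_pow]
  have e3 : w ^ 2 * ζ ^ 2 * (2 ^ 2 / (ζ ^ 2 * (1 - w ^ 2) ^ 2))
      = (4 * w ^ 2 * ζ ^ 2) / ((1 - w ^ 2) ^ 2 * ζ ^ 2) := by
    rw [mul_div_assoc']
    congr 1
    · ring
    · ring
  rw [e3, mul_div_mul_right _ _ (pow_ne_zero 2 h0)]

end

/-- data of a pair (target, observer) -/
structure Pr (x θ : ℝ) (z0 : ℂ) : Prop where
  x0 : 0 < x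
  x1 : x ≤ 1 / 4
  z1 : ‖z0‖ ≤ Real.exp (-2 * x)

section

variable {x θ : ℝ} {z0 : ℂ}

/-- the rotated observer -/
noncomputable def rw0 (θ : ℝ) (z0 : ℂ) : ℂ := z0 * Complex.exp (-(θ * I))

theorem rw0_mul (θ : ℝ) (z0 : ℂ) : rw0 θ z0 * Complex.exp (θ * I) = z0 := by
  rw [rw0, mul_assoc, ← Complex.exp_add]
  simp

theorem norm_rw0 (θ : ℝ) (z0 : ℂ) : ‖rw0 θ z0‖ = ‖z0‖ := by
  rw [rw0, norm_mul, Complex.norm_exp]
  simp

theorem norm_one_sub_rw0 (θ : ℝ) (z0 : ℂ) :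
    ‖1 - rw0 θ z0‖ = ‖Complex.exp (θ * I) - z0‖ := by
  have h1 : Complex.exp (θ * I) - z0 = (1 - rw0 θ z0) * Complex.exp (θ * I) := by
    rw [sub_mul, one_mul, rw0_mul]
  rw [h1, norm_mul, Complex.norm_exp_ofReal_mul_I, mul_one]

theorem ep_eq (x θ : ℝ) : ep (-x) θ = ((Real.exp (-x) : ℝ) : ℂ) * Complex.exp (θ * I) := by
  rw [ep, Complex.exp_add, Complex.ofReal_exp]

theorem Pr.q1 (h : Pr x θ z0) : Real.exp (-x) < 1 := by
  rw [Real.exp_lt_one_iff]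
  linarith [h.x0]

theorem Pr.qx (h : Pr x θ z0) : 1 - x ≤ Real.exp (-x) := by
  have := Real.add_one_le_exp (-x)
  linarith

theorem Pr.qh (h : Pr x θ z0) : 1 / 2 ≤ Real.exp (-x) := by
  linarith [h.qx, h.x1]

theorem Pr.w1 (h : Pr x θ z0) : ‖rw0 θ z0‖ ≤ Real.exp (-x) ^ 2 := by
  rw [norm_rw0, ← Real.exp_nat_mul]
  refine h.z1.trans (le_of_eq ?_)
  congr 1
  push_cast
  ring

theorem Pr.wlt (h : Pr x θ z0) : ‖rw0 θ z0‖ < 1 := by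
  have h1 := h.w1
  have h2 := h.q1
  have h3 := Real.exp_pos (-x)
  nlinarith

theorem Pr.d0 (h : Pr x θ z0) : 0 < ‖Complex.exp (θ * I) - z0‖ := by
  rw [← norm_one_sub_rw0]
  exact ker_d1 h.wlt

/-- `(1 - q) / x` is close to `1` -/
theorem Pr.ratio (h : Pr x θ z0) :
    |(1 - Real.exp (-x)) / x - 1| ≤ 1 - Real.exp (-x) := by
  have hx := h.x0
  have h1 := h.qx
  have h2 : x * Real.exp (-x) ≤ 1 - Real.exp (-x) := by
    have h3 : 1 + x ≤ Real.exp x := by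
      have := Real.add_one_le_exp x
      linarith
    have h4 : (1 + x) * Real.exp (-x) ≤ 1 := by
      calc (1 + x) * Real.exp (-x) ≤ Real.exp x * Real.exp (-x) := by
            have := Real.exp_pos (-x)
            gcongr
        _ = 1 := by rw [← Real.exp_add]; simp
    linarith
  rw [abs_le]
  constructor
  · have : Real.exp (-x) ≤ (1 - Real.exp (-x)) / x := by
      rw [le_div_iff₀ hx]
      linarith
    linarith
  · have : (1 - Real.exp (-x)) / x ≤ 1 := by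
      rw [div_le_one hx]
      linarith
    linarith [h.q1]

/-- the cubic error -/
noncomputable def Er (x θ : ℝ) (z0 : ℂ) : ℝ :=
  x * ((1 / (1 - ‖z0‖)) / ‖Complex.exp (θ * I) - z0‖ ^ 2)

theorem Pr.zlt (h : Pr x θ z0) : ‖z0‖ < 1 := by
  have := h.wlt
  rwa [norm_rw0] at this

theorem Pr.er_nn (h : Pr x θ z0) : 0 ≤ Er x θ z0 := by
  have h1 := h.zlt
  have h2 := h.x0
  have h3 : 0 ≤ 1 / (1 - ‖z0‖) := by
    apply div_nonneg one_pos.le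
    linarith
  unfold Er
  positivity

theorem Pr.er (h : Pr x θ z0) :
    (1 - Real.exp (-x)) / ‖1 - rw0 θ z0‖ ^ 3 ≤ Er x θ z0 := by
  have h1 := h.zlt
  have h2 := h.x0
  have h3 : 0 < 1 - ‖z0‖ := by linarith
  have h4 : 1 - ‖z0‖ ≤ ‖Complex.exp (θ * I) - z0‖ := by
    have := norm_sub_norm_le (Complex.exp (θ * I)) z0
    rwa [Complex.norm_exp_ofReal_mul_I] at this
  have h5 := h.d0
  rw [norm_one_sub_rw0, Er, div_div, mul_one_div]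
  have h6 : 1 - Real.exp (-x) ≤ x := by linarith [h.qx]
  rw [div_le_div_iff₀ (by positivity) (by positivity)]
  have h7 : 0 ≤ 1 - Real.exp (-x) := by linarith [h.q1]
  calc (1 - Real.exp (-x)) * ((1 - ‖z0‖) * ‖Complex.exp (θ * I) - z0‖ ^ 2)
      ≤ x * (‖Complex.exp (θ * I) - z0‖ * ‖Complex.exp (θ * I) - z0‖ ^ 2) := by gcongr
    _ = x * ‖Complex.exp (θ * I) - z0‖ ^ 3 := by ring

/-- the model kernel -/
noncomputable def Kw (θ : ℝ) (z0 : ℂ) : ℂ := rw0 θ z0 / (1 - rw0 θ z0) ^ 2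

theorem Pr.k1_le (h : Pr x θ z0) :
    ‖k1 (ep (-x) θ) z0 - 2 * Kw θ z0‖ ≤ 39 * Er x θ z0 := by
  have h1 := ker_k1 h.qh h.q1 h.w1
  have h2 := ker_k2 h.qh h.q1 h.w1
  have h3 := h.er
  have h4 : k1 (ep (-x) θ) z0 - 2 * Kw θ z0
      = (((Real.exp (-x) : ℝ) : ℂ) * rw0 θ z0 / (((Real.exp (-x) : ℝ) : ℂ) - rw0 θ z0) ^ 2
          - rw0 θ z0 / (1 - rw0 θ z0) ^ 2)
        + (((Real.exp (-x) : ℝ) : ℂ) * rw0 θ z0 / (1 - ((Real.exp (-x) : ℝ) : ℂ) * rw0 θ z0) ^ 2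
          - rw0 θ z0 / (1 - rw0 θ z0) ^ 2) := by
    have h5 := k1_rot (ζ := Complex.exp (θ * I)) (w := rw0 θ z0) (q := Real.exp (-x))
      (Complex.norm_exp_ofReal_mul_I θ)
    rw [rw0_mul, ← ep_eq] at h5
    rw [h5, Kw]
    ring
  rw [h4]
  refine (norm_add_le _ _).trans ?_
  have h6 : 27 * (1 - Real.exp (-x)) / ‖1 - rw0 θ z0‖ ^ 3 ≤ 27 * Er x θ z0 := by
    rw [mul_div_assoc]
    gcongr
  have h7 : 12 * (1 - Real.exp (-x)) / ‖1 - rw0 θ z0‖ ^ 3 ≤ 12 * Er x θ z0 := by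
    rw [mul_div_assoc]
    gcongr
  linarith

theorem Pr.sq_le (h : Pr x θ z0) :
    (1 - Real.exp (-x)) * (12 / ‖1 - rw0 θ z0‖ ^ 2) ≤ 24 * Er x θ z0 := by
  have h1 := h.er
  have h2 : 0 < ‖1 - rw0 θ z0‖ := ker_d1 h.wlt
  have h3 : ‖1 - rw0 θ z0‖ ≤ 2 := by
    have := norm_sub_le (1 : ℂ) (rw0 θ z0)
    rw [norm_one] at this
    linarith [h.wlt]
  have h4 : 0 ≤ 1 - Real.exp (-x) := by linarith [h.q1]
  have h5 : (1 - Real.exp (-x)) * (12 / ‖1 - rw0 θ z0‖ ^ 2)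
      = 12 * ‖1 - rw0 θ z0‖ * ((1 - Real.exp (-x)) / ‖1 - rw0 θ z0‖ ^ 3) := by
    field_simp
  rw [h5]
  calc 12 * ‖1 - rw0 θ z0‖ * ((1 - Real.exp (-x)) / ‖1 - rw0 θ z0‖ ^ 3)
      ≤ 12 * 2 * Er x θ z0 := by gcongr
    _ = 24 * Er x θ z0 := by ring

theorem Pr.k3_eq (h : Pr x θ z0) : k3 (ep (-x) θ) z0
    = (1 - ((Real.exp (-x) : ℝ) : ℂ)) * (rw0 θ z0 * (1 + ((Real.exp (-x) : ℝ) : ℂ)) /
      ((((Real.exp (-x) : ℝ) : ℂ) - rw0 θ z0) * (1 - ((Real.exp (-x) : ℝ) : ℂ) * rw0 θ z0))) := by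
  have h5 := k3_rot (ζ := Complex.exp (θ * I)) (w := rw0 θ z0) (q := Real.exp (-x))
    (Complex.norm_exp_ofReal_mul_I θ) (Real.exp_pos _).le
  rw [rw0_mul, ← ep_eq] at h5
  exact h5

theorem Pr.k3_le (h : Pr x θ z0) : ‖k3 (ep (-x) θ) z0‖ ≤ 24 * Er x θ z0 := by
  rw [h.k3_eq, norm_mul]
  have h1 := ker_k3_le h.qh h.q1 h.w1
  have h2 : ‖(1 : ℂ) - ((Real.exp (-x) : ℝ) : ℂ)‖ = 1 - Real.exp (-x) := by
    have : (1 : ℂ) - ((Real.exp (-x) : ℝ) : ℂ) = ((1 - Real.exp (-x) : ℝ) : ℂ) := by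
      push_cast
      ring
    rw [this, Complex.norm_real, Real.norm_of_nonneg (by linarith [h.q1])]
  rw [h2]
  have h4 : 0 ≤ 1 - Real.exp (-x) := by linarith [h.q1]
  exact (mul_le_mul_of_nonneg_left h1 h4).trans h.sq_le

theorem Pr.k3_div (h : Pr x θ z0) :
    ‖k3 (ep (-x) θ) z0 / x - 2 * Kw θ z0‖ ≤ 48 * Er x θ z0 := by
  have hx := h.x0
  set T : ℂ := rw0 θ z0 * (1 + ((Real.exp (-x) : ℝ) : ℂ)) /
      ((((Real.exp (-x) : ℝ) : ℂ) - rw0 θ z0) * (1 - ((Real.exp (-x) : ℝ) : ℂ) * rw0 θ z0)) with hT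
  have h1 := ker_k3_le h.qh h.q1 h.w1
  have h2 := ker_k3 h.qh h.q1 h.w1
  have h3 : k3 (ep (-x) θ) z0 / x - 2 * Kw θ z0
      = (((1 - Real.exp (-x)) / x - 1 : ℝ) : ℂ) * T + (T - 2 * Kw θ z0) := by
    rw [h.k3_eq, ← hT]
    push_cast
    ring
  rw [h3]
  refine (norm_add_le _ _).trans ?_
  have h4 : ‖(((1 - Real.exp (-x)) / x - 1 : ℝ) : ℂ) * T‖ ≤ 24 * Er x θ z0 := by
    rw [norm_mul, Complex.norm_real, Real.norm_eq_abs]
    have h5 : 0 ≤ 1 - Real.exp (-x) := by linarith [h.q1]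
    calc |(1 - Real.exp (-x)) / x - 1| * ‖T‖
        ≤ (1 - Real.exp (-x)) * (12 / ‖1 - rw0 θ z0‖ ^ 2) := by
          have := h.ratio
          gcongr
      _ ≤ 24 * Er x θ z0 := h.sq_le
  have h5 : ‖T - 2 * Kw θ z0‖ ≤ 24 * Er x θ z0 := by
    refine h2.trans ?_
    rw [mul_div_assoc]
    have := h.er
    gcongr
  linarith

theorem Pr.k5_le (h : Pr x θ z0) :
    ‖k5 (ep (-x) θ) z0‖ ≤ 12 * (1 / ‖Complex.exp (θ * I) - z0‖) := by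
  have h5 := k5_rot (ζ := Complex.exp (θ * I)) (w := rw0 θ z0) (q := Real.exp (-x))
    (Complex.norm_exp_ofReal_mul_I θ)
  rw [rw0_mul, ← ep_eq] at h5
  have h6 := ker_k5 h.qh h.q1 h.w1
  rw [h5, norm_mul, ← norm_one_sub_rw0]
  have h7 : ‖I / 2‖ = 1 / 2 := by simp
  rw [h7]
  calc 1 / 2 * ‖_‖ ≤ 1 / 2 * (24 / ‖1 - rw0 θ z0‖) := by gcongr
    _ = 12 * (1 / ‖1 - rw0 θ z0‖) := by ring

theorem omp_sq (θ : ℝ) (z0 : ℂ) :
    z0 ^ 2 * omp θ z0 ^ 2 = 4 * rw0 θ z0 ^ 2 / (1 - rw0 θ z0 ^ 2) ^ 2 := by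
  have h := omp_rot (ζ := Complex.exp (θ * I)) (w := rw0 θ z0) (Complex.norm_exp_ofReal_mul_I θ)
  rw [rw0_mul] at h
  exact h

theorem Pr.om (h : Pr x θ z0) (hre : 0 ≤ (rw0 θ z0).re) :
    ‖Kw θ z0 - z0 ^ 2 * omp θ z0 ^ 2‖ ≤ 1 := by
  rw [omp_sq, Kw]
  exact ker_om h.wlt hre

/-- size of `omp` -/
theorem Pr.omp_le (h : Pr x θ z0) (hre : 0 ≤ (rw0 θ z0).re) :
    ‖omp θ z0‖ ^ 2 ≤ 1 / ‖Complex.exp (θ * I) - z0‖ ^ 2
      + 2 * (1 / ‖Complex.exp (θ * I) - z0‖) + 1 := by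
  have h1 := h.d0
  set ζ : ℂ := Complex.exp (θ * I) with hζ
  have h2 : 1 ≤ ‖ζ + z0‖ := by
    have h3 : ζ + z0 = (1 + rw0 θ z0) * ζ := by
      rw [add_mul, one_mul, hζ, rw0_mul]
    rw [h3, norm_mul, hζ, Complex.norm_exp_ofReal_mul_I, mul_one]
    have h4 : (1 + rw0 θ z0).re ≤ ‖1 + rw0 θ z0‖ := Complex.re_le_norm _
    rw [Complex.add_re, Complex.one_re] at h4
    linarith
  have h3 : ζ - z0 ≠ 0 := norm_pos_iff.mp h1
  have h4 : ζ + z0 ≠ 0 := by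
    rw [← norm_pos_iff]
    linarith
  have h5 : omp θ z0 = 1 / (ζ - z0) + 1 / (ζ + z0) := by
    rw [omp, ← hζ, div_add_div _ _ h3 h4]
    congr 1
    · ring
    · ring
  have h6 : ‖omp θ z0‖ ≤ 1 / ‖ζ - z0‖ + 1 := by
    rw [h5]
    refine (norm_add_le _ _).trans ?_
    rw [norm_div, norm_div, norm_one]
    have : 1 / ‖ζ + z0‖ ≤ 1 := by
      rw [div_le_one (by linarith)]
      exact h2
    linarith
  calc ‖omp θ z0‖ ^ 2 ≤ (1 / ‖ζ - z0‖ + 1) ^ 2 := by gcongr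
    _ = 1 / ‖ζ - z0‖ ^ 2 + 2 * (1 / ‖ζ - z0‖) + 1 := by
      rw [add_sq, div_pow, one_pow]
      ring

/-- the real part of the rotated observer is positive near `1` -/
theorem rw0_re (hθ : |θ| ≤ 1 / 2) (hz : ‖z0 - 1‖ ≤ 1 / 2) : 0 ≤ (rw0 θ z0).re := by
  have h1 : rw0 θ z0 = Complex.exp (((-θ : ℝ) : ℂ) * I)
      + (z0 - 1) * Complex.exp (((-θ : ℝ) : ℂ) * I) := by
    rw [rw0]
    push_cast
    rw [neg_mul]
    ring
  have h2 : (Complex.exp (((-θ : ℝ) : ℂ) * I)).re = Real.cos θ := by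
    rw [Complex.exp_ofReal_mul_I_re, Real.cos_neg]
  have h3 : -(1 / 2 : ℝ) ≤ ((z0 - 1) * Complex.exp (((-θ : ℝ) : ℂ) * I)).re := by
    have h4 := Complex.abs_re_le_norm ((z0 - 1) * Complex.exp (((-θ : ℝ) : ℂ) * I))
    rw [norm_mul, Complex.norm_exp_ofReal_mul_I, mul_one] at h4
    have h5 := neg_abs_le ((z0 - 1) * Complex.exp (((-θ : ℝ) : ℂ) * I)).re
    linarith
  have h6 : 1 / 2 ≤ Real.cos θ := by
    have h7 := Real.one_sub_sq_div_two_le_cos (x := θ)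
    have h8 : θ ^ 2 ≤ 1 / 4 := by
      rw [← sq_abs]
      nlinarith [abs_nonneg θ]
    linarith
  rw [h1, Complex.add_re, h2]
  linarith

end

end Pool.Agent.Helper14.CK
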