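import Pool.Agent.Helper14.CK.MMain

/-!
MINT: the interface `MIntStmt` of project CK.
-/

set_option autoImplicit false

open Complex MeasureTheory Metric Set Filter Topology
open scoped Real ComplexConjugate

namespace Pool.Agent.Helper14.CK

open Pool.Agent.Helper39.Area Pool.Agent.Helper52.EK Pool.Agent.Helper52.CK

section

variable {κ dl a b : ℝ} {W0 : ℂ → ℝ} {Mh β : ℂ → ℂ} {om om' u u' : ℝ → ℝ}

/-- the rectangle times the observers -/
def Rp (a b : ℝ) : Set (ℂ × (ℝ × ℝ)) := Ob b ×ˢ Rect a b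

theorem rp_sub (a b : ℝ) : Rp a b ⊆ Sp a b :=
  prod_mono subset_rfl (prod_mono subset_rfl (subset_univ _))

theorem isCompact_rp (a b : ℝ) : IsCompact (Rp a b) := (isCompact_ob b).prod (isCompact_rect a b)

theorem cont_FFs (h : Ext β) (ha : 0 < a) (κ : ℝ) :
    ContinuousOn (fun s : ℂ × (ℝ × ℝ) => FF κ β s.2.1 s.2.2) (Sp a b) := by
  apply (cont_FF h κ).comp continuous_snd.continuousOn
  intro s hs
  exact lt_of_lt_of_le ha hs.2.1.1

theorem cont_ofReal {f : ℂ × (ℝ × ℝ) → ℝ} {S : Set (ℂ × (ℝ × ℝ))} (hf : ContinuousOn f S) :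
    ContinuousOn (fun s => ((f s : ℝ) : ℂ)) S := Complex.continuous_ofReal.comp_continuousOn hf

theorem cont_Ei (h : Ext β) (ha : 0 < a) (hb : 0 < b) (hom : Continuous om)
    (hom' : Continuous om') (hu : Continuous u) (hu' : Continuous u') :
    ContinuousOn (Ei κ om om' u u' β) (Sp a b) := by
  have h1 := cont_ofReal (cont_FFs (b := b) h ha κ)
  have h2 := cont_kA h ha hb
  have h3 := cont_k1 ha hb
  have h4 := cont_k3 ha hb
  have h5 := cont_k5 ha hb
  have c1 : Continuous fun s : ℂ × (ℝ × ℝ) => om s.2.1 := hom.comp (by fun_prop)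
  have c2 : Continuous fun s : ℂ × (ℝ × ℝ) => om' s.2.1 := hom'.comp (by fun_prop)
  have c3 : Continuous fun s : ℂ × (ℝ × ℝ) => u s.2.2 := hu.comp (by fun_prop)
  have c4 : Continuous fun s : ℂ × (ℝ × ℝ) => u' s.2.2 := hu'.comp (by fun_prop)
  unfold Ei
  apply h1.mul
  apply ContinuousOn.add
  · apply ContinuousOn.add
    · apply ContinuousOn.add
      · apply ContinuousOn.mul
        · exact cont_ofReal (continuous_const.mul (c1.mul c3)).continuousOn
        · apply continuousOn_const.sub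
          exact ContinuousOn.mul (by fun_prop) h2
      · exact (cont_ofReal (continuous_const.mul (c1.mul c3)).continuousOn).mul h3
    · exact (cont_ofReal ((continuous_const.mul (c1.mul c3)).add (c2.mul c3)).continuousOn).mul h4
  · exact (cont_ofReal (c1.mul c4).continuousOn).mul h5

theorem cont_D1 (ha : 0 < a) (hb : 0 < b) : ContinuousOn (D1 κ dl) (Sp a b) := by
  have h3 := cont_k1 ha hb
  have h4 := cont_k3 ha hb
  have h6 := cont_omp (a := a) hb
  have hx : ContinuousOn (fun s : ℂ × (ℝ × ℝ) => ((s.2.1 : ℝ) : ℂ)) (Sp a b) :=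
    cont_ofReal (by fun_prop)
  unfold D1
  apply ContinuousOn.sub
  · apply ContinuousOn.add
    · apply ContinuousOn.add
      · exact continuousOn_const.add (continuousOn_const.mul h3)
      · exact continuousOn_const.mul h4
    · apply continuousOn_const.mul
      apply h4.div hx
      intro s hs
      have : s.2.1 ≠ 0 := (lt_of_lt_of_le ha hs.2.1.1).ne'
      exact_mod_cast this
  · apply continuousOn_const.mul
    exact ContinuousOn.mul (by fun_prop) (h6.pow 2)

theorem cont_Qi (h : Ext β) (ha : 0 < a) (hb : 0 < b) (hom : Continuous om)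
    (hom' : Continuous om') (hu : Continuous u) (hu' : Continuous u') :
    ContinuousOn (Qi κ dl om om' u u' β) (Sp a b) := by
  have h1 := cont_ofReal (cont_FFs (b := b) h ha κ)
  have h4 := cont_k3 ha hb
  have h5 := cont_k5 ha hb
  have h6 := cont_D1 (κ := κ) (dl := dl) ha hb
  have c0 : Continuous fun s : ℂ × (ℝ × ℝ) => s.2.1 := by fun_prop
  have c1 : Continuous fun s : ℂ × (ℝ × ℝ) => om s.2.1 := hom.comp (by fun_prop)
  have c2 : Continuous fun s : ℂ × (ℝ × ℝ) => om' s.2.1 := hom'.comp (by fun_prop)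
  have c3 : Continuous fun s : ℂ × (ℝ × ℝ) => u s.2.2 := hu.comp (by fun_prop)
  have c4 : Continuous fun s : ℂ × (ℝ × ℝ) => u' s.2.2 := hu'.comp (by fun_prop)
  have hx : ContinuousOn (fun s : ℂ × (ℝ × ℝ) => ((s.2.1 : ℝ) : ℂ)) (Sp a b) :=
    cont_ofReal (by fun_prop)
  unfold Qi
  apply h1.mul
  apply ContinuousOn.add
  · apply ContinuousOn.sub
    · exact (cont_ofReal (c1.mul c3).continuousOn).mul h6
    · apply ContinuousOn.mul
      · exact cont_ofReal (((continuous_const.mul c1).sub (c0.mul c2)).mul c3).continuousOn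
      · apply h4.div hx
        intro s hs
        have : s.2.1 ≠ 0 := (lt_of_lt_of_le ha hs.2.1.1).ne'
        exact_mod_cast this
  · exact (cont_ofReal (c1.mul c4).continuousOn).mul h5

/-- complex iterated integral -/
theorem rect_eqC {f : ℝ × ℝ → ℂ} (hab : a ≤ b) (hf : ContinuousOn f (Rect a b)) :
    ∫ p in Rect a b, f p = ∫ x in a..b, ∫ θ in (-π)..π, f (x, θ) := by
  have hπ : -π ≤ π := by linarith [Real.pi_pos]
  have h1 := integrableOn_rectC hf
  rw [Measure.volume_eq_prod] at h1 ⊢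
  rw [Rect, setIntegral_prod _ h1, intervalIntegral.integral_of_le hab, integral_Icc_eq_integral_Ioc]
  refine setIntegral_congr_fun measurableSet_Ioc fun x _ => ?_
  show ∫ y in Icc (-π) π, f (x, y) = ∫ θ in (-π)..π, f (x, θ)
  rw [intervalIntegral.integral_of_le hπ, integral_Icc_eq_integral_Ioc]

theorem fub_int {f : ℂ × (ℝ × ℝ) → ℝ} (hf : ContinuousOn f (Rp a b)) :
    Integrable (Function.uncurry fun (p : ℝ × ℝ) (z0 : ℂ) => f (z0, p))
      ((volume.restrict (Rect a b)).prod (volume.restrict (Ob b))) := by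
  rw [Measure.prod_restrict]
  have h1 : ContinuousOn (fun s : (ℝ × ℝ) × ℂ => f (s.2, s.1)) (Rect a b ×ˢ Ob b) :=
    hf.comp (f := fun s : (ℝ × ℝ) × ℂ => (s.2, s.1)) (by fun_prop) fun s hs => ⟨hs.2, hs.1⟩
  exact h1.integrableOn_compact (μ := (volume : Measure (ℝ × ℝ)).prod (volume : Measure ℂ))
    ((isCompact_rect a b).prod (isCompact_ob b))

/-- **MINT** -/
theorem mint (hκ : 0 < κ) (hdl : 0 ≤ dl) : MIntStmt κ dl := by
  intro Mb hMb0
  set c1 : ℝ := 9 * Mb / (4 * κ) *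
    ((5 * κ + 2 * dl) + 4 * (39 * (κ + 2) + 24 * κ + 48 * (κ + 2 + dl))) with hc1
  have hc10 : 0 ≤ c1 := by positivity
  refine ⟨c1 + 882 + Mb / κ * 108 + 9 * Mb / (4 * κ), by positivity, ?_⟩
  set C1 : ℝ := c1 + 882 + Mb / κ * 108 + 9 * Mb / (4 * κ) with hC1
  have hA1 : 0 ≤ Mb / κ * 108 := by positivity
  have hA2 : 0 ≤ 9 * Mb / (4 * κ) := by positivity
  have hC1a : c1 ≤ C1 := by linarith
  have hC1b : 882 ≤ C1 := by linarith
  have hC1c : Mb / κ * 108 ≤ C1 := by linarith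
  have hC1d : 9 * Mb / (4 * κ) ≤ C1 := by linarith
  intro om om' u u' a b hwt husupp β R η hR hη hE W0 Mh hW hM hMb
  have hext : Ext β := hR.toExt
  have ha := hwt.a0
  have hab := hwt.ab
  have hb : 0 < b := ha.trans hab
  have hb1 := hwt.b1
  have hom : Continuous om := continuous_iff_continuousAt.mpr fun x => (hwt.dom x).continuousAt
  have hu : Continuous u := continuous_iff_continuousAt.mpr fun x => (hwt.du x).continuousAt
  have hom' := hwt.com
  have hu' := hwt.cu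
  have hpi := Real.pi_pos
  have hrx : ∀ p ∈ Rect a b, 0 < p.1 := fun p hp => lt_of_lt_of_le ha hp.1.1
  -- continuity on the rectangle
  have cF : ContinuousOn (fun p : ℝ × ℝ => FF κ β p.1 p.2) (Rect a b) :=
    (cont_FF hext κ).mono hrx
  have cMM : ContinuousOn (fun p : ℝ × ℝ => MM κ dl W0 Mh β p.1 p.2) (Rect a b) :=
    MM_contOn hext ha hb hW hM _ _
  have co : Continuous fun p : ℝ × ℝ => om p.1 := hom.comp continuous_fst
  have co' : Continuous fun p : ℝ × ℝ => om' p.1 := hom'.comp continuous_fst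
  have cu : Continuous fun p : ℝ × ℝ => u p.2 := hu.comp continuous_snd
  have cu' : Continuous fun p : ℝ × ℝ => u' p.2 := hu'.comp continuous_snd
  have cL : ContinuousOn (fun p : ℝ × ℝ => om p.1 * u p.2 * FF κ β p.1 p.2 *
      MM κ dl W0 Mh β p.1 p.2) (Rect a b) := ((co.mul cu).continuousOn.mul cF).mul cMM
  have cJ : ContinuousOn (fun p : ℝ × ℝ => om p.1 * u p.2 * FF κ β p.1 p.2) (Rect a b) :=
    (co.mul cu).continuousOn.mul cF
  have cS : ContinuousOn (fun p : ℝ × ℝ =>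
      |(κ - 2 + dl) * om p.1 - p.1 * om' p.1| * u p.2 * FF κ β p.1 p.2) (Rect a b) :=
    ((((continuous_const.mul co).sub (continuous_fst.mul co')).abs.mul cu).continuousOn).mul cF
  have cT : ContinuousOn (fun p : ℝ × ℝ => om p.1 * |u' p.2| * FF κ β p.1 p.2) (Rect a b) :=
    ((co.mul cu'.abs).continuousOn).mul cF
  have hL : RR a b (fun x θ => om x * u θ * FF κ β x θ * MM κ dl W0 Mh β x θ)
      = ∫ p in Rect a b, om p.1 * u p.2 * FF κ β p.1 p.2 * MM κ dl W0 Mh β p.1 p.2 :=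
    (rect_eq hab.le cL).symm
  have hJ : JJ κ om u a b β = ∫ p in Rect a b, om p.1 * u p.2 * FF κ β p.1 p.2 :=
    (rect_eq hab.le cJ).symm
  have hS : RR a b (fun x θ => |(κ - 2 + dl) * om x - x * om' x| * u θ * FF κ β x θ)
      = ∫ p in Rect a b, |(κ - 2 + dl) * om p.1 - p.1 * om' p.1| * u p.2 * FF κ β p.1 p.2 :=
    (rect_eq hab.le cS).symm
  have hT : RR a b (fun x θ => om x * |u' θ| * FF κ β x θ)
      = ∫ p in Rect a b, om p.1 * |u' p.2| * FF κ β p.1 p.2 :=
    (rect_eq hab.le cT).symm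
  rw [hL, hJ, hS, hT]
  -- continuity on observers times rectangle
  have cC : ContinuousOn (fun s : ℂ × (ℝ × ℝ) => Cm κ W0 Mh s.1) (Rp a b) :=
    (Cm_cont hκ hb hW hM).comp continuous_fst.continuousOn fun s hs => hs.1
  have cE : ContinuousOn (Ei κ om om' u u' β) (Rp a b) :=
    (cont_Ei hext ha hb hom hom' hu hu').mono (rp_sub a b)
  have cQ : ContinuousOn (Qi κ dl om om' u u' β) (Rp a b) :=
    (cont_Qi hext ha hb hom hom' hu hu').mono (rp_sub a b)
  have cCE : ContinuousOn (fun s => (Cm κ W0 Mh s.1 * Ei κ om om' u u' β s).re) (Rp a b) :=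
    Complex.continuous_re.comp_continuousOn (cC.mul cE)
  have cCQ : ContinuousOn (fun s => (Cm κ W0 Mh s.1 * Qi κ dl om om' u u' β s).re) (Rp a b) :=
    Complex.continuous_re.comp_continuousOn (cC.mul cQ)
  have hOm : MeasurableSet (Ob b) := (isClosed_ob b).measurableSet
  have slice : ∀ (f : ℂ × (ℝ × ℝ) → ℝ), ContinuousOn f (Rp a b) → ∀ p ∈ Rect a b,
      IntegrableOn (fun z0 => f (z0, p)) (Ob b) := by
    intro f hf p hp
    apply ContinuousOn.integrableOn_compact (isCompact_ob b)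
    exact hf.comp (by fun_prop) fun z hz => ⟨hz, hp⟩
  -- the two integrands
  obtain ⟨gE, hgE⟩ : ∃ g : ℂ × (ℝ × ℝ) → ℝ, g = fun s =>
    (Cm κ W0 Mh s.1 * Ei κ om om' u u' β s).re := ⟨_, rfl⟩
  obtain ⟨gQ, hgQ⟩ : ∃ g : ℂ × (ℝ × ℝ) → ℝ, g = fun s =>
    (Cm κ W0 Mh s.1 * Qi κ dl om om' u u' β s).re := ⟨_, rfl⟩
  rw [← hgE] at cCE
  rw [← hgQ] at cCQ
  have sE : ∀ p ∈ Rect a b, IntegrableOn (fun z0 => gE (z0, p)) (Ob b) := slice _ cCE
  have sQ : ∀ p ∈ Rect a b, IntegrableOn (fun z0 => gQ (z0, p)) (Ob b) := slice _ cCQ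
  -- the pointwise identity
  have hpt : ∀ p ∈ Rect a b, om p.1 * u p.2 * FF κ β p.1 p.2 * MM κ dl W0 Mh β p.1 p.2
      = -(∫ z0 in Ob b, gE (z0, p)) + ∫ z0 in Ob b, gQ (z0, p) := by
    intro p hp
    have e1 : om p.1 * u p.2 * FF κ β p.1 p.2 * MM κ dl W0 Mh β p.1 p.2
        = ∫ z0 in Ob b, om p.1 * u p.2 * FF κ β p.1 p.2 * (π⁻¹ * gM κ dl W0 Mh β (z0, p)) := by
      rw [integral_const_mul, integral_const_mul, MM_ob hW]
    have e2 : ∫ z0 in Ob b, om p.1 * u p.2 * FF κ β p.1 p.2 * (π⁻¹ * gM κ dl W0 Mh β (z0, p))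
        = ∫ z0 in Ob b, (-gE (z0, p) + gQ (z0, p)) := by
      apply setIntegral_congr_fun hOm
      intro z0 hz
      rw [hgE, hgQ]
      exact re_id hκ om om' u u' (s := (z0, p)) (hrx p hp).ne' hz
    have e3 : ∫ z0 in Ob b, (-gE (z0, p) + gQ (z0, p))
        = (∫ z0 in Ob b, -gE (z0, p)) + ∫ z0 in Ob b, gQ (z0, p) :=
      integral_add (sE p hp).neg (sQ p hp)
    rw [e1, e2, e3, integral_neg]
  -- Fubini
  have hIE := fub_int cCE
  have hIQ := fub_int cCQ
  have iE : Integrable (fun p => ∫ z0 in Ob b, gE (z0, p)) (volume.restrict (Rect a b)) :=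
    hIE.integral_prod_left
  have iQ : Integrable (fun p => ∫ z0 in Ob b, gQ (z0, p)) (volume.restrict (Rect a b)) :=
    hIQ.integral_prod_left
  have hsplit : ∫ p in Rect a b, om p.1 * u p.2 * FF κ β p.1 p.2 * MM κ dl W0 Mh β p.1 p.2
      = -(∫ p in Rect a b, ∫ z0 in Ob b, gE (z0, p))
        + ∫ p in Rect a b, ∫ z0 in Ob b, gQ (z0, p) := by
    have e1 : ∫ p in Rect a b, om p.1 * u p.2 * FF κ β p.1 p.2 * MM κ dl W0 Mh β p.1 p.2
        = ∫ p in Rect a b, (-(∫ z0 in Ob b, gE (z0, p)) + ∫ z0 in Ob b, gQ (z0, p)) := by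
      apply setIntegral_congr_fun (measurableSet_rect a b)
      intro p hp
      exact hpt p hp
    have e2 : ∫ p in Rect a b, (-(∫ z0 in Ob b, gE (z0, p)) + ∫ z0 in Ob b, gQ (z0, p))
        = (∫ p in Rect a b, -(∫ z0 in Ob b, gE (z0, p)))
          + ∫ p in Rect a b, ∫ z0 in Ob b, gQ (z0, p) := integral_add iE.neg iQ
    rw [e1, e2, integral_neg]
  -- the critical part
  have hcrit : |∫ p in Rect a b, ∫ z0 in Ob b, gE (z0, p)| ≤ 9 * Mb / (4 * κ) * η := by
    rw [integral_integral_swap hIE]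
    have h1 : ∀ z0 ∈ Ob b, ‖∫ p in Rect a b, gE (z0, p)‖ ≤ 9 * Mb / (4 * π * κ) * η := by
      intro z0 hz
      rw [hgE]
      have c0 : ContinuousOn (fun p => Ei κ om om' u u' β (z0, p)) (Rect a b) :=
        cE.comp (by fun_prop) fun p hp => ⟨hz, hp⟩
      have hi0 : IntegrableOn (fun p => Cm κ W0 Mh z0 * Ei κ om om' u u' β (z0, p))
          (Rect a b) := integrableOn_rectC (continuousOn_const.mul c0)
      have e1 : ∫ p in Rect a b, (Cm κ W0 Mh z0 * Ei κ om om' u u' β (z0, p)).re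
          = (Cm κ W0 Mh z0 * EE κ om om' u u' a b β z0).re := by
        have e2 : EE κ om om' u u' a b β z0 = ∫ p in Rect a b, Ei κ om om' u u' β (z0, p) :=
          (rect_eqC hab.le c0).symm
        rw [e2, ← integral_const_mul]
        exact integral_re hi0
      rw [e1]
      have h2 := Cm_le hκ hW hMb hz
      have h3 := hE z0 hz.1 hz.2.1
      have h4 := ob_inv hz
      calc ‖(Cm κ W0 Mh z0 * EE κ om om' u u' a b β z0).re‖
          ≤ ‖Cm κ W0 Mh z0 * EE κ om om' u u' a b β z0‖ := by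
            rw [Real.norm_eq_abs]
            exact Complex.abs_re_le_norm _
        _ = ‖Cm κ W0 Mh z0‖ * ‖EE κ om om' u u' a b β z0‖ := norm_mul _ _
        _ ≤ (Mb / (4 * π * κ) * (1 / ‖z0‖ ^ 2)) * η := by gcongr
        _ ≤ (Mb / (4 * π * κ) * 9) * η := by gcongr
        _ = 9 * Mb / (4 * π * κ) * η := by ring
    have h2 := norm_setIntegral_le_of_norm_le_const (μ := volume) (s := Ob b)
      (isCompact_ob b).measure_lt_top h1
    rw [Real.norm_eq_abs] at h2
    refine h2.trans ?_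
    have h3 : (volume : Measure ℂ).real (Ob b) ≤ π := by
      have h4 : (volume : Measure ℂ).real (Ob b) ≤ (volume : Measure ℂ).real (ball (0:ℂ) 1) := by
        apply measureReal_mono _ measure_ball_lt_top.ne
        intro z hz
        rw [mem_ball, dist_zero_right]
        exact ob_lt hb hz
      have h5 : (volume : Measure ℂ).real (ball (0:ℂ) 1) = π := by
        rw [Measure.real, Complex.volume_ball]
        simp
      linarith
    calc 9 * Mb / (4 * π * κ) * η * (volume : Measure ℂ).real (Ob b)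
        ≤ 9 * Mb / (4 * π * κ) * η * π := by gcongr
      _ = 9 * Mb / (4 * κ) * η := by
        field_simp
  -- the kernel part
  have hker : ∫ p in Rect a b, ∫ z0 in Ob b, gQ (z0, p)
      ≤ ∫ p in Rect a b, (c1 * (om p.1 * u p.2 * FF κ β p.1 p.2)
        + (Mb / (2 * κ) * (-Real.log b + 882)) *
          (|(κ - 2 + dl) * om p.1 - p.1 * om' p.1| * u p.2 * FF κ β p.1 p.2)
        + (Mb / κ * 108) * (om p.1 * |u' p.2| * FF κ β p.1 p.2)) := by
    apply setIntegral_mono_on iQ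
    · exact integrableOn_rect (((continuousOn_const.mul cJ).add (continuousOn_const.mul cS)).add
        (continuousOn_const.mul cT))
    · exact measurableSet_rect a b
    · intro p hp
      rw [hgQ] at sQ ⊢
      have h1 := Qint_le (β := β) (W0 := W0) (Mh := Mh) (om := om) (om' := om') (u := u) (u' := u')
        hκ hdl hW hMb hwt.u0 hwt.om0 (x := p.1) (θ := p.2)
        (hrx p hp) hp.1.2 hb1 (husupp p.2 hp.2) (sQ p hp)
      refine h1.trans (le_of_eq ?_)
      rw [hc1]
      ring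
  have hker2 : ∫ p in Rect a b, (c1 * (om p.1 * u p.2 * FF κ β p.1 p.2)
        + (Mb / (2 * κ) * (-Real.log b + 882)) *
          (|(κ - 2 + dl) * om p.1 - p.1 * om' p.1| * u p.2 * FF κ β p.1 p.2)
        + (Mb / κ * 108) * (om p.1 * |u' p.2| * FF κ β p.1 p.2))
      = c1 * (∫ p in Rect a b, om p.1 * u p.2 * FF κ β p.1 p.2)
        + (Mb / (2 * κ) * (-Real.log b + 882)) *
          (∫ p in Rect a b, |(κ - 2 + dl) * om p.1 - p.1 * om' p.1| * u p.2 * FF κ β p.1 p.2)
        + (Mb / κ * 108) * (∫ p in Rect a b, om p.1 * |u' p.2| * FF κ β p.1 p.2) := by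
    have i1 := (integrableOn_rect cJ).const_mul c1
    have i2 := (integrableOn_rect cS).const_mul (Mb / (2 * κ) * (-Real.log b + 882))
    have i3 := (integrableOn_rect cT).const_mul (Mb / κ * 108)
    have e1 := integral_add (i1.add i2) i3
    have e2 := integral_add i1 i2
    simp only [Pi.add_apply] at e1 e2
    rw [e1, e2, integral_const_mul, integral_const_mul, integral_const_mul]
  have hJ0 : 0 ≤ ∫ p in Rect a b, om p.1 * u p.2 * FF κ β p.1 p.2 := by
    apply integral_nonneg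
    intro p
    exact mul_nonneg (mul_nonneg (hwt.om0 _) (hwt.u0 _)) (FF_nn _ _ _ _)
  have hS0 : 0 ≤ ∫ p in Rect a b,
      |(κ - 2 + dl) * om p.1 - p.1 * om' p.1| * u p.2 * FF κ β p.1 p.2 := by
    apply integral_nonneg
    intro p
    exact mul_nonneg (mul_nonneg (abs_nonneg _) (hwt.u0 _)) (FF_nn _ _ _ _)
  have hT0 : 0 ≤ ∫ p in Rect a b, om p.1 * |u' p.2| * FF κ β p.1 p.2 := by
    apply integral_nonneg
    intro p
    exact mul_nonneg (mul_nonneg (hwt.om0 _) (abs_nonneg _)) (FF_nn _ _ _ _)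
  rw [hsplit]
  rw [hker2] at hker
  have h1 := neg_le_of_abs_le hcrit
  have h2 : 9 * Mb / (4 * κ) * η ≤ C1 * η := by gcongr
  have h3 : c1 * (∫ p in Rect a b, om p.1 * u p.2 * FF κ β p.1 p.2)
      ≤ C1 * (∫ p in Rect a b, om p.1 * u p.2 * FF κ β p.1 p.2) := by gcongr
  have h4 : (Mb / (2 * κ) * (-Real.log b + 882)) *
      (∫ p in Rect a b, |(κ - 2 + dl) * om p.1 - p.1 * om' p.1| * u p.2 * FF κ β p.1 p.2)
      ≤ (Mb / (2 * κ) * (-Real.log b + C1)) *
      (∫ p in Rect a b, |(κ - 2 + dl) * om p.1 - p.1 * om' p.1| * u p.2 * FF κ β p.1 p.2) := by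
    gcongr
  have h5 : (Mb / κ * 108) * (∫ p in Rect a b, om p.1 * |u' p.2| * FF κ β p.1 p.2)
      ≤ C1 * (∫ p in Rect a b, om p.1 * |u' p.2| * FF κ β p.1 p.2) := by gcongr
  linarith

/-- continuity of `MM`, in the form used by the assembly -/
theorem MM_cont {κ dl Mb a b R : ℝ} {W0 : ℂ → ℝ} {Mh β : ℂ → ℂ} (hW : Cutf b W0)
    (hM : ContinuousOn Mh {z | 0 < ‖z‖ ∧ ‖z‖ < 1}) (_hMb : ∀ z, ‖Mh z‖ ≤ Mb) (hR : ExtR β R)
    (ha : 0 < a) (hab : a ≤ b) :
    ContinuousOn (fun p : ℝ × ℝ => MM κ dl W0 Mh β p.1 p.2)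
      (Icc a b ×ˢ Icc (-(1 / 2)) (1 / 2)) :=
  MM_contOn hR.toExt ha (ha.trans_le hab) hW hM _ _

end

end Pool.Agent.Helper14.CK
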