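import Pool.Agent.Helper14.CK.Mint
import Pool.Agent.Helper97.CKC.Defs

/-!
MINT with complex exponents: the interface `MIntC` of project CKC.
-/

set_option autoImplicit false

open Complex MeasureTheory Metric Set Filter Topology
open scoped Real ComplexConjugate

namespace Pool.Agent.Helper14.CK

open Pool.Agent.Helper39.Area Pool.Agent.Helper52.EK Pool.Agent.Helper52.CK Pool.Agent.Helper97.CKC
  Pool.Agent.Helper68.EKC

section rot

variable {ζ w : ℂ} {q : ℝ}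

theorem ka_rot (hζ : ‖ζ‖ = 1) : ka ((q : ℂ) * ζ) (w * ζ)
    = (q : ℂ) * w / ((q : ℂ) - w) ^ 2 := by
  have h0 := unit_ne hζ
  rw [ka]
  have e1 : (q : ℂ) * ζ * (w * ζ) = ((q : ℂ) * w) * ζ ^ 2 := by ring
  have e2 : ((q : ℂ) * ζ - w * ζ) ^ 2 = ((q : ℂ) - w) ^ 2 * ζ ^ 2 := by ring
  rw [e1, e2, mul_div_mul_right _ _ (pow_ne_zero 2 h0)]

theorem kb_rot (hζ : ‖ζ‖ = 1) : kb ((q : ℂ) * ζ) (w * ζ)
    = (q : ℂ) * w / (1 - (q : ℂ) * w) ^ 2 := by
  rw [kb, one_sub_conj hζ]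
  congr 1
  rw [map_mul, Complex.conj_ofReal]
  linear_combination (q * w) * conj_unit hζ

theorem kp_rot (hζ : ‖ζ‖ = 1) : kp ((q : ℂ) * ζ) (w * ζ)
    = ((q : ℂ) + w) / ((q : ℂ) - w) := by
  have h0 := unit_ne hζ
  rw [kp]
  have e1 : (q : ℂ) * ζ + w * ζ = ((q : ℂ) + w) * ζ := by ring
  have e2 : (q : ℂ) * ζ - w * ζ = ((q : ℂ) - w) * ζ := by ring
  rw [e1, e2, mul_div_mul_right _ _ h0]

theorem kq_rot (hζ : ‖ζ‖ = 1) : kq ((q : ℂ) * ζ) (w * ζ)
    = (1 + (q : ℂ) * w) / (1 - (q : ℂ) * w) := by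
  rw [kq, one_sub_conj hζ]
  congr 1
  rw [map_mul, Complex.conj_ofReal]
  linear_combination (w * q) * conj_unit hζ

end rot

section

variable {x θ : ℝ} {z0 : ℂ}

theorem Pr.ka_le (h : Pr x θ z0) : ‖ka (ep (-x) θ) z0 - Kw θ z0‖ ≤ 27 * Er x θ z0 := by
  have h5 := ka_rot (ζ := Complex.exp (θ * I)) (w := rw0 θ z0) (q := Real.exp (-x))
    (Complex.norm_exp_ofReal_mul_I θ)
  rw [rw0_mul, ← ep_eq] at h5
  rw [h5, Kw]
  refine (ker_k1 h.qh h.q1 h.w1).trans ?_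
  rw [mul_div_assoc]
  have := h.er
  gcongr

theorem Pr.kb_le (h : Pr x θ z0) : ‖kb (ep (-x) θ) z0 - Kw θ z0‖ ≤ 12 * Er x θ z0 := by
  have h5 := kb_rot (ζ := Complex.exp (θ * I)) (w := rw0 θ z0) (q := Real.exp (-x))
    (Complex.norm_exp_ofReal_mul_I θ)
  rw [rw0_mul, ← ep_eq] at h5
  rw [h5, Kw]
  refine (ker_k2 h.qh h.q1 h.w1).trans ?_
  rw [mul_div_assoc]
  have := h.er
  gcongr

theorem Pr.kp_le (h : Pr x θ z0) :
    ‖kp (ep (-x) θ) z0‖ ≤ 6 * (1 / ‖Complex.exp (θ * I) - z0‖) := by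
  have h5 := kp_rot (ζ := Complex.exp (θ * I)) (w := rw0 θ z0) (q := Real.exp (-x))
    (Complex.norm_exp_ofReal_mul_I θ)
  rw [rw0_mul, ← ep_eq] at h5
  have h1 := ker_qw h.qh h.q1 h.w1
  have h2 := ker_d1 h.wlt
  rw [h5, norm_div, ← norm_one_sub_rw0]
  have h3 : ‖((Real.exp (-x) : ℝ) : ℂ) + rw0 θ z0‖ ≤ 2 := by
    refine (norm_add_le _ _).trans ?_
    rw [Complex.norm_real, Real.norm_of_nonneg (Real.exp_pos _).le]
    linarith [h.q1, h.wlt]
  rw [mul_one_div, div_le_div_iff₀ (by linarith) h2]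
  nlinarith

theorem Pr.kq_le (h : Pr x θ z0) :
    ‖kq (ep (-x) θ) z0‖ ≤ 4 * (1 / ‖Complex.exp (θ * I) - z0‖) := by
  have h5 := kq_rot (ζ := Complex.exp (θ * I)) (w := rw0 θ z0) (q := Real.exp (-x))
    (Complex.norm_exp_ofReal_mul_I θ)
  rw [rw0_mul, ← ep_eq] at h5
  have h1 := ker_1qw h.qh h.q1 h.w1
  have h2 := ker_d1 h.wlt
  rw [h5, norm_div, ← norm_one_sub_rw0]
  have h3 : ‖1 + ((Real.exp (-x) : ℝ) : ℂ) * rw0 θ z0‖ ≤ 2 := by
    refine (norm_add_le _ _).trans ?_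
    rw [norm_one, norm_mul, Complex.norm_real, Real.norm_of_nonneg (Real.exp_pos _).le]
    nlinarith [h.q1, h.wlt, norm_nonneg (rw0 θ z0), Real.exp_pos (-x)]
  rw [mul_one_div, div_le_div_iff₀ (by linarith) h2]
  nlinarith

end

section

variable {κ dl a b : ℝ} {u : ℂ} {W0 : ℂ → ℝ} {Mh β L : ℂ → ℂ} {om om' w w' : ℝ → ℝ}

theorem cont_ka (ha : 0 < a) (hb : 0 < b) :
    ContinuousOn (fun s : ℂ × (ℝ × ℝ) => ka (ep (-s.2.1) s.2.2) s.1) (Sp a b) := by
  have hz := cont_z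
  unfold ka
  apply ContinuousOn.div
  · fun_prop
  · fun_prop
  · intro s hs
    exact pow_ne_zero 2 (sp_ne ha hb hs)

theorem cont_kb (ha : 0 < a) (hb : 0 < b) :
    ContinuousOn (fun s : ℂ × (ℝ × ℝ) => kb (ep (-s.2.1) s.2.2) s.1) (Sp a b) := by
  have hz := cont_z
  have hzc : Continuous fun s : ℂ × (ℝ × ℝ) => conj (ep (-s.2.1) s.2.2) :=
    Complex.continuous_conj.comp hz
  unfold kb
  apply ContinuousOn.div
  · fun_prop
  · fun_prop
  · intro s hs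
    exact pow_ne_zero 2 (sp_ne2 ha hb hs)

theorem cont_kp (ha : 0 < a) (hb : 0 < b) :
    ContinuousOn (fun s : ℂ × (ℝ × ℝ) => kp (ep (-s.2.1) s.2.2) s.1) (Sp a b) := by
  have hz := cont_z
  unfold kp
  apply ContinuousOn.div
  · fun_prop
  · fun_prop
  · intro s hs
    exact sp_ne ha hb hs

theorem cont_kq (ha : 0 < a) (hb : 0 < b) :
    ContinuousOn (fun s : ℂ × (ℝ × ℝ) => kq (ep (-s.2.1) s.2.2) s.1) (Sp a b) := by
  have hz := cont_z
  have hzc : Continuous fun s : ℂ × (ℝ × ℝ) => conj (ep (-s.2.1) s.2.2) :=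
    Complex.continuous_conj.comp hz
  unfold kq
  apply ContinuousOn.div
  · fun_prop
  · fun_prop
  · intro s hs
    exact sp_ne2 ha hb hs

/-- continuity of the density -/
theorem cont_FC (hL : ContinuousOn L (ball 0 1)) (κ : ℝ) (u : ℂ) :
    ContinuousOn (fun p : ℝ × ℝ => FC κ u L p.1 p.2) {p | 0 < p.1} := by
  have hm : ∀ p : ℝ × ℝ, 0 < p.1 → ep (-p.1) p.2 ∈ ball (0:ℂ) 1 := by
    intro p hp
    rw [mem_ball, dist_zero_right, norm_ep, Real.exp_lt_one_iff]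
    linarith
  have h3 : ContinuousOn (fun p : ℝ × ℝ => L (ep (-p.1) p.2)) {p | 0 < p.1} :=
    hL.comp cont_ep.continuousOn fun p hp => hm p hp
  unfold FC
  apply Real.continuous_exp.comp_continuousOn
  apply ContinuousOn.neg
  apply continuousOn_const.mul
  exact Complex.continuous_re.comp_continuousOn (continuousOn_const.mul h3)

theorem FC_nn (κ : ℝ) (u : ℂ) (L : ℂ → ℂ) (x θ : ℝ) : 0 ≤ FC κ u L x θ := (Real.exp_pos _).le

theorem cont_FCs (hL : ContinuousOn L (ball 0 1)) (ha : 0 < a) (κ : ℝ) (u : ℂ) :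
    ContinuousOn (fun s : ℂ × (ℝ × ℝ) => FC κ u L s.2.1 s.2.2) (Sp a b) := by
  apply (cont_FC hL κ u).comp continuous_snd.continuousOn
  intro s hs
  exact lt_of_lt_of_le ha hs.2.1.1

/-- the integrand of `MC` -/
noncomputable def gC (κ dl : ℝ) (u : ℂ) (W0 : ℂ → ℝ) (Mh β : ℂ → ℂ) (s : ℂ × (ℝ × ℝ)) : ℝ :=
  W0 s.1 * (Mh s.1 * (kA β (ep (-s.2.1) s.2.2) s.1 -
    Pool.Agent.Helper97.CKC.tau κ dl u * omp s.2.2 s.1 ^ 2)).re

theorem cont_gC (h : Ext β) (ha : 0 < a) (hb : 0 < b) (hW : Cutf b W0)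
    (hM : ContinuousOn Mh {z | 0 < ‖z‖ ∧ ‖z‖ < 1}) :
    ContinuousOn (gC κ dl u W0 Mh β) (Sp a b) := by
  have h1 : ContinuousOn (fun s : ℂ × (ℝ × ℝ) => Mh s.1) (Sp a b) :=
    (cont_Mh hb hM).comp continuous_fst.continuousOn fun s hs => hs.1
  have h2 : ContinuousOn (fun s : ℂ × (ℝ × ℝ) => W0 s.1) (Sp a b) :=
    (hW.cont.comp continuous_fst).continuousOn
  have h3 := cont_kA h ha hb
  have h4 := cont_omp (a := a) hb
  unfold gC
  apply h2.mul
  apply Complex.continuous_re.comp_continuousOn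
  exact h1.mul (h3.sub (continuousOn_const.mul (h4.pow 2)))

theorem MC_ob (hW : Cutf b W0) (x θ : ℝ) :
    MC κ dl u W0 Mh β x θ = π⁻¹ * ∫ z0 in Ob b, gC κ dl u W0 Mh β (z0, (x, θ)) := by
  rw [MC]
  congr 1
  symm
  apply setIntegral_eq_integral_of_forall_compl_eq_zero
  intro z hz
  have h0 : W0 z = 0 := by
    by_contra hne
    exact hz (hW.supp z hne)
  simp only [gC, h0, zero_mul]

/-- continuity of `MC` on rectangles -/
theorem MC_contOn (h : Ext β) (ha : 0 < a) (hb : 0 < b) (hW : Cutf b W0)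
    (hM : ContinuousOn Mh {z | 0 < ‖z‖ ∧ ‖z‖ < 1}) (c d : ℝ) :
    ContinuousOn (fun p : ℝ × ℝ => MC κ dl u W0 Mh β p.1 p.2) (Icc a b ×ˢ Icc c d) := by
  have hc := cont_gC (κ := κ) (dl := dl) (u := u) h ha hb hW hM
  have hcomp : IsCompact (Ob b ×ˢ (Icc a b ×ˢ Icc c d)) :=
    (isCompact_ob b).prod (isCompact_Icc.prod isCompact_Icc)
  have hsub : Ob b ×ˢ (Icc a b ×ˢ Icc c d) ⊆ Sp a b :=
    prod_mono subset_rfl (prod_mono subset_rfl (subset_univ _))
  obtain ⟨C, hC⟩ := hcomp.exists_bound_of_continuousOn (hc.mono hsub)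
  have h1 : (fun p : ℝ × ℝ => MC κ dl u W0 Mh β p.1 p.2)
      = fun p : ℝ × ℝ => π⁻¹ * ∫ z0 in Ob b, gC κ dl u W0 Mh β (z0, p) := by
    funext p
    exact MC_ob hW p.1 p.2
  rw [h1]
  apply continuousOn_const.mul
  refine continuousOn_of_dominated (bound := fun _ => C) ?_ ?_ ?_ ?_
  · intro p hp
    have h2 : ContinuousOn (fun z0 : ℂ => gC κ dl u W0 Mh β (z0, p)) (Ob b) :=
      hc.comp (by fun_prop) fun z hz => hsub ⟨hz, hp⟩
    exact h2.aestronglyMeasurable (isClosed_ob b).measurableSet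
  · intro p hp
    filter_upwards [ae_restrict_mem (isClosed_ob b).measurableSet] with z hz
    exact hC (z, p) ⟨hz, hp⟩
  · exact continuousOn_const.integrableOn_compact (isCompact_ob b)
  · filter_upwards [ae_restrict_mem (isClosed_ob b).measurableSet] with z hz
    exact hc.comp (by fun_prop) fun p hp => hsub ⟨hz, hp⟩

/-- the integrand of `EC` -/
noncomputable def EiC (κ : ℝ) (u : ℂ) (om om' w w' : ℝ → ℝ) (β L : ℂ → ℂ)
    (s : ℂ × (ℝ × ℝ)) : ℂ :=
  ((FC κ u L s.2.1 s.2.2 : ℝ) : ℂ) *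
    (((om s.2.1 * w s.2.2 : ℝ) : ℂ) *
        (tt κ u * (4 * s.1 ^ 2 * kA β (ep (-s.2.1) s.2.2) s.1) - ((tt κ u).re : ℂ) +
        (-(tt κ u) * kp (ep (-s.2.1) s.2.2) s.1 + conj (tt κ u) * kq (ep (-s.2.1) s.2.2) s.1) / 2 -
        (tt κ u * ka (ep (-s.2.1) s.2.2) s.1 + conj (tt κ u) * kb (ep (-s.2.1) s.2.2) s.1) +
        2 * (ka (ep (-s.2.1) s.2.2) s.1 + kb (ep (-s.2.1) s.2.2) s.1)) +
      ((om' s.2.1 * w s.2.2 : ℝ) : ℂ) * k3 (ep (-s.2.1) s.2.2) s.1 +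
      ((om s.2.1 * w' s.2.2 : ℝ) : ℂ) * k5 (ep (-s.2.1) s.2.2) s.1)

/-- the kernel difference -/
noncomputable def D1C (κ dl : ℝ) (u : ℂ) (s : ℂ × (ℝ × ℝ)) : ℂ :=
  u / κ * (-((tt κ u).re : ℂ) +
    (-(tt κ u) * kp (ep (-s.2.1) s.2.2) s.1 + conj (tt κ u) * kq (ep (-s.2.1) s.2.2) s.1) / 2 -
    (tt κ u * ka (ep (-s.2.1) s.2.2) s.1 + conj (tt κ u) * kb (ep (-s.2.1) s.2.2) s.1) +
    2 * (ka (ep (-s.2.1) s.2.2) s.1 + kb (ep (-s.2.1) s.2.2) s.1) +
    (κ - 2 + dl) * (k3 (ep (-s.2.1) s.2.2) s.1 / s.2.1)) -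
    4 * Pool.Agent.Helper97.CKC.tau κ dl u * (s.1 ^ 2 * omp s.2.2 s.1 ^ 2)

/-- what remains -/
noncomputable def QiC (κ dl : ℝ) (u : ℂ) (om om' w w' : ℝ → ℝ) (L : ℂ → ℂ)
    (s : ℂ × (ℝ × ℝ)) : ℂ :=
  ((FC κ u L s.2.1 s.2.2 : ℝ) : ℂ) *
    (((om s.2.1 * w s.2.2 : ℝ) : ℂ) * D1C κ dl u s -
      ((((κ - 2 + dl) * om s.2.1 - s.2.1 * om' s.2.1) * w s.2.2 : ℝ) : ℂ) *
        (u / κ * (k3 (ep (-s.2.1) s.2.2) s.1 / s.2.1)) +
      ((om s.2.1 * w' s.2.2 : ℝ) : ℂ) * (u / κ * k5 (ep (-s.2.1) s.2.2) s.1))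

theorem u_conj (hu : ‖u‖ = 1) : u * conj u = 1 := by
  rw [Complex.mul_conj, Complex.normSq_eq_norm_sq, hu]
  norm_num

theorem key_idC (om om' w w' : ℝ → ℝ) (hu : ‖u‖ = 1) (hκ : κ ≠ 0) {s : ℂ × (ℝ × ℝ)}
    (hx : s.2.1 ≠ 0) :
    4 * s.1 ^ 2 * ((om s.2.1 * w s.2.2 * FC κ u L s.2.1 s.2.2 : ℝ) : ℂ) *
      (kA β (ep (-s.2.1) s.2.2) s.1 - Pool.Agent.Helper97.CKC.tau κ dl u * omp s.2.2 s.1 ^ 2)
      = -(u / κ * EiC κ u om om' w w' β L s) + QiC κ dl u om om' w w' L s := by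
  have hx' : (s.2.1 : ℂ) ≠ 0 := by exact_mod_cast hx
  have hκ' : (κ : ℂ) ≠ 0 := by exact_mod_cast hκ
  have hut : u / κ * tt κ u = -1 := by
    rw [tt]
    have := u_conj hu
    field_simp
    linear_combination -this
  unfold EiC QiC D1C
  set K3 := k3 (ep (-s.2.1) s.2.2) s.1 with hK3
  obtain ⟨T, hT⟩ : ∃ T : ℂ, K3 = s.2.1 * T := ⟨K3 / s.2.1, by field_simp⟩
  have hT2 : K3 / s.2.1 = T := by
    rw [hT]
    field_simp
  rw [hT2, hT]
  generalize kA β (ep (-s.2.1) s.2.2) s.1 = A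
  generalize kp (ep (-s.2.1) s.2.2) s.1 = P
  generalize kq (ep (-s.2.1) s.2.2) s.1 = Q
  generalize ka (ep (-s.2.1) s.2.2) s.1 = A1
  generalize kb (ep (-s.2.1) s.2.2) s.1 = B1
  generalize k5 (ep (-s.2.1) s.2.2) s.1 = K5
  generalize Pool.Agent.Helper97.CKC.tau κ dl u = τ
  generalize conj (tt κ u) = tc
  generalize ((tt κ u).re : ℂ) = tr
  generalize (u / κ : ℂ) = v at *
  push_cast
  linear_combination (4 * s.1 ^ 2 * A * (om s.2.1 * w s.2.2 * FC κ u L s.2.1 s.2.2)) * hut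

/-- the multiplier with the cut-off -/
noncomputable def CmC (W0 : ℂ → ℝ) (Mh : ℂ → ℂ) (z0 : ℂ) : ℂ :=
  (W0 z0 : ℂ) * Mh z0 / (4 * π * z0 ^ 2)

theorem CmC_cont (hb : 0 < b) (hW : Cutf b W0)
    (hM : ContinuousOn Mh {z | 0 < ‖z‖ ∧ ‖z‖ < 1}) : ContinuousOn (CmC W0 Mh) (Ob b) := by
  unfold CmC
  apply ContinuousOn.div
  · exact (Complex.continuous_ofReal.comp hW.cont).continuousOn.mul (cont_Mh hb hM)
  · fun_prop
  · intro z hz
    have h1 : z ≠ 0 := norm_pos_iff.mp (ob_pos hz)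
    have h3 : (π : ℂ) ≠ 0 := by exact_mod_cast Real.pi_ne_zero
    exact mul_ne_zero (mul_ne_zero (by norm_num) h3) (pow_ne_zero 2 h1)

theorem CmC_le {Mb : ℝ} (hW : Cutf b W0) (hMb : ∀ z, ‖Mh z‖ ≤ Mb) {z0 : ℂ}
    (hz : z0 ∈ Ob b) : ‖CmC W0 Mh z0‖ ≤ Mb / (4 * π) * (1 / ‖z0‖ ^ 2) := by
  have h0 : 0 ≤ Mb := (norm_nonneg _).trans (hMb 0)
  have h1 := ob_pos hz
  have h2 : ‖(4 : ℂ) * π * z0 ^ 2‖ = 4 * π * ‖z0‖ ^ 2 := by
    rw [norm_mul, norm_mul, norm_pow, Complex.norm_real,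
      Real.norm_of_nonneg Real.pi_pos.le, Complex.norm_ofNat]
  have hpi := Real.pi_pos
  rw [CmC, norm_div, norm_mul, h2, Complex.norm_real, Real.norm_of_nonneg (hW.nn z0)]
  calc W0 z0 * ‖Mh z0‖ / (4 * π * ‖z0‖ ^ 2) ≤ 1 * Mb / (4 * π * ‖z0‖ ^ 2) := by
        gcongr
        · exact hW.le1 z0
        · exact hMb z0
    _ = Mb / (4 * π) * (1 / ‖z0‖ ^ 2) := by
        field_simp

/-- identity under the integral -/
theorem re_idC (hu : ‖u‖ = 1) (hκ : 0 < κ) (om om' w w' : ℝ → ℝ) {s : ℂ × (ℝ × ℝ)}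
    (hx : s.2.1 ≠ 0) (hz : s.1 ∈ Ob b) :
    om s.2.1 * w s.2.2 * FC κ u L s.2.1 s.2.2 * (π⁻¹ * gC κ dl u W0 Mh β s)
      = -(CmC W0 Mh s.1 * (u / κ) * EiC κ u om om' w w' β L s).re
        + (CmC W0 Mh s.1 * QiC κ dl u om om' w w' L s).re := by
  have h1 := key_idC (β := β) (L := L) (dl := dl) om om' w w' hu hκ.ne' hx
  have hz0 : s.1 ≠ 0 := norm_pos_iff.mp (ob_pos hz)
  have h3 : (π : ℂ) ≠ 0 := by exact_mod_cast Real.pi_ne_zero
  have h4 : CmC W0 Mh s.1 * (-(u / κ * EiC κ u om om' w w' β L s) + QiC κ dl u om om' w w' L s)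
      = ((om s.2.1 * w s.2.2 * FC κ u L s.2.1 s.2.2 * π⁻¹ * W0 s.1 : ℝ) : ℂ) *
        (Mh s.1 * (kA β (ep (-s.2.1) s.2.2) s.1 -
          Pool.Agent.Helper97.CKC.tau κ dl u * omp s.2.2 s.1 ^ 2)) := by
    rw [← h1, CmC]
    push_cast
    field_simp
  have h5 := congrArg Complex.re h4
  rw [Complex.re_ofReal_mul, mul_add, mul_neg, Complex.add_re, Complex.neg_re, ← mul_assoc] at h5
  rw [h5, gC]
  ring

/-- bound of the kernel difference -/
theorem D1C_le (hu : ‖u‖ = 1) (hκ : 0 < κ) (hdl : 0 ≤ dl) {x θ : ℝ} {z0 : ℂ} (h : Pr x θ z0)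
    (hre : 0 ≤ (rw0 θ z0).re) : ‖D1C κ dl u (z0, (x, θ))‖
      ≤ (5 + 2 * dl / κ) + (39 * ((κ + 2) / κ) + 48 * ((κ + 2 + dl) / κ)) * Er x θ z0
        + 5 * (1 / ‖Complex.exp (θ * I) - z0‖) := by
  have hκ' : (κ : ℂ) ≠ 0 := by exact_mod_cast hκ.ne'
  have huu := u_conj hu
  have htt : ‖tt κ u‖ = κ := by
    rw [tt, norm_neg, norm_mul, RCLike.norm_conj, hu, mul_one, Complex.norm_real,
      Real.norm_of_nonneg hκ.le]
  have huk : ‖u / (κ : ℂ)‖ = 1 / κ := by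
    rw [norm_div, hu, Complex.norm_real, Real.norm_of_nonneg hκ.le]
  have hτ : ‖4 * Pool.Agent.Helper97.CKC.tau κ dl u‖ ≤ 4 + 2 * dl / κ := by
    have e1 : 4 * Pool.Agent.Helper97.CKC.tau κ dl u
        = (1 + u) ^ 2 + u * ((2 * dl / κ : ℝ) : ℂ) := by
      rw [Pool.Agent.Helper97.CKC.tau]
      push_cast
      field_simp
      ring
    rw [e1]
    refine (norm_add_le _ _).trans ?_
    rw [norm_pow, norm_mul, hu, one_mul, Complex.norm_real, Real.norm_of_nonneg (by positivity)]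
    have h2 : ‖1 + u‖ ≤ 2 := by
      have := norm_add_le (1 : ℂ) u
      rw [norm_one, hu] at this
      linarith
    nlinarith [norm_nonneg (1 + u)]
  have e : D1C κ dl u (z0, (x, θ)) = -(u / κ * ((tt κ u).re : ℂ))
      + u / κ * (-(tt κ u) / 2) * kp (ep (-x) θ) z0
      + u / κ * (conj (tt κ u) / 2) * kq (ep (-x) θ) z0
      + u / κ * (2 - tt κ u) * (ka (ep (-x) θ) z0 - Kw θ z0)
      + u / κ * (2 - conj (tt κ u)) * (kb (ep (-x) θ) z0 - Kw θ z0)
      + u / κ * ((κ - 2 + dl : ℝ) : ℂ) * (k3 (ep (-x) θ) z0 / x - 2 * Kw θ z0)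
      + 4 * Pool.Agent.Helper97.CKC.tau κ dl u * (Kw θ z0 - z0 ^ 2 * omp θ z0 ^ 2) := by
    have hτ2 : 4 * Pool.Agent.Helper97.CKC.tau κ dl u
        = u / κ * ((2 - tt κ u) + (2 - conj (tt κ u)) + 2 * (κ - 2 + dl)) := by
      rw [Pool.Agent.Helper97.CKC.tau, tt, map_neg, map_mul, Complex.conj_conj,
        Complex.conj_ofReal]
      push_cast
      field_simp
      linear_combination (-4 * κ) * huu
    unfold D1C
    push_cast
    linear_combination (Kw θ z0) * (-hτ2)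
  have h1 := h.ka_le
  have h1' := h.kb_le
  have h2 := h.kp_le
  have h2' := h.kq_le
  have h3 := h.k3_div
  have h4 := h.om hre
  have h5 := h.er_nn
  have htr : ‖((tt κ u).re : ℂ)‖ ≤ κ := by
    rw [Complex.norm_real, Real.norm_eq_abs]
    exact (Complex.abs_re_le_norm _).trans htt.le
  have h6 : ‖((κ - 2 + dl : ℝ) : ℂ)‖ ≤ κ + 2 + dl := by
    rw [Complex.norm_real, Real.norm_eq_abs, abs_le]
    constructor <;> linarith
  have h7 : ‖2 - tt κ u‖ ≤ κ + 2 := by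
    refine (norm_sub_le _ _).trans ?_
    rw [htt, Complex.norm_ofNat]
    linarith
  have h8 : ‖2 - conj (tt κ u)‖ ≤ κ + 2 := by
    refine (norm_sub_le _ _).trans ?_
    rw [RCLike.norm_conj, htt, Complex.norm_ofNat]
    linarith
  have hE := h.er_nn
  have g0 : ‖-(u / κ * ((tt κ u).re : ℂ))‖ ≤ 1 := by
    rw [norm_neg, norm_mul, huk]
    calc 1 / κ * ‖((tt κ u).re : ℂ)‖ ≤ 1 / κ * κ := by gcongr
      _ = 1 := by field_simp
  have g1 : ‖u / κ * (-(tt κ u) / 2) * kp (ep (-x) θ) z0‖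
      ≤ 3 * (1 / ‖Complex.exp (θ * I) - z0‖) := by
    rw [norm_mul, norm_mul, huk, norm_div, norm_neg, htt, Complex.norm_ofNat]
    calc 1 / κ * (κ / 2) * ‖kp (ep (-x) θ) z0‖
        ≤ 1 / κ * (κ / 2) * (6 * (1 / ‖Complex.exp (θ * I) - z0‖)) := by gcongr
      _ = 3 * (1 / ‖Complex.exp (θ * I) - z0‖) := by
        field_simp
        ring
  have g2 : ‖u / κ * (conj (tt κ u) / 2) * kq (ep (-x) θ) z0‖
      ≤ 2 * (1 / ‖Complex.exp (θ * I) - z0‖) := by
    rw [norm_mul, norm_mul, huk, norm_div, RCLike.norm_conj, htt, Complex.norm_ofNat]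
    calc 1 / κ * (κ / 2) * ‖kq (ep (-x) θ) z0‖
        ≤ 1 / κ * (κ / 2) * (4 * (1 / ‖Complex.exp (θ * I) - z0‖)) := by gcongr
      _ = 2 * (1 / ‖Complex.exp (θ * I) - z0‖) := by
        field_simp
        ring
  have g3 : ‖u / κ * (2 - tt κ u) * (ka (ep (-x) θ) z0 - Kw θ z0)‖
      ≤ (κ + 2) / κ * (27 * Er x θ z0) := by
    rw [norm_mul, norm_mul, huk]
    calc 1 / κ * ‖2 - tt κ u‖ * ‖ka (ep (-x) θ) z0 - Kw θ z0‖
        ≤ 1 / κ * (κ + 2) * (27 * Er x θ z0) := by gcongr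
      _ = (κ + 2) / κ * (27 * Er x θ z0) := by ring
  have g4 : ‖u / κ * (2 - conj (tt κ u)) * (kb (ep (-x) θ) z0 - Kw θ z0)‖
      ≤ (κ + 2) / κ * (12 * Er x θ z0) := by
    rw [norm_mul, norm_mul, huk]
    calc 1 / κ * ‖2 - conj (tt κ u)‖ * ‖kb (ep (-x) θ) z0 - Kw θ z0‖
        ≤ 1 / κ * (κ + 2) * (12 * Er x θ z0) := by gcongr
      _ = (κ + 2) / κ * (12 * Er x θ z0) := by ring
  have g5 : ‖u / κ * ((κ - 2 + dl : ℝ) : ℂ) * (k3 (ep (-x) θ) z0 / x - 2 * Kw θ z0)‖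
      ≤ (κ + 2 + dl) / κ * (48 * Er x θ z0) := by
    rw [norm_mul, norm_mul, huk]
    calc 1 / κ * ‖((κ - 2 + dl : ℝ) : ℂ)‖ * ‖k3 (ep (-x) θ) z0 / x - 2 * Kw θ z0‖
        ≤ 1 / κ * (κ + 2 + dl) * (48 * Er x θ z0) := by gcongr
      _ = (κ + 2 + dl) / κ * (48 * Er x θ z0) := by ring
  have g6 : ‖4 * Pool.Agent.Helper97.CKC.tau κ dl u * (Kw θ z0 - z0 ^ 2 * omp θ z0 ^ 2)‖
      ≤ (4 + 2 * dl / κ) * 1 := by
    rw [norm_mul]
    gcongr
  rw [e]
  refine (norm_add_le _ _).trans ?_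
  refine (add_le_add_left (norm_add_le _ _) _).trans ?_
  refine (add_le_add_left (add_le_add_left (norm_add_le _ _) _) _).trans ?_
  refine (add_le_add_left (add_le_add_left (add_le_add_left (norm_add_le _ _) _) _) _).trans ?_
  refine (add_le_add_left (add_le_add_left (add_le_add_left
    (add_le_add_left (norm_add_le _ _) _) _) _) _).trans ?_
  refine (add_le_add_left (add_le_add_left (add_le_add_left (add_le_add_left
    (add_le_add_left (norm_add_le _ _) _) _) _) _) _).trans ?_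
  linarith

/-- pointwise bound of the remaining term -/
theorem QC_le {Mb : ℝ} (hu : ‖u‖ = 1) (hκ : 0 < κ) (hdl : 0 ≤ dl) (hW : Cutf b W0)
    (hMb : ∀ z, ‖Mh z‖ ≤ Mb) (hw : ∀ θ, 0 ≤ w θ) (hom : ∀ x, 0 ≤ om x)
    {x θ : ℝ} {z0 : ℂ} (hz : z0 ∈ Ob b) (h : Pr x θ z0)
    (hre : w θ ≠ 0 → 0 ≤ (rw0 θ z0).re) :
    (CmC W0 Mh z0 * QiC κ dl u om om' w w' L (z0, (x, θ))).re ≤
      FC κ u L x θ * (Mb / (4 * π)) *
        ((om x * w θ * (9 * (5 + 2 * dl / κ)) +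
            |(κ - 2 + dl) * om x - x * om' x| * w θ * (20 / κ)) +
          (om x * w θ * (9 * (39 * ((κ + 2) / κ) + 48 * ((κ + 2 + dl) / κ))) +
            |(κ - 2 + dl) * om x - x * om' x| * w θ * (432 / κ)) * Er x θ z0 +
          (om x * w θ * 45 + |(κ - 2 + dl) * om x - x * om' x| * w θ * (4 / κ) +
            om x * |w' θ| * (108 / κ)) * (1 / ‖Complex.exp (θ * I) - z0‖) +
          (|(κ - 2 + dl) * om x - x * om' x| * w θ * (2 / κ)) *
            (1 / ‖Complex.exp (θ * I) - z0‖ ^ 2)) := by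
  have hMb0 : 0 ≤ Mb := (norm_nonneg _).trans (hMb 0)
  have hpi := Real.pi_pos
  have hF := FC_nn κ u L x θ
  have hC := CmC_le hW hMb hz
  have hinv := ob_inv hz
  have hz1 := ob_pos hz
  have hEr := h.er_nn
  have huk : ‖u / (κ : ℂ)‖ = 1 / κ := by
    rw [norm_div, hu, Complex.norm_real, Real.norm_of_nonneg hκ.le]
  set σ : ℝ := |(κ - 2 + dl) * om x - x * om' x| with hσ
  have hσ0 : 0 ≤ σ := abs_nonneg _
  set A : ℝ := Mb / (4 * π) with hA
  have hA0 : 0 ≤ A := by positivity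
  set d1 : ℝ := 1 / ‖Complex.exp (θ * I) - z0‖ with hd1
  set d2 : ℝ := 1 / ‖Complex.exp (θ * I) - z0‖ ^ 2 with hd2
  have hd10 : 0 ≤ d1 := by positivity
  have hd20 : 0 ≤ d2 := by positivity
  have hQ : ‖QiC κ dl u om om' w w' L (z0, (x, θ))‖ ≤ FC κ u L x θ *
      (om x * (w θ * ‖D1C κ dl u (z0, (x, θ))‖) +
        σ * (w θ * (1 / κ * ‖k3 (ep (-x) θ) z0 / x‖)) +
        om x * |w' θ| * (1 / κ * ‖k5 (ep (-x) θ) z0‖)) := by
    unfold QiC
    rw [norm_mul, Complex.norm_real, Real.norm_of_nonneg hF]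
    apply mul_le_mul_of_nonneg_left _ hF
    refine (norm_add_le _ _).trans ?_
    refine (add_le_add_left (norm_sub_le _ _) _).trans ?_
    rw [norm_mul, norm_mul, norm_mul, norm_mul, norm_mul, huk,
      Complex.norm_real, Complex.norm_real, Complex.norm_real,
      Real.norm_eq_abs, Real.norm_eq_abs, Real.norm_eq_abs, abs_mul, abs_mul, abs_mul,
      abs_of_nonneg (hom x), abs_of_nonneg (hw θ), mul_assoc, mul_assoc]
  have g1 : w θ * ‖D1C κ dl u (z0, (x, θ))‖ ≤ w θ * ((5 + 2 * dl / κ) +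
      (39 * ((κ + 2) / κ) + 48 * ((κ + 2 + dl) / κ)) * Er x θ z0 + 5 * d1) := by
    by_cases h0 : w θ = 0
    · rw [h0, zero_mul, zero_mul]
    · exact mul_le_mul_of_nonneg_left (D1C_le hu hκ hdl h (hre h0)) (hw θ)
  have g2 : w θ * (1 / κ * ‖k3 (ep (-x) θ) z0 / x‖) ≤ w θ * (1 / κ * ((2 + 48 * Er x θ z0) +
      2 * ‖z0‖ ^ 2 * (d2 + 2 * d1 + 1))) := by
    by_cases h0 : w θ = 0
    · rw [h0, zero_mul, zero_mul]
    · apply mul_le_mul_of_nonneg_left _ (hw θ)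
      apply mul_le_mul_of_nonneg_left _ (by positivity)
      refine (k3x_le h (hre h0)).trans ?_
      have h6 := h.omp_le (hre h0)
      have h7 : 2 * ‖z0‖ ^ 2 * ‖omp θ z0‖ ^ 2 ≤ 2 * ‖z0‖ ^ 2 * (d2 + 2 * d1 + 1) := by
        gcongr
      linarith
  have g3 : ‖k5 (ep (-x) θ) z0‖ ≤ 12 * d1 := h.k5_le
  have hw0 := hw θ
  have hom0 := hom x
  calc (CmC W0 Mh z0 * QiC κ dl u om om' w w' L (z0, (x, θ))).re
      ≤ ‖CmC W0 Mh z0 * QiC κ dl u om om' w w' L (z0, (x, θ))‖ := Complex.re_le_norm _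
    _ = ‖CmC W0 Mh z0‖ * ‖QiC κ dl u om om' w w' L (z0, (x, θ))‖ := norm_mul _ _
    _ ≤ (A * (1 / ‖z0‖ ^ 2)) * (FC κ u L x θ *
      (om x * (w θ * ((5 + 2 * dl / κ) +
      (39 * ((κ + 2) / κ) + 48 * ((κ + 2 + dl) / κ)) * Er x θ z0 + 5 * d1)) +
      σ * (w θ * (1 / κ * ((2 + 48 * Er x θ z0) + 2 * ‖z0‖ ^ 2 * (d2 + 2 * d1 + 1)))) +
      om x * |w' θ| * (1 / κ * (12 * d1)))) := by
        apply mul_le_mul hC _ (norm_nonneg _) (by positivity)
        refine hQ.trans ?_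
        apply mul_le_mul_of_nonneg_left _ hF
        gcongr
    _ = FC κ u L x θ * A * ((1 / ‖z0‖ ^ 2) * (om x * (w θ * ((5 + 2 * dl / κ) +
      (39 * ((κ + 2) / κ) + 48 * ((κ + 2 + dl) / κ)) * Er x θ z0 + 5 * d1))) +
      (1 / ‖z0‖ ^ 2) * (σ * (w θ * (1 / κ * (2 + 48 * Er x θ z0)))) +
      (‖z0‖ ^ 2 / ‖z0‖ ^ 2) * (σ * (w θ * (1 / κ * (2 * (d2 + 2 * d1 + 1))))) +
      (1 / ‖z0‖ ^ 2) * (om x * |w' θ| * (1 / κ * (12 * d1)))) := by ring
    _ ≤ FC κ u L x θ * A * (9 * (om x * (w θ * ((5 + 2 * dl / κ) +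
      (39 * ((κ + 2) / κ) + 48 * ((κ + 2 + dl) / κ)) * Er x θ z0 + 5 * d1))) +
      9 * (σ * (w θ * (1 / κ * (2 + 48 * Er x θ z0)))) +
      1 * (σ * (w θ * (1 / κ * (2 * (d2 + 2 * d1 + 1))))) +
      9 * (om x * |w' θ| * (1 / κ * (12 * d1)))) := by
        have h8 : ‖z0‖ ^ 2 / ‖z0‖ ^ 2 = 1 := div_self (by positivity)
        rw [h8]
        gcongr
    _ = _ := by ring

/-- the integral over the observers -/
theorem QCint_le {Mb : ℝ} (hu : ‖u‖ = 1) (hκ : 0 < κ) (hdl : 0 ≤ dl) (hW : Cutf b W0)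
    (hMb : ∀ z, ‖Mh z‖ ≤ Mb) (hw : ∀ θ, 0 ≤ w θ) (hom : ∀ x, 0 ≤ om x)
    {x θ : ℝ} (hx : 0 < x) (hxb : x ≤ b) (hb1 : b ≤ 1 / 4) (hwθ : w θ ≠ 0 → |θ| ≤ 1 / 2)
    (hI : IntegrableOn (fun z0 => (CmC W0 Mh z0 * QiC κ dl u om om' w w' L (z0, (x, θ))).re)
      (Ob b)) :
    ∫ z0 in Ob b, (CmC W0 Mh z0 * QiC κ dl u om om' w w' L (z0, (x, θ))).re ≤
      FC κ u L x θ *
        (om x * w θ * (9 * Mb / 4 * ((5 + 2 * dl / κ) + 20 +
            4 * (39 * ((κ + 2) / κ) + 48 * ((κ + 2 + dl) / κ)))) +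
          |(κ - 2 + dl) * om x - x * om' x| * w θ * (Mb / (2 * κ) * (-Real.log b + 882)) +
          om x * |w' θ| * (Mb / κ * 108)) := by
  have hMb0 : 0 ≤ Mb := (norm_nonneg _).trans (hMb 0)
  have hpi := Real.pi_pos
  have hF := FC_nn κ u L x θ
  have hw0 := hw θ
  have hom0 := hom x
  set σ : ℝ := |(κ - 2 + dl) * om x - x * om' x| with hσ
  have hσ0 : 0 ≤ σ := abs_nonneg _
  set A : ℝ := Mb / (4 * π) with hA
  have hA0 : 0 ≤ A := by positivity
  obtain ⟨hi, hle⟩ := ob_int (x := x) θ hx hxb hb1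
    (A0 := om x * w θ * (9 * (5 + 2 * dl / κ)) + σ * w θ * (20 / κ))
    (A1 := om x * w θ * (9 * (39 * ((κ + 2) / κ) + 48 * ((κ + 2 + dl) / κ))) +
      σ * w θ * (432 / κ))
    (A2 := om x * w θ * 45 + σ * w θ * (4 / κ) + om x * |w' θ| * (108 / κ))
    (A3 := σ * w θ * (2 / κ))
    (by positivity) (by positivity) (by positivity) (by positivity)
  have h1 : ∫ z0 in Ob b, (CmC W0 Mh z0 * QiC κ dl u om om' w w' L (z0, (x, θ))).re ≤
      ∫ z0 in Ob b, FC κ u L x θ * A *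
        ((om x * w θ * (9 * (5 + 2 * dl / κ)) + σ * w θ * (20 / κ)) +
          (om x * w θ * (9 * (39 * ((κ + 2) / κ) + 48 * ((κ + 2 + dl) / κ))) +
            σ * w θ * (432 / κ)) * Er x θ z0 +
          (om x * w θ * 45 + σ * w θ * (4 / κ) + om x * |w' θ| * (108 / κ)) *
            (1 / ‖Complex.exp (θ * I) - z0‖) +
          (σ * w θ * (2 / κ)) * (1 / ‖Complex.exp (θ * I) - z0‖ ^ 2)) := by
    apply setIntegral_mono_on hI (hi.const_mul _) (isClosed_ob b).measurableSet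
    intro z0 hz
    exact QC_le hu hκ hdl hW hMb hw hom hz (ob_pr hz hx hxb hb1)
      (fun h0 => rw0_re (hwθ h0) hz.2.2)
  refine h1.trans ?_
  rw [integral_const_mul]
  refine (mul_le_mul_of_nonneg_left hle (by positivity)).trans (le_of_eq ?_)
  rw [one_div, Real.log_inv, hA]
  field_simp
  ring

theorem cont_EiC (h : Ext β) (hL : ContinuousOn L (ball 0 1)) (ha : 0 < a) (hb : 0 < b)
    (hom : Continuous om) (hom' : Continuous om') (hw : Continuous w) (hw' : Continuous w') :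
    ContinuousOn (EiC κ u om om' w w' β L) (Sp a b) := by
  have h1 := cont_ofReal (cont_FCs (b := b) hL ha κ u)
  have h2 := cont_kA h ha hb
  have h3 := cont_ka ha hb
  have h3' := cont_kb ha hb
  have h3a := cont_kp ha hb
  have h3b := cont_kq ha hb
  have h4 := cont_k3 ha hb
  have h5 := cont_k5 ha hb
  have c1 : Continuous fun s : ℂ × (ℝ × ℝ) => om s.2.1 := hom.comp (by fun_prop)
  have c2 : Continuous fun s : ℂ × (ℝ × ℝ) => om' s.2.1 := hom'.comp (by fun_prop)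
  have c3 : Continuous fun s : ℂ × (ℝ × ℝ) => w s.2.2 := hw.comp (by fun_prop)
  have c4 : Continuous fun s : ℂ × (ℝ × ℝ) => w' s.2.2 := hw'.comp (by fun_prop)
  unfold EiC
  apply h1.mul
  apply ContinuousOn.add
  · apply ContinuousOn.add
    · apply ContinuousOn.mul
      · exact cont_ofReal (c1.mul c3).continuousOn
      · apply ContinuousOn.add
        · apply ContinuousOn.sub
          · apply ContinuousOn.add
            · apply ContinuousOn.sub _ continuousOn_const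
              apply continuousOn_const.mul
              exact ContinuousOn.mul (by fun_prop) h2
            · exact ((continuousOn_const.mul h3a).add (continuousOn_const.mul h3b)).div_const 2
          · exact (continuousOn_const.mul h3).add (continuousOn_const.mul h3')
        · exact continuousOn_const.mul (h3.add h3')
    · exact (cont_ofReal (c2.mul c3).continuousOn).mul h4
  · exact (cont_ofReal (c1.mul c4).continuousOn).mul h5

theorem cont_D1C (ha : 0 < a) (hb : 0 < b) : ContinuousOn (D1C κ dl u) (Sp a b) := by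
  have h3 := cont_ka ha hb
  have h3' := cont_kb ha hb
  have h3a := cont_kp ha hb
  have h3b := cont_kq ha hb
  have h4 := cont_k3 ha hb
  have h6 := cont_omp (a := a) hb
  have hx : ContinuousOn (fun s : ℂ × (ℝ × ℝ) => ((s.2.1 : ℝ) : ℂ)) (Sp a b) :=
    cont_ofReal (by fun_prop)
  unfold D1C
  apply ContinuousOn.sub
  · apply continuousOn_const.mul
    apply ContinuousOn.add
    · apply ContinuousOn.add
      · apply ContinuousOn.sub
        · apply continuousOn_const.add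
          exact ((continuousOn_const.mul h3a).add (continuousOn_const.mul h3b)).div_const 2
        · exact (continuousOn_const.mul h3).add (continuousOn_const.mul h3')
      · exact continuousOn_const.mul (h3.add h3')
    · apply continuousOn_const.mul
      apply h4.div hx
      intro s hs
      have : s.2.1 ≠ 0 := (lt_of_lt_of_le ha hs.2.1.1).ne'
      exact_mod_cast this
  · apply continuousOn_const.mul
    exact ContinuousOn.mul (by fun_prop) (h6.pow 2)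

theorem cont_QiC (hL : ContinuousOn L (ball 0 1)) (ha : 0 < a) (hb : 0 < b)
    (hom : Continuous om) (hom' : Continuous om') (hw : Continuous w) (hw' : Continuous w') :
    ContinuousOn (QiC κ dl u om om' w w' L) (Sp a b) := by
  have h1 := cont_ofReal (cont_FCs (b := b) hL ha κ u)
  have h4 := cont_k3 ha hb
  have h5 := cont_k5 ha hb
  have h6 := cont_D1C (κ := κ) (dl := dl) (u := u) ha hb
  have c0 : Continuous fun s : ℂ × (ℝ × ℝ) => s.2.1 := by fun_prop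
  have c1 : Continuous fun s : ℂ × (ℝ × ℝ) => om s.2.1 := hom.comp (by fun_prop)
  have c2 : Continuous fun s : ℂ × (ℝ × ℝ) => om' s.2.1 := hom'.comp (by fun_prop)
  have c3 : Continuous fun s : ℂ × (ℝ × ℝ) => w s.2.2 := hw.comp (by fun_prop)
  have c4 : Continuous fun s : ℂ × (ℝ × ℝ) => w' s.2.2 := hw'.comp (by fun_prop)
  have hx : ContinuousOn (fun s : ℂ × (ℝ × ℝ) => ((s.2.1 : ℝ) : ℂ)) (Sp a b) :=
    cont_ofReal (by fun_prop)
  unfold QiC
  apply h1.mul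
  apply ContinuousOn.add
  · apply ContinuousOn.sub
    · exact (cont_ofReal (c1.mul c3).continuousOn).mul h6
    · apply ContinuousOn.mul
      · exact cont_ofReal (((continuous_const.mul c1).sub (c0.mul c2)).mul c3).continuousOn
      · apply continuousOn_const.mul
        apply h4.div hx
        intro s hs
        have : s.2.1 ≠ 0 := (lt_of_lt_of_le ha hs.2.1.1).ne'
        exact_mod_cast this
  · exact (cont_ofReal (c1.mul c4).continuousOn).mul (continuousOn_const.mul h5)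

/-- **MINT**, complex exponents -/
theorem mint_c (hu : ‖u‖ = 1) (hκ : 0 < κ) (hdl : 0 ≤ dl) : MIntC κ dl u := by
  intro Mb hMb0
  set c1 : ℝ := 9 * Mb / 4 * ((5 + 2 * dl / κ) + 20 +
            4 * (39 * ((κ + 2) / κ) + 48 * ((κ + 2 + dl) / κ))) with hc1
  have hc10 : 0 ≤ c1 := by positivity
  refine ⟨c1 + 882 + Mb / κ * 108 + 9 * Mb / (4 * κ), by positivity, ?_⟩
  set C1 : ℝ := c1 + 882 + Mb / κ * 108 + 9 * Mb / (4 * κ) with hC1
  have hA1 : 0 ≤ Mb / κ * 108 := by positivity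
  have hA2 : 0 ≤ 9 * Mb / (4 * κ) := by positivity
  have hC1a : c1 ≤ C1 := by linarith
  have hC1b : 882 ≤ C1 := by linarith
  have hC1c : Mb / κ * 108 ≤ C1 := by linarith
  have hC1d : 9 * Mb / (4 * κ) ≤ C1 := by linarith
  intro om om' w w' a b hwt hwsupp β L R η hR hlog hη hE W0 Mh hW hM hMb
  have hext : Ext β := hR.toExt
  have hLc := hlog.cont
  have ha := hwt.a0
  have hab := hwt.ab
  have hb : 0 < b := ha.trans hab
  have hb1 := hwt.b1
  have hom : Continuous om := continuous_iff_continuousAt.mpr fun x => (hwt.dom x).continuousAt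
  have hw : Continuous w := continuous_iff_continuousAt.mpr fun x => (hwt.du x).continuousAt
  have hom' := hwt.com
  have hw' := hwt.cu
  have hpi := Real.pi_pos
  have huk : ‖u / (κ : ℂ)‖ = 1 / κ := by
    rw [norm_div, hu, Complex.norm_real, Real.norm_of_nonneg hκ.le]
  have hrx : ∀ p ∈ Rect a b, 0 < p.1 := fun p hp => lt_of_lt_of_le ha hp.1.1
  -- continuity on the rectangle
  have cF : ContinuousOn (fun p : ℝ × ℝ => FC κ u L p.1 p.2) (Rect a b) :=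
    (cont_FC hLc κ u).mono hrx
  have cMM : ContinuousOn (fun p : ℝ × ℝ => MC κ dl u W0 Mh β p.1 p.2) (Rect a b) :=
    MC_contOn hext ha hb hW hM _ _
  have co : Continuous fun p : ℝ × ℝ => om p.1 := hom.comp continuous_fst
  have co' : Continuous fun p : ℝ × ℝ => om' p.1 := hom'.comp continuous_fst
  have cu : Continuous fun p : ℝ × ℝ => w p.2 := hw.comp continuous_snd
  have cu' : Continuous fun p : ℝ × ℝ => w' p.2 := hw'.comp continuous_snd
  have cL : ContinuousOn (fun p : ℝ × ℝ => om p.1 * w p.2 * FC κ u L p.1 p.2 *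
      MC κ dl u W0 Mh β p.1 p.2) (Rect a b) := ((co.mul cu).continuousOn.mul cF).mul cMM
  have cJ : ContinuousOn (fun p : ℝ × ℝ => om p.1 * w p.2 * FC κ u L p.1 p.2) (Rect a b) :=
    (co.mul cu).continuousOn.mul cF
  have cS : ContinuousOn (fun p : ℝ × ℝ =>
      |(κ - 2 + dl) * om p.1 - p.1 * om' p.1| * w p.2 * FC κ u L p.1 p.2) (Rect a b) :=
    ((((continuous_const.mul co).sub (continuous_fst.mul co')).abs.mul cu).continuousOn).mul cF
  have cT : ContinuousOn (fun p : ℝ × ℝ => om p.1 * |w' p.2| * FC κ u L p.1 p.2) (Rect a b) :=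
    ((co.mul cu'.abs).continuousOn).mul cF
  have hLHS : RR a b (fun x θ => om x * w θ * FC κ u L x θ * MC κ dl u W0 Mh β x θ)
      = ∫ p in Rect a b, om p.1 * w p.2 * FC κ u L p.1 p.2 * MC κ dl u W0 Mh β p.1 p.2 :=
    (rect_eq hab.le cL).symm
  have hJ : JC κ u om w a b L = ∫ p in Rect a b, om p.1 * w p.2 * FC κ u L p.1 p.2 :=
    (rect_eq hab.le cJ).symm
  have hS : RR a b (fun x θ => |(κ - 2 + dl) * om x - x * om' x| * w θ * FC κ u L x θ)
      = ∫ p in Rect a b, |(κ - 2 + dl) * om p.1 - p.1 * om' p.1| * w p.2 * FC κ u L p.1 p.2 :=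
    (rect_eq hab.le cS).symm
  have hT : RR a b (fun x θ => om x * |w' θ| * FC κ u L x θ)
      = ∫ p in Rect a b, om p.1 * |w' p.2| * FC κ u L p.1 p.2 :=
    (rect_eq hab.le cT).symm
  rw [hLHS, hJ, hS, hT]
  -- continuity on observers times rectangle
  have cC : ContinuousOn (fun s : ℂ × (ℝ × ℝ) => CmC W0 Mh s.1) (Rp a b) :=
    (CmC_cont hb hW hM).comp continuous_fst.continuousOn fun s hs => hs.1
  have cE : ContinuousOn (EiC κ u om om' w w' β L) (Rp a b) :=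
    (cont_EiC hext hLc ha hb hom hom' hw hw').mono (rp_sub a b)
  have cQ : ContinuousOn (QiC κ dl u om om' w w' L) (Rp a b) :=
    (cont_QiC hLc ha hb hom hom' hw hw').mono (rp_sub a b)
  have cCE : ContinuousOn (fun s => (CmC W0 Mh s.1 * (u / κ) * EiC κ u om om' w w' β L s).re)
      (Rp a b) :=
    Complex.continuous_re.comp_continuousOn ((cC.mul continuousOn_const).mul cE)
  have cCQ : ContinuousOn (fun s => (CmC W0 Mh s.1 * QiC κ dl u om om' w w' L s).re) (Rp a b) :=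
    Complex.continuous_re.comp_continuousOn (cC.mul cQ)
  have hOm : MeasurableSet (Ob b) := (isClosed_ob b).measurableSet
  have slice : ∀ (f : ℂ × (ℝ × ℝ) → ℝ), ContinuousOn f (Rp a b) → ∀ p ∈ Rect a b,
      IntegrableOn (fun z0 => f (z0, p)) (Ob b) := by
    intro f hf p hp
    apply ContinuousOn.integrableOn_compact (isCompact_ob b)
    exact hf.comp (by fun_prop) fun z hz => ⟨hz, hp⟩
  -- the two integrands
  obtain ⟨gE, hgE⟩ : ∃ g : ℂ × (ℝ × ℝ) → ℝ, g = fun s =>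
    (CmC W0 Mh s.1 * (u / κ) * EiC κ u om om' w w' β L s).re := ⟨_, rfl⟩
  obtain ⟨gQ, hgQ⟩ : ∃ g : ℂ × (ℝ × ℝ) → ℝ, g = fun s =>
    (CmC W0 Mh s.1 * QiC κ dl u om om' w w' L s).re := ⟨_, rfl⟩
  rw [← hgE] at cCE
  rw [← hgQ] at cCQ
  have sE : ∀ p ∈ Rect a b, IntegrableOn (fun z0 => gE (z0, p)) (Ob b) := slice _ cCE
  have sQ : ∀ p ∈ Rect a b, IntegrableOn (fun z0 => gQ (z0, p)) (Ob b) := slice _ cCQ
  -- the pointwise identity
  have hpt : ∀ p ∈ Rect a b, om p.1 * w p.2 * FC κ u L p.1 p.2 * MC κ dl u W0 Mh β p.1 p.2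
      = -(∫ z0 in Ob b, gE (z0, p)) + ∫ z0 in Ob b, gQ (z0, p) := by
    intro p hp
    have e1 : om p.1 * w p.2 * FC κ u L p.1 p.2 * MC κ dl u W0 Mh β p.1 p.2
        = ∫ z0 in Ob b, om p.1 * w p.2 * FC κ u L p.1 p.2 *
          (π⁻¹ * gC κ dl u W0 Mh β (z0, p)) := by
      rw [integral_const_mul, integral_const_mul, MC_ob hW]
    have e2 : ∫ z0 in Ob b, om p.1 * w p.2 * FC κ u L p.1 p.2 * (π⁻¹ * gC κ dl u W0 Mh β (z0, p))
        = ∫ z0 in Ob b, (-gE (z0, p) + gQ (z0, p)) := by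
      apply setIntegral_congr_fun hOm
      intro z0 hz
      rw [hgE, hgQ]
      exact re_idC hu hκ om om' w w' (s := (z0, p)) (hrx p hp).ne' hz
    have e3 : ∫ z0 in Ob b, (-gE (z0, p) + gQ (z0, p))
        = (∫ z0 in Ob b, -gE (z0, p)) + ∫ z0 in Ob b, gQ (z0, p) :=
      integral_add (sE p hp).neg (sQ p hp)
    rw [e1, e2, e3, integral_neg]
  -- Fubini
  have hIE := fub_int cCE
  have hIQ := fub_int cCQ
  have iE : Integrable (fun p => ∫ z0 in Ob b, gE (z0, p)) (volume.restrict (Rect a b)) :=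
    hIE.integral_prod_left
  have iQ : Integrable (fun p => ∫ z0 in Ob b, gQ (z0, p)) (volume.restrict (Rect a b)) :=
    hIQ.integral_prod_left
  have hsplit : ∫ p in Rect a b, om p.1 * w p.2 * FC κ u L p.1 p.2 * MC κ dl u W0 Mh β p.1 p.2
      = -(∫ p in Rect a b, ∫ z0 in Ob b, gE (z0, p))
        + ∫ p in Rect a b, ∫ z0 in Ob b, gQ (z0, p) := by
    have e1 : ∫ p in Rect a b, om p.1 * w p.2 * FC κ u L p.1 p.2 * MC κ dl u W0 Mh β p.1 p.2
        = ∫ p in Rect a b, (-(∫ z0 in Ob b, gE (z0, p)) + ∫ z0 in Ob b, gQ (z0, p)) := by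
      apply setIntegral_congr_fun (measurableSet_rect a b)
      intro p hp
      exact hpt p hp
    have e2 : ∫ p in Rect a b, (-(∫ z0 in Ob b, gE (z0, p)) + ∫ z0 in Ob b, gQ (z0, p))
        = (∫ p in Rect a b, -(∫ z0 in Ob b, gE (z0, p)))
          + ∫ p in Rect a b, ∫ z0 in Ob b, gQ (z0, p) := integral_add iE.neg iQ
    rw [e1, e2, integral_neg]
  -- the critical part
  have hcrit : |∫ p in Rect a b, ∫ z0 in Ob b, gE (z0, p)| ≤ 9 * Mb / (4 * κ) * η := by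
    rw [integral_integral_swap hIE]
    have h1 : ∀ z0 ∈ Ob b, ‖∫ p in Rect a b, gE (z0, p)‖ ≤ 9 * Mb / (4 * π * κ) * η := by
      intro z0 hz
      rw [hgE]
      have c0 : ContinuousOn (fun p => EiC κ u om om' w w' β L (z0, p)) (Rect a b) :=
        cE.comp (by fun_prop) fun p hp => ⟨hz, hp⟩
      have hi0 : IntegrableOn (fun p => CmC W0 Mh z0 * (u / κ) *
          EiC κ u om om' w w' β L (z0, p)) (Rect a b) :=
        integrableOn_rectC (continuousOn_const.mul c0)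
      have e1 : ∫ p in Rect a b, (CmC W0 Mh z0 * (u / κ) * EiC κ u om om' w w' β L (z0, p)).re
          = (CmC W0 Mh z0 * (u / κ) * EC κ u om om' w w' a b β L z0).re := by
        have e2 : EC κ u om om' w w' a b β L z0
            = ∫ p in Rect a b, EiC κ u om om' w w' β L (z0, p) :=
          (rect_eqC hab.le c0).symm
        rw [e2, ← integral_const_mul]
        exact integral_re hi0
      rw [e1]
      have h2 := CmC_le hW hMb hz
      have h3 := hE z0 hz.1 hz.2.1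
      have h4 := ob_inv hz
      calc ‖(CmC W0 Mh z0 * (u / κ) * EC κ u om om' w w' a b β L z0).re‖
          ≤ ‖CmC W0 Mh z0 * (u / κ) * EC κ u om om' w w' a b β L z0‖ := by
            rw [Real.norm_eq_abs]
            exact Complex.abs_re_le_norm _
        _ = ‖CmC W0 Mh z0‖ * (1 / κ) * ‖EC κ u om om' w w' a b β L z0‖ := by
            rw [norm_mul, norm_mul, huk]
        _ ≤ (Mb / (4 * π) * (1 / ‖z0‖ ^ 2)) * (1 / κ) * η := by gcongr
        _ ≤ (Mb / (4 * π) * 9) * (1 / κ) * η := by gcongr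
        _ = 9 * Mb / (4 * π * κ) * η := by
            field_simp
    have h2 := norm_setIntegral_le_of_norm_le_const (μ := volume) (s := Ob b)
      (isCompact_ob b).measure_lt_top h1
    rw [Real.norm_eq_abs] at h2
    refine h2.trans ?_
    have h3 : (volume : Measure ℂ).real (Ob b) ≤ π := by
      have h4 : (volume : Measure ℂ).real (Ob b) ≤ (volume : Measure ℂ).real (ball (0:ℂ) 1) := by
        apply measureReal_mono _ measure_ball_lt_top.ne
        intro z hz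
        rw [mem_ball, dist_zero_right]
        exact ob_lt hb hz
      have h5 : (volume : Measure ℂ).real (ball (0:ℂ) 1) = π := by
        rw [Measure.real, Complex.volume_ball]
        simp
      linarith
    calc 9 * Mb / (4 * π * κ) * η * (volume : Measure ℂ).real (Ob b)
        ≤ 9 * Mb / (4 * π * κ) * η * π := by gcongr
      _ = 9 * Mb / (4 * κ) * η := by
        field_simp
  -- the kernel part
  have hker : ∫ p in Rect a b, ∫ z0 in Ob b, gQ (z0, p)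
      ≤ ∫ p in Rect a b, (c1 * (om p.1 * w p.2 * FC κ u L p.1 p.2)
        + (Mb / (2 * κ) * (-Real.log b + 882)) *
          (|(κ - 2 + dl) * om p.1 - p.1 * om' p.1| * w p.2 * FC κ u L p.1 p.2)
        + (Mb / κ * 108) * (om p.1 * |w' p.2| * FC κ u L p.1 p.2)) := by
    apply setIntegral_mono_on iQ
    · exact integrableOn_rect (((continuousOn_const.mul cJ).add (continuousOn_const.mul cS)).add
        (continuousOn_const.mul cT))
    · exact measurableSet_rect a b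
    · intro p hp
      rw [hgQ] at sQ ⊢
      have h1 := QCint_le (L := L) (W0 := W0) (Mh := Mh) (om := om) (om' := om') (w := w)
        (w' := w') hu hκ hdl hW hMb hwt.u0 hwt.om0 (x := p.1) (θ := p.2)
        (hrx p hp) hp.1.2 hb1 (hwsupp p.2 hp.2) (sQ p hp)
      refine h1.trans (le_of_eq ?_)
      rw [hc1]
      ring
  have hker2 : ∫ p in Rect a b, (c1 * (om p.1 * w p.2 * FC κ u L p.1 p.2)
        + (Mb / (2 * κ) * (-Real.log b + 882)) *
          (|(κ - 2 + dl) * om p.1 - p.1 * om' p.1| * w p.2 * FC κ u L p.1 p.2)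
        + (Mb / κ * 108) * (om p.1 * |w' p.2| * FC κ u L p.1 p.2))
      = c1 * (∫ p in Rect a b, om p.1 * w p.2 * FC κ u L p.1 p.2)
        + (Mb / (2 * κ) * (-Real.log b + 882)) *
          (∫ p in Rect a b, |(κ - 2 + dl) * om p.1 - p.1 * om' p.1| * w p.2 * FC κ u L p.1 p.2)
        + (Mb / κ * 108) * (∫ p in Rect a b, om p.1 * |w' p.2| * FC κ u L p.1 p.2) := by
    have i1 := (integrableOn_rect cJ).const_mul c1
    have i2 := (integrableOn_rect cS).const_mul (Mb / (2 * κ) * (-Real.log b + 882))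
    have i3 := (integrableOn_rect cT).const_mul (Mb / κ * 108)
    have e1 := integral_add (i1.add i2) i3
    have e2 := integral_add i1 i2
    simp only [Pi.add_apply] at e1 e2
    rw [e1, e2, integral_const_mul, integral_const_mul, integral_const_mul]
  have hJ0 : 0 ≤ ∫ p in Rect a b, om p.1 * w p.2 * FC κ u L p.1 p.2 := by
    apply integral_nonneg
    intro p
    exact mul_nonneg (mul_nonneg (hwt.om0 _) (hwt.u0 _)) (FC_nn _ _ _ _ _)
  have hS0 : 0 ≤ ∫ p in Rect a b,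
      |(κ - 2 + dl) * om p.1 - p.1 * om' p.1| * w p.2 * FC κ u L p.1 p.2 := by
    apply integral_nonneg
    intro p
    exact mul_nonneg (mul_nonneg (abs_nonneg _) (hwt.u0 _)) (FC_nn _ _ _ _ _)
  have hT0 : 0 ≤ ∫ p in Rect a b, om p.1 * |w' p.2| * FC κ u L p.1 p.2 := by
    apply integral_nonneg
    intro p
    exact mul_nonneg (mul_nonneg (hwt.om0 _) (abs_nonneg _)) (FC_nn _ _ _ _ _)
  rw [hsplit]
  rw [hker2] at hker
  have h1 := neg_le_of_abs_le hcrit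
  have h2 : 9 * Mb / (4 * κ) * η ≤ C1 * η := by gcongr
  have h3 : c1 * (∫ p in Rect a b, om p.1 * w p.2 * FC κ u L p.1 p.2)
      ≤ C1 * (∫ p in Rect a b, om p.1 * w p.2 * FC κ u L p.1 p.2) := by gcongr
  have h4 : (Mb / (2 * κ) * (-Real.log b + 882)) *
      (∫ p in Rect a b, |(κ - 2 + dl) * om p.1 - p.1 * om' p.1| * w p.2 * FC κ u L p.1 p.2)
      ≤ (Mb / (2 * κ) * (-Real.log b + C1)) *
      (∫ p in Rect a b, |(κ - 2 + dl) * om p.1 - p.1 * om' p.1| * w p.2 * FC κ u L p.1 p.2) := by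
    gcongr
  have h5 : (Mb / κ * 108) * (∫ p in Rect a b, om p.1 * |w' p.2| * FC κ u L p.1 p.2)
      ≤ C1 * (∫ p in Rect a b, om p.1 * |w' p.2| * FC κ u L p.1 p.2) := by gcongr
  linarith

/-- continuity of `MC`, in the form used by the assembly -/
theorem MC_cont {κ dl Mb a b R : ℝ} {u : ℂ} {W0 : ℂ → ℝ} {Mh β : ℂ → ℂ} (hW : Cutf b W0)
    (hM : ContinuousOn Mh {z | 0 < ‖z‖ ∧ ‖z‖ < 1}) (_hMb : ∀ z, ‖Mh z‖ ≤ Mb) (hR : ExtR β R)
    (ha : 0 < a) (hab : a ≤ b) :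
    ContinuousOn (fun p : ℝ × ℝ => MC κ dl u W0 Mh β p.1 p.2)
      (Icc a b ×ˢ Icc (-(1 / 2)) (1 / 2)) :=
  MC_contOn hR.toExt ha (ha.trans_le hab) hW hM _ _

end

end Pool.Agent.Helper14.CK
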