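import Mathlib

/-!
Disc automorphisms `phi w z = (z - w) / (1 - conj w z)`: elementary facts.
-/

set_option autoImplicit false

open Set Metric Filter Topology

namespace Pool.Agent.Helper14.CK

/-- the disc automorphism which sends `w` to `0` -/
noncomputable def phi (w z : ℂ) : ℂ := (z - w) / (1 - (starRingEnd ℂ) w * z)

theorem one_sub_ne {w z : ℂ} (hw : ‖w‖ < 1) (hz : ‖z‖ < 1) :
    1 - (starRingEnd ℂ) w * z ≠ 0 := by
  intro h
  have h1 : (starRingEnd ℂ) w * z = 1 := by linear_combination -h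
  have h2 : ‖(starRingEnd ℂ) w * z‖ < 1 := by
    rw [norm_mul, RCLike.norm_conj]
    have := mul_lt_mul'' hw hz (norm_nonneg _) (norm_nonneg _)
    linarith
  rw [h1, norm_one] at h2
  exact lt_irrefl _ h2

theorem one_sub_ne' {w z : ℂ} (hw : ‖w‖ < 1) (hz : ‖z‖ ≤ 1) :
    1 - (starRingEnd ℂ) w * z ≠ 0 := by
  intro h
  have h1 : (starRingEnd ℂ) w * z = 1 := by linear_combination -h
  have h2 : ‖(starRingEnd ℂ) w * z‖ < 1 := by
    rw [norm_mul, RCLike.norm_conj]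
    calc ‖w‖ * ‖z‖ ≤ ‖w‖ * 1 := by gcongr
      _ < 1 := by linarith
  rw [h1, norm_one] at h2
  exact lt_irrefl _ h2

theorem normSq_phi (w z : ℂ) :
    ‖1 - (starRingEnd ℂ) w * z‖ ^ 2 - ‖z - w‖ ^ 2 = (1 - ‖w‖ ^ 2) * (1 - ‖z‖ ^ 2) := by
  rw [Complex.sq_norm, Complex.sq_norm, Complex.sq_norm, Complex.sq_norm]
  simp only [Complex.normSq_apply, Complex.sub_re, Complex.sub_im, Complex.one_re, Complex.one_im,
    Complex.mul_re, Complex.mul_im, Complex.conj_re, Complex.conj_im]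
  ring

theorem norm_phi_lt {w z : ℂ} (hw : ‖w‖ < 1) (hz : ‖z‖ < 1) : ‖phi w z‖ < 1 := by
  have h0 : 0 < ‖1 - (starRingEnd ℂ) w * z‖ := norm_pos_iff.mpr (one_sub_ne hw hz)
  unfold phi
  rw [norm_div, div_lt_one h0]
  have h1 : 0 < (1 - ‖w‖ ^ 2) * (1 - ‖z‖ ^ 2) := by
    apply mul_pos <;> nlinarith [norm_nonneg w, norm_nonneg z]
  have h2 := normSq_phi w z
  exact lt_of_pow_lt_pow_left₀ 2 h0.le (by linarith)

theorem phi_self (w : ℂ) : phi w w = 0 := by simp [phi]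

theorem phi_zero (w : ℂ) : phi w 0 = -w := by simp [phi]

theorem phi_eq_zero_iff {w z : ℂ} (hw : ‖w‖ < 1) (hz : ‖z‖ < 1) : phi w z = 0 ↔ z = w := by
  unfold phi
  rw [div_eq_zero_iff]
  constructor
  · rintro (h | h)
    · exact sub_eq_zero.mp h
    · exact absurd h (one_sub_ne hw hz)
  · intro h
    left
    rw [h, sub_self]

theorem phi_neg_phi {w z : ℂ} (hw : ‖w‖ < 1) (hz : ‖z‖ < 1) : phi (-w) (phi w z) = z := by
  have h1 := one_sub_ne hw hz
  have h2 : (1 : ℂ) - (starRingEnd ℂ) w * w ≠ 0 := one_sub_ne hw hw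
  have h3 : 1 - (starRingEnd ℂ) (-w) * ((z - w) / (1 - (starRingEnd ℂ) w * z)) ≠ 0 := by
    have h4 : ‖(z - w) / (1 - (starRingEnd ℂ) w * z)‖ < 1 := norm_phi_lt hw hz
    exact one_sub_ne (by rwa [norm_neg]) h4
  have e1 : (z - w) / (1 - (starRingEnd ℂ) w * z) - -w
      = z * (1 - (starRingEnd ℂ) w * w) / (1 - (starRingEnd ℂ) w * z) := by
    rw [eq_div_iff h1, sub_mul, div_mul_cancel₀ _ h1]
    ring
  have e2 : 1 - (starRingEnd ℂ) (-w) * ((z - w) / (1 - (starRingEnd ℂ) w * z))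
      = (1 - (starRingEnd ℂ) w * w) / (1 - (starRingEnd ℂ) w * z) := by
    rw [eq_div_iff h1, sub_mul, mul_assoc, div_mul_cancel₀ _ h1, map_neg]
    ring
  unfold phi
  rw [e1, e2, div_div_div_cancel_right₀ h1, mul_div_assoc, div_self h2, mul_one]

theorem phi_injOn {w : ℂ} (hw : ‖w‖ < 1) : InjOn (phi w) (ball 0 1) := by
  intro a ha b hb hab
  rw [mem_ball_zero_iff] at ha hb
  rw [← phi_neg_phi hw ha, ← phi_neg_phi hw hb, hab]

theorem hasDerivAt_phi {w z : ℂ} (hw : ‖w‖ < 1) (hz : ‖z‖ < 1) :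
    HasDerivAt (phi w) ((1 - (starRingEnd ℂ) w * w) / (1 - (starRingEnd ℂ) w * z) ^ 2) z := by
  have h1 := one_sub_ne hw hz
  have h2 : HasDerivAt (fun z : ℂ => z - w) 1 z := (hasDerivAt_id z).sub_const w
  have h3 : HasDerivAt (fun z : ℂ => 1 - (starRingEnd ℂ) w * z) (-(starRingEnd ℂ) w) z := by
    have := ((hasDerivAt_id z).const_mul ((starRingEnd ℂ) w)).const_sub 1
    simpa using this
  have h4 := h2.div h3 h1
  have h5 : (1 * (1 - (starRingEnd ℂ) w * z) - (z - w) * -(starRingEnd ℂ) w) /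
      (1 - (starRingEnd ℂ) w * z) ^ 2
      = (1 - (starRingEnd ℂ) w * w) / (1 - (starRingEnd ℂ) w * z) ^ 2 := by
    congr 1
    ring
  rw [h5] at h4
  exact h4

theorem differentiableOn_phi {w : ℂ} (hw : ‖w‖ < 1) : DifferentiableOn ℂ (phi w) (ball 0 1) :=
  fun _ hz => (hasDerivAt_phi hw (mem_ball_zero_iff.mp hz)).differentiableAt.differentiableWithinAt

theorem mapsTo_phi {w : ℂ} (hw : ‖w‖ < 1) : MapsTo (phi w) (ball 0 1) (ball 0 1) := by
  intro z hz
  rw [mem_ball_zero_iff] at hz ⊢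
  exact norm_phi_lt hw hz

end Pool.Agent.Helper14.CK
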