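import Pool.Agent.Helper52.CK.Asm
import Pool.Agent.Helper14.CK.MCts
import Pool.Agent.Helper27.CK.NearStmt
import Pool.Agent.Helper5.CK.Var
import Pool.Agent.Helper58.CK.Ent
import Pool.Agent.Helper77.CK.Lip
set_option autoImplicit false
open Complex MeasureTheory Metric Set
open scoped Real ComplexConjugate ContDiff

/-! Project CK: the assembly with every analytic interface inserted; only the inequality per
target is left as a hypothesis. -/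

namespace Pool.Agent.Helper14.CK

open Pool.Agent.Helper39.Area Pool.Agent.Helper52.EK Pool.Agent.Helper9.EK
open Pool.Agent.Helper52.CK

/-- extension class: the inequality per target gives the exponent -/
theorem plug {κ dl Mb : ℝ} (hκ : 1 ≤ κ) (hdl : 0 ≤ dl) (hMb : 0 ≤ Mb) (hMb2 : Mb < 2 * κ)
    {G : ℂ → ℂ} {Mh : (ℂ → ℂ) → ℂ → ℂ}
    (hG : ∀ (β : ℂ → ℂ) (R : ℝ), ExtR β R → ContinuousOn (wf G β) {z | 0 < ‖z‖ ∧ ‖z‖ < 1})
    (hMc : ∀ (β : ℂ → ℂ) (R : ℝ), ExtR β R → ContinuousOn (Mh β) {z | 0 < ‖z‖ ∧ ‖z‖ < 1})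
    (hM : ∀ β z, ‖Mh β z‖ ≤ Mb) (pt : PTStmt κ dl G Mh) :
    ∀ p : ℝ, κ ≤ p → ∀ e : ℝ, 0 < e → ∃ C : ℝ, ∀ ψ : ℂ → ℂ,
      DifferentiableOn ℂ ψ {z : ℂ | 1 < ‖z‖} → InjOn ψ {z : ℂ | 1 < ‖z‖} →
      (∃ b : ℂ, Filter.Tendsto (fun z => ψ z - z) (Bornology.cobounded ℂ) (nhds b)) →
      ∀ R : ℝ, 1 < R →
      (2 * π)⁻¹ * (∫ θ in (0:ℝ)..(2 * π), ‖deriv ψ (R * Complex.exp (θ * I))‖ ^ (-p)) ≤
        C * (R ^ 2 / (R ^ 2 - 1)) ^ (p - 1 + dl + e) :=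
  have hκ0 : 0 < κ := by linarith
  asmS hκ hdl hMb hMb2 hG hMc hM
    (Pool.Agent.Helper27.CK.nearStmt Pool.Agent.Helper5.CK.variation hκ0.le)
    (mint hκ0 hdl) (mcont κ dl) Pool.Agent.Helper58.CK.ent_stmt pt
    (Pool.Agent.Helper77.CK.lip hκ0.le)

end Pool.Agent.Helper14.CK
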