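import Mathlib
import Pool.Agent.Helper14.CK.Moeb
import Pool.Agent.Helper24.Br.Inj
import Pool.Agent.Helper99.CK.Montel
import Pool.Agent.Helper99.CK.Hurwitz

/-!
The Riemann mapping theorem for a connected open set on which every holomorphic function without
zeros has a holomorphic square root.
-/

set_option autoImplicit false

open Set Metric Filter Topology

namespace Pool.Agent.Helper14.CK

/-- every holomorphic function without zeros on `U` has a holomorphic square root -/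
def Sq (U : Set ℂ) : Prop :=
  ∀ h : ℂ → ℂ, DifferentiableOn ℂ h U → (∀ z ∈ U, h z ≠ 0) →
    ∃ s : ℂ → ℂ, DifferentiableOn ℂ s U ∧ ∀ z ∈ U, s z ^ 2 = h z

/-- injective holomorphic maps of `U` to the disc with `f z0 = 0` -/
def Fam (U : Set ℂ) (z0 : ℂ) (f : ℂ → ℂ) : Prop :=
  DifferentiableOn ℂ f U ∧ InjOn f U ∧ MapsTo f U (ball 0 1) ∧ f z0 = 0

/-- the family is not empty -/
theorem fam_nonempty {U : Set ℂ} (hU : IsOpen U) (hne : U ≠ univ) (hsq : Sq U) {z0 : ℂ}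
    (hz0 : z0 ∈ U) : ∃ f, Fam U z0 f := by
  obtain ⟨a, ha⟩ := (ne_univ_iff_exists_notMem U).mp hne
  obtain ⟨s, hs, hs2⟩ := hsq (fun z => z - a) (by fun_prop) (by
    intro z hz h
    have : z = a := by linear_combination h
    exact ha (this ▸ hz))
  have hsi : InjOn s U := by
    intro x hx y hy hxy
    have h1 := hs2 x hx
    have h2 := hs2 y hy
    rw [hxy, h2] at h1
    linear_combination -h1
  have hs0 : s z0 ≠ 0 := by
    intro h
    have := hs2 z0 hz0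
    rw [h] at this
    have h3 : z0 = a := by linear_combination -this
    exact ha (h3 ▸ hz0)
  -- `s '' U` is a neighbourhood of `s z0`
  have hd : deriv s z0 ≠ 0 := Helper24.Br.deriv_ne_of_inj hU hs hsi hz0
  have hsd : HasStrictDerivAt s (deriv s z0) z0 :=
    (hs.analyticAt (hU.mem_nhds hz0)).hasStrictDerivAt
  have hN : s '' U ∈ 𝓝 (s z0) := by
    rw [← hsd.map_nhds_eq hd]
    exact image_mem_map (hU.mem_nhds hz0)
  obtain ⟨ε, hε, hball⟩ := Metric.mem_nhds_iff.mp hN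
  have hfar : ∀ z ∈ U, ε ≤ ‖s z + s z0‖ := by
    intro z hz
    by_contra hlt
    push Not at hlt
    have hm : -s z ∈ ball (s z0) ε := by
      rw [mem_ball_iff_norm]
      have : -s z - s z0 = -(s z + s z0) := by ring
      rwa [this, norm_neg]
    obtain ⟨y, hy, hyz⟩ := hball hm
    have h1 := hs2 z hz
    have h2 := hs2 y hy
    rw [hyz, neg_sq, h1] at h2
    have h3 : y = z := by linear_combination -h2
    subst h3
    have h4 : s y = 0 := by linear_combination hyz / 2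
    rw [h4] at h1
    have h5 : y = a := by linear_combination -h1
    exact ha (h5 ▸ hz)
  -- the injection to the disc
  obtain ⟨q, hq⟩ : ∃ q : ℂ → ℂ, q = fun z => (ε / 2 : ℂ) / (s z + s z0) := ⟨_, rfl⟩
  have hne0 : ∀ z ∈ U, s z + s z0 ≠ 0 := by
    intro z hz h
    have := hfar z hz
    rw [h, norm_zero] at this
    linarith
  have hqd : DifferentiableOn ℂ q U := by
    rw [hq]
    exact (differentiableOn_const _).div (hs.add_const _) hne0
  have hqi : InjOn q U := by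
    intro x hx y hy hxy
    rw [hq] at hxy
    simp only at hxy
    have hε0 : (ε / 2 : ℂ) ≠ 0 := by
      simp [hε.ne']
    rw [div_eq_div_iff (hne0 x hx) (hne0 y hy)] at hxy
    have := mul_left_cancel₀ hε0 hxy
    apply hsi hx hy
    linear_combination -this
  have hqm : ∀ z ∈ U, ‖q z‖ < 1 := by
    intro z hz
    rw [hq]
    simp only [norm_div]
    have h1 := hfar z hz
    have h2 : ‖(ε : ℂ)‖ = ε := by
      rw [Complex.norm_real, Real.norm_of_nonneg hε.le]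
    rw [h2, div_lt_one (lt_of_lt_of_le hε h1)]
    simp only [Complex.norm_ofNat]
    linarith
  refine ⟨fun z => phi (q z0) (q z), ?_, ?_, ?_, ?_⟩
  · exact (differentiableOn_phi (hqm z0 hz0)).comp hqd
      (fun z hz => mem_ball_zero_iff.mpr (hqm z hz))
  · intro x hx y hy hxy
    exact hqi hx hy (phi_injOn (hqm z0 hz0) (mem_ball_zero_iff.mpr (hqm x hx))
      (mem_ball_zero_iff.mpr (hqm y hy)) hxy)
  · intro z hz
    exact mapsTo_phi (hqm z0 hz0) (mem_ball_zero_iff.mpr (hqm z hz))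
  · exact phi_self _

/-- the square root trick -/
theorem fam_step {U : Set ℂ} (hU : IsOpen U) (hsq : Sq U) {z0 : ℂ}
    (hz0 : z0 ∈ U) {f : ℂ → ℂ} (hf : Fam U z0 f) {w : ℂ} (hw : ‖w‖ < 1) (hwf : w ∉ f '' U) :
    ∃ F, Fam U z0 F ∧ ‖deriv f z0‖ < ‖deriv F z0‖ := by
  obtain ⟨hfd, hfi, hfm, hf0⟩ := hf
  have hfn : ∀ z ∈ U, ‖f z‖ < 1 := fun z hz => mem_ball_zero_iff.mp (hfm hz)
  have hw0 : w ≠ 0 := by
    intro h
    exact hwf ⟨z0, hz0, by rw [hf0, h]⟩
  have hpd : DifferentiableOn ℂ (fun z => phi w (f z)) U := (differentiableOn_phi hw).comp hfd hfm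
  obtain ⟨s, hs, hs2⟩ := hsq (fun z => phi w (f z)) hpd (by
    intro z hz h
    rw [phi_eq_zero_iff hw (hfn z hz)] at h
    exact hwf ⟨z, hz, h⟩)
  have hsn : ∀ z ∈ U, ‖s z‖ < 1 := by
    intro z hz
    have h1 : ‖s z‖ ^ 2 < 1 := by
      rw [← norm_pow, hs2 z hz]
      exact norm_phi_lt hw (hfn z hz)
    by_contra hlt
    push Not at hlt
    nlinarith
  have hsi : InjOn s U := by
    intro x hx y hy hxy
    have h1 := hs2 x hx
    have h2 := hs2 y hy
    rw [hxy, h2] at h1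
    exact hfi hx hy (phi_injOn hw (hfm hx) (hfm hy) h1.symm)
  obtain ⟨b, hb⟩ : ∃ b, b = s z0 := ⟨_, rfl⟩
  have hb1 : ‖b‖ < 1 := hb ▸ hsn z0 hz0
  have hb2 : b ^ 2 = -w := by
    rw [hb, hs2 z0 hz0, hf0, phi_zero]
  have hbn : ‖b‖ ^ 2 = ‖w‖ := by
    rw [← norm_pow, hb2, norm_neg]
  have hb0 : b ≠ 0 := by
    intro h
    rw [h] at hb2
    apply hw0
    linear_combination hb2
  have hbpos : 0 < ‖b‖ := norm_pos_iff.mpr hb0
  refine ⟨fun z => phi b (s z), ⟨?_, ?_, ?_, ?_⟩, ?_⟩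
  · exact (differentiableOn_phi hb1).comp hs (fun z hz => mem_ball_zero_iff.mpr (hsn z hz))
  · intro x hx y hy hxy
    exact hsi hx hy (phi_injOn hb1 (mem_ball_zero_iff.mpr (hsn x hx))
      (mem_ball_zero_iff.mpr (hsn y hy)) hxy)
  · intro z hz
    exact mapsTo_phi hb1 (mem_ball_zero_iff.mpr (hsn z hz))
  · show phi b (s z0) = 0
    rw [← hb, phi_self]
  · -- the derivative
    have hfz : HasDerivAt f (deriv f z0) z0 :=
      (hfd.differentiableAt (hU.mem_nhds hz0)).hasDerivAt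
    have hsz : HasDerivAt s (deriv s z0) z0 :=
      (hs.differentiableAt (hU.mem_nhds hz0)).hasDerivAt
    have hf1 : deriv f z0 ≠ 0 := Helper24.Br.deriv_ne_of_inj hU hfd hfi hz0
    -- derivative of `s ^ 2 = phi w ∘ f`
    have h1 : HasDerivAt (fun z => s z ^ 2) (2 * s z0 * deriv s z0) z0 := by
      have := hsz.fun_pow 2
      simpa using this
    have h2 : HasDerivAt (fun z => phi w (f z))
        ((1 - (starRingEnd ℂ) w * w) / (1 - (starRingEnd ℂ) w * (f z0)) ^ 2 * deriv f z0) z0 :=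
      (hasDerivAt_phi hw (hfn z0 hz0)).comp z0 hfz
    have h3 : (fun z => s z ^ 2) =ᶠ[𝓝 z0] fun z => phi w (f z) := by
      filter_upwards [hU.mem_nhds hz0] with z hz using hs2 z hz
    have h4 := h1.unique (h2.congr_of_eventuallyEq h3)
    rw [hf0, mul_zero, sub_zero, one_pow, div_one, ← hb] at h4
    -- derivative of `phi b ∘ s`
    have h5 : HasDerivAt (fun z => phi b (s z))
        ((1 - (starRingEnd ℂ) b * b) / (1 - (starRingEnd ℂ) b * (s z0)) ^ 2 * deriv s z0) z0 :=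
      (hasDerivAt_phi hb1 (hsn z0 hz0)).comp z0 hsz
    rw [h5.deriv, ← hb]
    have hwn : ‖(1 : ℂ) - (starRingEnd ℂ) w * w‖ = 1 - ‖w‖ ^ 2 := by
      have : (1 : ℂ) - (starRingEnd ℂ) w * w = ((1 - ‖w‖ ^ 2 : ℝ) : ℂ) := by
        rw [mul_comm, Complex.mul_conj, Complex.normSq_eq_norm_sq]
        push_cast
        ring
      rw [this, Complex.norm_real, Real.norm_of_nonneg]
      nlinarith [norm_nonneg w]
    have hbn' : ‖(1 : ℂ) - (starRingEnd ℂ) b * b‖ = 1 - ‖b‖ ^ 2 := by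
      have : (1 : ℂ) - (starRingEnd ℂ) b * b = ((1 - ‖b‖ ^ 2 : ℝ) : ℂ) := by
        rw [mul_comm, Complex.mul_conj, Complex.normSq_eq_norm_sq]
        push_cast
        ring
      rw [this, Complex.norm_real, Real.norm_of_nonneg]
      nlinarith [norm_nonneg b]
    have h6 : 2 * ‖b‖ * ‖deriv s z0‖ = (1 - ‖w‖ ^ 2) * ‖deriv f z0‖ := by
      have := congrArg norm h4
      rw [norm_mul, norm_mul, norm_mul, hwn] at this
      simpa using this
    rw [norm_mul, norm_div, norm_pow, hbn']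
    have hpos : 0 < 1 - ‖b‖ ^ 2 := by nlinarith
    have h7 : (1 - ‖b‖ ^ 2) / (1 - ‖b‖ ^ 2) ^ 2 * ‖deriv s z0‖
        = ‖deriv s z0‖ / (1 - ‖b‖ ^ 2) := by
      field_simp
    rw [h7, lt_div_iff₀ hpos]
    have hD : 0 < ‖deriv f z0‖ := norm_pos_iff.mpr hf1
    rw [← hbn] at h6
    have h8 : ‖deriv f z0‖ * (1 - ‖b‖ ^ 2) * (2 * ‖b‖) < ‖deriv s z0‖ * (2 * ‖b‖) := by
      have h9 : ‖deriv s z0‖ * (2 * ‖b‖) = (1 - (‖b‖ ^ 2) ^ 2) * ‖deriv f z0‖ := by linarith
      rw [h9]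
      have h10 : (1 - (‖b‖ ^ 2) ^ 2) * ‖deriv f z0‖ - ‖deriv f z0‖ * (1 - ‖b‖ ^ 2) * (2 * ‖b‖)
          = ‖deriv f z0‖ * (1 - ‖b‖ ^ 2) * (1 - ‖b‖) ^ 2 := by ring
      have h11 : 0 < ‖deriv f z0‖ * (1 - ‖b‖ ^ 2) * (1 - ‖b‖) ^ 2 := by
        apply mul_pos (mul_pos hD hpos)
        apply pow_pos
        linarith
      linarith
    exact lt_of_mul_lt_mul_right h8 (by positivity)

/-- Cauchy: the derivatives of the family at `z0` are bounded -/
theorem fam_deriv_bdd {U : Set ℂ} (hU : IsOpen U) {z0 : ℂ} (hz0 : z0 ∈ U) :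
    ∃ B : ℝ, ∀ f, Fam U z0 f → ‖deriv f z0‖ ≤ B := by
  obtain ⟨r, hr, hball⟩ := Metric.isOpen_iff.mp hU z0 hz0
  refine ⟨1 / (r / 2), fun f hf => ?_⟩
  obtain ⟨hfd, -, hfm, -⟩ := hf
  have hcl : closedBall z0 (r / 2) ⊆ U :=
    (closedBall_subset_ball (by linarith)).trans hball
  apply Complex.norm_deriv_le_of_forall_mem_sphere_norm_le (by positivity)
  · apply DifferentiableOn.diffContOnCl_ball (U := U) hfd hcl
  · intro z hz
    exact (mem_ball_zero_iff.mp (hfm (hcl (sphere_subset_closedBall hz)))).le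

/-- a maximising member of the family -/
theorem fam_max {U : Set ℂ} (hU : IsOpen U) (hc : IsPreconnected U) (hne : U ≠ univ) (hsq : Sq U)
    {z0 : ℂ} (hz0 : z0 ∈ U) : ∃ f, Fam U z0 f ∧ ∀ g, Fam U z0 g → ‖deriv g z0‖ ≤ ‖deriv f z0‖ := by
  obtain ⟨B, hB⟩ := fam_deriv_bdd hU hz0
  obtain ⟨f0, hf0⟩ := fam_nonempty hU hne hsq hz0
  obtain ⟨S, hS⟩ : ∃ S : Set ℝ, S = {x | ∃ f, Fam U z0 f ∧ x = ‖deriv f z0‖} := ⟨_, rfl⟩
  have hSne : S.Nonempty := ⟨_, by rw [hS]; exact ⟨f0, hf0, rfl⟩⟩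
  have hSb : BddAbove S := by
    refine ⟨B, ?_⟩
    rw [hS]
    rintro x ⟨f, hf, rfl⟩
    exact hB f hf
  obtain ⟨u, -, hut, huS⟩ := exists_seq_tendsto_sSup hSne hSb
  have hch : ∀ n, ∃ f, Fam U z0 f ∧ u n = ‖deriv f z0‖ := by
    intro n
    have := huS n
    rw [hS] at this
    exact this
  choose F hF hFu using hch
  obtain ⟨φ, g, hφ, hgd, hlim⟩ := Helper99.CK.montel hU (f := F) (fun n => (hF n).1) (by
    intro K hK _
    exact ⟨1, fun n z hz => (mem_ball_zero_iff.mp ((hF n).2.2.1 (hK hz))).le⟩)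
  have hderiv : Tendsto (fun n => deriv (F (φ n)) z0) atTop (𝓝 (deriv g z0)) := by
    have h1 := hlim.deriv (Eventually.of_forall fun n => (hF (φ n)).1) hU
    exact h1.tendsto_at hz0
  have hMax : ‖deriv g z0‖ = sSup S := by
    have h1 : Tendsto (fun n => ‖deriv (F (φ n)) z0‖) atTop (𝓝 ‖deriv g z0‖) := hderiv.norm
    have h2 : Tendsto (fun n => u (φ n)) atTop (𝓝 (sSup S)) := hut.comp hφ.tendsto_atTop
    have h3 : (fun n => u (φ n)) = fun n => ‖deriv (F (φ n)) z0‖ := by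
      funext n
      exact hFu (φ n)
    rw [h3] at h2
    exact tendsto_nhds_unique h1 h2
  have hf0S : ‖deriv f0 z0‖ ∈ S := by rw [hS]; exact ⟨f0, hf0, rfl⟩
  have hpos : 0 < ‖deriv g z0‖ := by
    rw [hMax]
    have h1 : 0 < ‖deriv f0 z0‖ :=
      norm_pos_iff.mpr (Helper24.Br.deriv_ne_of_inj hU hf0.1 hf0.2.1 hz0)
    exact lt_of_lt_of_le h1 (le_csSup hSb hf0S)
  have hnc : ¬ ∃ c, ∀ z ∈ U, g z = c := by
    rintro ⟨c, hcc⟩
    have h1 : g =ᶠ[𝓝 z0] fun _ => c := by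
      filter_upwards [hU.mem_nhds hz0] with z hz using hcc z hz
    rw [h1.deriv_eq] at hpos
    simp at hpos
  have hgi : InjOn g U := by
    obtain ⟨a, ha, hac⟩ : ∃ a ∈ U, g a ≠ g z0 := by
      by_contra hcon
      push Not at hcon
      exact hnc ⟨g z0, hcon⟩
    exact Helper99.CK.hurwitz_injOn hU hc (Eventually.of_forall fun n => (hF (φ n)).1)
      (Eventually.of_forall fun n => (hF (φ n)).2.1).frequently hlim ha hz0 hac
  have hgle : ∀ z ∈ U, ‖g z‖ ≤ 1 := by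
    intro z hz
    have h1 : Tendsto (fun n => ‖F (φ n) z‖) atTop (𝓝 ‖g z‖) := (hlim.tendsto_at hz).norm
    exact le_of_tendsto' h1 fun n => (mem_ball_zero_iff.mp ((hF (φ n)).2.2.1 hz)).le
  have hgm : MapsTo g U (ball 0 1) := by
    have h1 := (hgd.analyticOnNhd hU).is_constant_or_isOpen hc
    rcases h1 with ⟨w, hw⟩ | h1
    · exact absurd ⟨w, hw⟩ hnc
    · have h2 := h1 U subset_rfl hU
      have h3 : g '' U ⊆ closedBall 0 1 := by
        rintro _ ⟨z, hz, rfl⟩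
        exact mem_closedBall_zero_iff.mpr (hgle z hz)
      have h4 : g '' U ⊆ interior (closedBall 0 1) := interior_maximal h3 h2
      rw [interior_closedBall _ one_ne_zero] at h4
      intro z hz
      exact h4 ⟨z, hz, rfl⟩
  have hg0 : g z0 = 0 := by
    have h1 : Tendsto (fun n => F (φ n) z0) atTop (𝓝 (g z0)) := hlim.tendsto_at hz0
    have h2 : (fun n => F (φ n) z0) = fun _ => 0 := by
      funext n
      exact (hF (φ n)).2.2.2
    rw [h2] at h1
    exact (tendsto_nhds_unique h1 tendsto_const_nhds)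
  refine ⟨g, ⟨hgd, hgi, hgm, hg0⟩, fun k hk => ?_⟩
  rw [hMax]
  exact le_csSup hSb (by rw [hS]; exact ⟨k, hk, rfl⟩)

/-- **The Riemann mapping theorem** -/
theorem riemann_map {U : Set ℂ} (hU : IsOpen U) (hc : IsPreconnected U) (hne : U ≠ univ)
    (hsq : Sq U) {z0 : ℂ} (hz0 : z0 ∈ U) :
    ∃ f g : ℂ → ℂ, DifferentiableOn ℂ f U ∧ InjOn f U ∧ f '' U = ball 0 1 ∧ f z0 = 0 ∧
      DifferentiableOn ℂ g (ball 0 1) ∧ InjOn g (ball 0 1) ∧ g '' ball 0 1 = U ∧ g 0 = z0 ∧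
      (∀ z ∈ U, g (f z) = z) ∧ (∀ w ∈ ball (0 : ℂ) 1, f (g w) = w) ∧
      (∃ r : ℝ, 0 < r ∧ deriv f z0 = r ∧ deriv g 0 = (r⁻¹ : ℝ)) := by
  obtain ⟨f1, hf1, hmax⟩ := fam_max hU hc hne hsq hz0
  have hd1 : deriv f1 z0 ≠ 0 := Helper24.Br.deriv_ne_of_inj hU hf1.1 hf1.2.1 hz0
  -- surjectivity
  have hsurj : f1 '' U = ball 0 1 := by
    apply Subset.antisymm
    · rintro _ ⟨z, hz, rfl⟩
      exact hf1.2.2.1 hz
    · intro w hw
      by_contra hwf
      obtain ⟨F, hF, hlt⟩ := fam_step hU hsq hz0 hf1 (mem_ball_zero_iff.mp hw) hwf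
      exact absurd (hmax F hF) (not_le.mpr hlt)
  -- normalise the argument
  obtain ⟨c, hcdef⟩ : ∃ c : ℂ, c = (‖deriv f1 z0‖ : ℂ) / deriv f1 z0 := ⟨_, rfl⟩
  have hcn : ‖c‖ = 1 := by
    rw [hcdef, norm_div, Complex.norm_real, norm_norm, div_self (norm_ne_zero_iff.mpr hd1)]
  have hc0 : c ≠ 0 := by
    intro h
    rw [h, norm_zero] at hcn
    exact zero_ne_one hcn
  obtain ⟨f, hfdef⟩ : ∃ f : ℂ → ℂ, f = fun z => c * f1 z := ⟨_, rfl⟩
  have hfd : DifferentiableOn ℂ f U := by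
    rw [hfdef]
    exact hf1.1.const_mul c
  have hfi : InjOn f U := by
    intro x hx y hy hxy
    rw [hfdef] at hxy
    exact hf1.2.1 hx hy (mul_left_cancel₀ hc0 hxy)
  have hfim : f '' U = ball 0 1 := by
    rw [hfdef]
    ext w
    constructor
    · rintro ⟨z, hz, rfl⟩
      rw [mem_ball_zero_iff]
      simp only [norm_mul, hcn, one_mul]
      exact mem_ball_zero_iff.mp (hf1.2.2.1 hz)
    · intro hw
      have h1 : w / c ∈ ball (0 : ℂ) 1 := by
        rw [mem_ball_zero_iff] at hw ⊢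
        rwa [norm_div, hcn, div_one]
      rw [← hsurj] at h1
      obtain ⟨z, hz, hzw⟩ := h1
      exact ⟨z, hz, by simp only; rw [hzw, mul_div_cancel₀ _ hc0]⟩
  have hf0 : f z0 = 0 := by
    rw [hfdef]
    simp only [hf1.2.2.2, mul_zero]
  have hfr : deriv f z0 = (‖deriv f1 z0‖ : ℂ) := by
    have h1 : HasDerivAt f1 (deriv f1 z0) z0 :=
      (hf1.1.differentiableAt (hU.mem_nhds hz0)).hasDerivAt
    have h2 := h1.const_mul c
    rw [hfdef, h2.deriv, hcdef, div_mul_cancel₀ _ hd1]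
  -- the inverse
  obtain ⟨g, hgdef⟩ : ∃ g : ℂ → ℂ, g = Function.invFunOn f U := ⟨_, rfl⟩
  have hg1 : ∀ w ∈ ball (0 : ℂ) 1, g w ∈ U ∧ f (g w) = w := by
    intro w hw
    rw [← hfim] at hw
    obtain ⟨z, hz, hzw⟩ := hw
    rw [hgdef]
    exact ⟨Function.invFunOn_mem ⟨z, hz, hzw⟩, Function.invFunOn_eq ⟨z, hz, hzw⟩⟩
  have hfmem : ∀ z ∈ U, f z ∈ ball (0 : ℂ) 1 := fun z hz => by
    rw [← hfim]
    exact ⟨z, hz, rfl⟩
  have hg2 : ∀ z ∈ U, g (f z) = z := by
    intro z hz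
    have h1 := hg1 (f z) (hfmem z hz)
    exact hfi h1.1 hz h1.2
  -- differentiability of the inverse
  have hgder : ∀ z ∈ U, HasDerivAt g (deriv f z)⁻¹ (f z) := by
    intro z hz
    have hdz : deriv f z ≠ 0 := Helper24.Br.deriv_ne_of_inj hU hfd hfi hz
    have hsd : HasStrictDerivAt f (deriv f z) z :=
      (hfd.analyticAt (hU.mem_nhds hz)).hasStrictDerivAt
    have h1 : ∀ᶠ x in 𝓝 z, g (f x) = x := by
      filter_upwards [hU.mem_nhds hz] with x hx using hg2 x hx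
    exact (hsd.to_local_left_inverse hdz h1).hasDerivAt
  have hgd : DifferentiableOn ℂ g (ball 0 1) := by
    intro w hw
    obtain ⟨h1, h2⟩ := hg1 w hw
    have h3 := hgder (g w) h1
    rw [h2] at h3
    exact h3.differentiableAt.differentiableWithinAt
  have hg0 : g 0 = z0 := by
    have := hg2 z0 hz0
    rwa [hf0] at this
  refine ⟨f, g, hfd, hfi, hfim, hf0, hgd, ?_, ?_, hg0, hg2, fun w hw => (hg1 w hw).2,
    ‖deriv f1 z0‖, norm_pos_iff.mpr hd1, hfr, ?_⟩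
  · intro x hx y hy hxy
    rw [← (hg1 x hx).2, ← (hg1 y hy).2, hxy]
  · ext z
    constructor
    · rintro ⟨w, hw, rfl⟩
      exact (hg1 w hw).1
    · intro hz
      exact ⟨f z, hfmem z hz, hg2 z hz⟩
  · have h1 := hgder z0 hz0
    rw [hf0, hfr] at h1
    rw [h1.deriv]
    push_cast
    rfl

end Pool.Agent.Helper14.CK
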